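import Pool.Agent.J4H59.PD.Col

/-!
# Character modules, duality and a Mayer-Vietoris argument

`Du w M` is the group of characters `M → ℚ/ℤ` of a module `M` over the group ring, which is a module by
means of the involution of the group ring twisted by `w`.  The first homology of the resolution
with coefficients in `M` vanishes if and only if all derivations with values in `Du w M` are inner.
-/

set_option autoImplicit false
set_option linter.unusedSectionVars false

open scoped Classical Matrix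

namespace Pool.Agent.J4H59.PD

open Pool.Agent.Helper386.PD3

noncomputable section

variable {G : Type} [Group G] {n : ℕ}

/-- the circle `ℚ/ℤ` -/
abbrev EE : Type := AddCircle (1 : ℚ)

/-- characters of a module -/
def Du (_w : G →* ℤˣ) (M : Type) [AddCommGroup M] : Type := M →+ EE

section

variable (w : G →* ℤˣ) {M : Type} [AddCommGroup M]

instance : AddCommGroup (Du w M) := inferInstanceAs (AddCommGroup (M →+ EE))

variable {w}

/-- the value of a character -/
def Du.ev (ψ : Du w M) : M →+ EE := ψ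

theorem Du.ext {ψ ψ' : Du w M} (h : ∀ m, ψ.ev m = ψ'.ev m) : ψ = ψ' := AddMonoidHom.ext h

theorem Du.ev_add (ψ ψ' : Du w M) (m : M) : (ψ + ψ').ev m = ψ.ev m + ψ'.ev m := rfl
theorem Du.ev_sub (ψ ψ' : Du w M) (m : M) : (ψ - ψ').ev m = ψ.ev m - ψ'.ev m := rfl
theorem Du.ev_neg (ψ : Du w M) (m : M) : (-ψ).ev m = -ψ.ev m := rfl
theorem Du.ev_zero (m : M) : (0 : Du w M).ev m = 0 := rfl

theorem Du.ev_sum {ι : Type} (s : Finset ι) (f : ι → Du w M) (m : M) :
    (∑ i ∈ s, f i).ev m = ∑ i ∈ s, (f i).ev m := by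
  induction s using Finset.induction_on with
  | empty => rfl
  | insert a s ha ih => rw [Finset.sum_insert ha, Finset.sum_insert ha, Du.ev_add, ih]

variable [Module (RR G) M]

instance : Module (RR G) (Du w M) where
  smul r ψ := (show M →+ EE from ψ).comp (DistribSMul.toAddMonoidHom M (dg w r))
  one_smul ψ := by
    refine AddMonoidHom.ext fun m => ?_
    change ψ.ev (dg w 1 • m) = ψ.ev m
    rw [dg_one, one_smul]
  mul_smul r s ψ := by
    refine AddMonoidHom.ext fun m => ?_
    change ψ.ev (dg w (r * s) • m) = ψ.ev (dg w s • dg w r • m)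
    rw [dg_mul, mul_smul]
  smul_zero r := rfl
  smul_add r ψ ψ' := rfl
  add_smul r s ψ := by
    refine AddMonoidHom.ext fun m => ?_
    change ψ.ev (dg w (r + s) • m) = ψ.ev (dg w r • m) + ψ.ev (dg w s • m)
    rw [dg_add, add_smul, map_add]
  zero_smul ψ := by
    refine AddMonoidHom.ext fun m => ?_
    change ψ.ev (dg w 0 • m) = 0
    rw [dg_zero, zero_smul, map_zero]

theorem Du.ev_smul (r : RR G) (ψ : Du w M) (m : M) : (r • ψ).ev m = ψ.ev (dg w r • m) := rfl

theorem Du.ev_gof (g : G) (ψ : Du w M) (m : M) :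
    (gof g • ψ).ev m = ((w g : ℤˣ) : ℤ) • ψ.ev (gof g⁻¹ • m) := by
  rw [Du.ev_smul, dg_of, smul_assoc, map_zsmul]

/-- the character of columns attached to a column of characters -/
def Psi (φ : Fin n → Du w M) : (Fin n → M) →+ EE where
  toFun x := ∑ i, (φ i).ev (x i)
  map_zero' := Finset.sum_eq_zero fun i _ => map_zero _
  map_add' x y := by
    rw [← Finset.sum_add_distrib]
    exact Finset.sum_congr rfl fun i _ => map_add _ _ _

theorem Psi_apply (φ : Fin n → Du w M) (x : Fin n → M) : Psi φ x = ∑ i, (φ i).ev (x i) := rfl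

theorem Psi_zero (x : Fin n → M) : Psi (0 : Fin n → Du w M) x = 0 := by
  rw [Psi_apply]
  exact Finset.sum_eq_zero fun i _ => Du.ev_zero _

/-- the column of characters attached to a character of columns -/
def unPsi (w : G →* ℤˣ) (ψ : (Fin n → M) →+ EE) : Fin n → Du w M :=
  fun i => ψ.comp (AddMonoidHom.single (fun _ => M) i)

theorem Psi_unPsi (ψ : (Fin n → M) →+ EE) : Psi (unPsi w ψ) = ψ := by
  refine AddMonoidHom.ext fun x => ?_
  rw [Psi_apply]
  change ∑ i, ψ (Pi.single i (x i)) = ψ x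
  rw [← map_sum, Finset.univ_sum_single]

theorem Psi_single (φ : Fin n → Du w M) (i : Fin n) (m : M) : Psi φ (Pi.single i m) = (φ i).ev m := by
  rw [Psi_apply, Finset.sum_eq_single i]
  · rw [Pi.single_eq_same]
  · intro j _ hj
    rw [Pi.single_eq_of_ne hj, map_zero]
  · intro h
    exact absurd (Finset.mem_univ i) h

theorem Psi_inj {φ φ' : Fin n → Du w M} (h : Psi φ = Psi φ') : φ = φ' := by
  funext i
  refine Du.ext fun m => ?_
  rw [← Psi_single, h, Psi_single]

theorem Psi_col (D : MR G n) (φ : Fin n → Du w M) (x : Fin n → M) :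
    Psi (col D φ) x = Psi φ (col (dgM w D) x) := by
  rw [Psi_apply, Psi_apply]
  have h1 : ∀ i, (col D φ i).ev (x i) = ∑ j, (φ j).ev (dg w (D i j) • x i) := by
    intro i
    change (∑ j, D i j • φ j).ev (x i) = _
    rw [Du.ev_sum]
    rfl
  simp only [h1]
  rw [Finset.sum_comm]
  refine Finset.sum_congr rfl fun j _ => ?_
  change ∑ i, (φ j).ev (dg w (D i j) • x i) = (φ j).ev (∑ i, dg w (D i j) • x i)
  rw [map_sum]

/-- exactness of the complex of rows in degree one, written with columns and daggers -/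
def RowExact (w : G →* ℤˣ) (e1 d0 d1 : MR G n) (M : Type) [AddCommGroup M] [Module (RR G) M] :
    Prop :=
  ∀ v : Fin n → M, col (dgM w e1) v = v → col (dgM w d0) v = 0 → ∃ u, col (dgM w d1) u = v

theorem rowExact_of_allDer {e0 e1 e2 d0 d1 : MR G n} (hL : Low e0 e1 e2 d0 d1)
    (hM : AllDer (G := G) (Du w M)) : RowExact w e1 d0 d1 M := by
  intro v hv1 hv0
  by_contra hcon
  let S : AddSubgroup (Fin n → M) :=
    (AddMonoidHom.mk' (fun u : Fin n → M => col (dgM w d1) u) (fun a b => col_add _ a b)).range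
  have hvS : v ∉ S := by
    rintro ⟨u, hu⟩
    exact hcon ⟨u, hu⟩
  have hne : (QuotientAddGroup.mk v : (Fin n → M) ⧸ S) ≠ 0 := by
    intro h
    exact hvS ((QuotientAddGroup.eq_zero_iff v).1 h)
  obtain ⟨ψ0, hψ0⟩ := CharacterModule.exists_character_apply_ne_zero_of_ne_zero hne
  let ψ : (Fin n → M) →+ EE := AddMonoidHom.comp (show ((Fin n → M) ⧸ S) →+ EE from ψ0)
    (QuotientAddGroup.mk' S)
  have hψ1 : ∀ u, ψ (col (dgM w d1) u) = 0 := by
    intro u
    have : (QuotientAddGroup.mk (col (dgM w d1) u) : (Fin n → M) ⧸ S) = 0 :=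
      (QuotientAddGroup.eq_zero_iff _).2 ⟨u, rfl⟩
    change ψ0 (QuotientAddGroup.mk (col (dgM w d1) u)) = 0
    rw [this]
    exact map_zero (show ((Fin n → M) ⧸ S) →+ EE from ψ0)
  have hψv : ψ v ≠ 0 := hψ0
  let Ψ : (Fin n → M) →+ EE :=
    ψ.comp (AddMonoidHom.mk' (fun u : Fin n → M => col (dgM w e1) u) (fun a b => col_add _ a b))
  have hΨ : ∀ x, Ψ x = ψ (col (dgM w e1) x) := fun x => rfl
  obtain ⟨θ, hθ⟩ := exact_of_allDer hL hM (unPsi w Ψ) (by
      apply Psi_inj
      refine AddMonoidHom.ext fun x => ?_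
      rw [Psi_col, Psi_unPsi, hΨ, hΨ, ← col_mul, ← dgM_mul, hL.ee1]) (by
      apply Psi_inj
      refine AddMonoidHom.ext fun x => ?_
      rw [Psi_col, Psi_unPsi, hΨ, ← col_mul, ← dgM_mul, hL.d1e1, hψ1, Psi_zero])
  apply hψv
  rw [← hv1, ← hΨ]
  have h2 : Ψ = Psi (col d0 θ) := by rw [hθ, Psi_unPsi]
  rw [h2, Psi_col, hv0, map_zero]

theorem exists_extension {A B : Type} [AddCommGroup A] [AddCommGroup B] (f : A →+ B) (Ψ : A →+ EE)
    (h : ∀ a, f a = 0 → Ψ a = 0) : ∃ Θ : B →+ EE, ∀ a, Θ (f a) = Ψ a := by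
  let Q := A ⧸ f.ker
  let fb : Q →+ B := QuotientAddGroup.kerLift f
  have hfb : Function.Injective fb := QuotientAddGroup.kerLift_injective f
  let Ψb : Q →+ EE := QuotientAddGroup.lift f.ker Ψ (fun a ha => h a ha)
  obtain ⟨Θ, hΘ⟩ := CharacterModule.dual_surjective_of_injective (R := ℤ) fb.toIntLinearMap hfb
    (show CharacterModule Q from Ψb)
  refine ⟨Θ, fun a => ?_⟩
  have h1 := DFunLike.congr_fun (show (CharacterModule.dual fb.toIntLinearMap Θ : Q →+ EE) = Ψb from hΘ)
    (QuotientAddGroup.mk a)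
  exact h1

theorem allDer_of_rowExact {e0 e1 e2 d0 d1 : MR G n} (hL : Low e0 e1 e2 d0 d1)
    (hM : RowExact w e1 d0 d1 M) : AllDer (G := G) (Du w M) := by
  intro δ hδ
  obtain ⟨φ, hφ1, hφ0, hφ⟩ := exists_column hL δ hδ
  apply hφ
  have hf : ∀ a b : Fin n → M, col (dgM w d0) (a + b) = col (dgM w d0) a + col (dgM w d0) b :=
    fun a b => col_add _ a b
  obtain ⟨Θ, hΘ⟩ := exists_extension
    (AddMonoidHom.mk' (fun u : Fin n → M => col (dgM w d0) u) hf) (Psi φ) (by
      intro v hv
      have hv : col (dgM w d0) v = 0 := hv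
      obtain ⟨u, hu⟩ := hM (col (dgM w e1) v) (by rw [← col_mul, ← dgM_mul, hL.ee1])
        (by rw [← col_mul, ← dgM_mul, hL.e1d0, hv])
      rw [← hφ1, Psi_col, ← hu, ← Psi_col, hφ0, Psi_zero])
  refine ⟨unPsi w Θ, Psi_inj (AddMonoidHom.ext fun x => ?_)⟩
  rw [Psi_col, Psi_unPsi]
  exact hΘ x

end

section glue

variable {w : G →* ℤˣ} {F : Type} [AddCommGroup F] [Module (RR G) F]

theorem col_coe {M : Submodule (RR G) F} (D : MR G n) (φ : Fin n → M) (i : Fin n) :
    ((col D φ i : M) : F) = col D (fun j => (φ j : F)) i := by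
  change ((∑ j, D i j • φ j : M) : F) = ∑ j, D i j • (φ j : F)
  rw [Submodule.coe_sum]
  rfl

/-- The Mayer-Vietoris argument. -/
theorem glue {e0 e1 e2 e3 d0 d1 d2 : MR G n} (h : Full w e0 e1 e2 e3 d0 d1 d2)
    (Mp Mm : Submodule (RR G) F) (hp : AllDer (G := G) (Du w Mp)) (hm : AllDer (G := G) (Du w Mm))
    (hM : AllDer (G := G) ↥(Mp ⊔ Mm)) : AllDer (G := G) (Du w ↥(Mp ⊓ Mm)) := by
  refine allDer_of_rowExact h.colow fun z hz1 hz0 => ?_
  rw [dgM_dgM] at hz1 hz0
  have hp' := rowExact_of_allDer h.colow hp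
  have hm' := rowExact_of_allDer h.colow hm
  obtain ⟨bp, hbp⟩ := hp' (fun i => ⟨(z i : F), (z i).2.1⟩) (by
      rw [dgM_dgM]
      funext i
      apply Subtype.ext
      rw [col_coe]
      have := congrArg Subtype.val (congrFun hz1 i)
      rw [col_coe] at this
      exact this) (by
      rw [dgM_dgM]
      funext i
      apply Subtype.ext
      rw [col_coe]
      have := congrArg Subtype.val (congrFun hz0 i)
      rw [col_coe] at this
      exact this)
  obtain ⟨bm, hbm⟩ := hm' (fun i => ⟨(z i : F), (z i).2.2⟩) (by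
      rw [dgM_dgM]
      funext i
      apply Subtype.ext
      rw [col_coe]
      have := congrArg Subtype.val (congrFun hz1 i)
      rw [col_coe] at this
      exact this) (by
      rw [dgM_dgM]
      funext i
      apply Subtype.ext
      rw [col_coe]
      have := congrArg Subtype.val (congrFun hz0 i)
      rw [col_coe] at this
      exact this)
  rw [dgM_dgM] at hbp hbm
  have hp3 : col d1 (fun i => (bp i : F)) = fun i => (z i : F) := by
    funext i
    rw [← col_coe]
    exact congrArg Subtype.val (congrFun hbp i)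
  have hm3 : col d1 (fun i => (bm i : F)) = fun i => (z i : F) := by
    funext i
    rw [← col_coe]
    exact congrArg Subtype.val (congrFun hbm i)
  -- the difference
  let β : Fin n → ↥(Mp ⊔ Mm) := fun i => ⟨(bp i : F) - (bm i : F),
    Submodule.sub_mem _ (Submodule.mem_sup_left (bp i).2) (Submodule.mem_sup_right (bm i).2)⟩
  have hβ : col d1 β = 0 := by
    funext i
    apply Subtype.ext
    rw [col_coe]
    have h1 : (fun j => ((β j : ↥(Mp ⊔ Mm)) : F)) = (fun j => (bp j : F)) - fun j => (bm j : F) := rfl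
    rw [h1, col_sub, hp3, hm3, sub_self]
    rfl
  obtain ⟨c, hc⟩ := exact_of_allDer h.low hM (col e1 β) (by rw [← col_mul, h.low.ee1])
    (by rw [← col_mul, h.low.d1e1, hβ])
  have hc2 : ∀ i, ∃ x ∈ Mp, ∃ y ∈ Mm, x + y = (c i : F) := fun i => Submodule.mem_sup.1 (c i).2
  choose x hx y hy hxy using hc2
  have hceq : col d0 (fun i => (c i : F)) = col e1 (fun i => (bp i : F)) -
      col e1 (fun i => (bm i : F)) := by
    funext i
    rw [← col_coe, hc, col_coe]
    have h1 : (fun j => ((β j : ↥(Mp ⊔ Mm)) : F)) = (fun j => (bp j : F)) - fun j => (bm j : F) := rfl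
    rw [h1, col_sub]
  have hcxy : (fun i => (c i : F)) = x + y := by
    funext i
    exact (hxy i).symm
  rw [hcxy, col_add] at hceq
  have hkey : col e1 (fun i => (bp i : F)) - col d0 x = col e1 (fun i => (bm i : F)) + col d0 y := by
    rw [sub_eq_iff_eq_add]
    have : col e1 (fun i => (bp i : F)) = (col d0 x + col d0 y) + col e1 (fun i => (bm i : F)) := by
      rw [hceq, sub_add_cancel]
    rw [this]
    abel
  have hcolmem : ∀ (M : Submodule (RR G) F) (D : MR G n) (φ : Fin n → F), (∀ i, φ i ∈ M) →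
      ∀ i, col D φ i ∈ M := by
    intro M D φ hφ i
    exact Submodule.sum_mem _ fun j _ => Submodule.smul_mem _ _ (hφ j)
  let b : Fin n → ↥(Mp ⊓ Mm) := fun i => ⟨(col e1 (fun i => (bp i : F)) - col d0 x) i,
    Submodule.sub_mem _ (hcolmem Mp _ _ (fun j => (bp j).2) i) (hcolmem Mp _ _ hx i), by
      change (col e1 (fun i => (bp i : F)) - col d0 x) i ∈ Mm
      rw [hkey]
      exact Submodule.add_mem _ (hcolmem Mm _ _ (fun j => (bm j).2) i) (hcolmem Mm _ _ hy i)⟩
  refine ⟨b, ?_⟩
  rw [dgM_dgM]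
  funext i
  apply Subtype.ext
  rw [col_coe]
  have h1 : (fun j => ((b j : ↥(Mp ⊓ Mm)) : F)) = col e1 (fun i => (bp i : F)) - col d0 x := rfl
  rw [h1, col_sub, ← col_mul, ← col_mul, h.low.d1e1, h.low.dd, col_zero, sub_zero, hp3]

end glue

end

end Pool.Agent.J4H59.PD
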