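import Pool.Agent.J4H59.PD.Fn

/-!
# Groups of type `FP_1` are finitely generated
-/

set_option autoImplicit false
set_option linter.unusedSectionVars false

open scoped Classical Matrix

namespace Pool.Agent.J4H59.PD

open Pool.Agent.Helper386.PD3

noncomputable section

variable {G : Type} [Group G] {n : ℕ}

theorem exists_supp (x : RR G) : ∃ S : Finset G, ∀ (N : Type) [AddCommGroup N] (δ : G → N),
    (∀ g ∈ S, δ g = 0) → addR δ x = 0 := by
  induction x using rr_ind with
  | h1 g =>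
    refine ⟨{g}, fun N _ δ hδ => ?_⟩
    rw [addR_of]
    exact hδ g (Finset.mem_singleton_self g)
  | h2 a b ha hb =>
    obtain ⟨S, hS⟩ := ha
    obtain ⟨T, hT⟩ := hb
    refine ⟨S ∪ T, fun N _ δ hδ => ?_⟩
    rw [map_add, hS N δ fun g hg => hδ g (Finset.mem_union_left _ hg),
      hT N δ fun g hg => hδ g (Finset.mem_union_right _ hg), add_zero]
  | h3 a ha =>
    obtain ⟨S, hS⟩ := ha
    exact ⟨S, fun N _ δ hδ => by rw [map_neg, hS N δ hδ, neg_zero]⟩

/-- a group with a resolution which is finitely generated in low degrees is finitely generated -/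
theorem fg_of_low {e0 e1 e2 d0 d1 : MR G n} (hL : Low e0 e1 e2 d0 d1) : Group.FG G := by
  obtain ⟨ε, hε, ⟨u0, hu0, hεu0⟩, hεd, hεex⟩ := hL.aug
  choose S hS using fun x : RR G => exists_supp x
  let S1 : Finset G := (Finset.univ.biUnion fun i : Fin n => Finset.univ.biUnion fun j : Fin n =>
    S (d0 i j)) ∪ Finset.univ.biUnion fun j : Fin n => S (u0 j)
  let G0 : Subgroup G := Subgroup.closure (S1 : Set G)
  let c0 : G ⧸ G0 := ((1 : G) : G ⧸ G0)
  let χ : Fn G0 := fun y => if y = c0 then 1 else 0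
  let δ : G → Fn G0 := fun g => gof g • χ - χ
  have hδ : ∀ g h, δ (g * h) = δ g + gof g • δ h := by
    intro g h
    change gof (g * h) • χ - χ = (gof g • χ - χ) + gof g • (gof h • χ - χ)
    rw [smul_sub, gof_mul, mul_smul]
    abel
  have hδ' : IsDer (RingHom.id (RR G)) δ := hδ
  have hfix : ∀ g ∈ G0, δ g = 0 := by
    intro g hg
    refine fn_ext fun y => ?_
    change (gof g • χ) y - χ y = 0
    rw [gof_apply, sub_eq_zero]
    change (if g⁻¹ • y = c0 then (1 : ℤ) else 0) = if y = c0 then (1 : ℤ) else 0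
    have h1 : g • c0 = c0 := by
      change ((g * 1 : G) : G ⧸ G0) = ((1 : G) : G ⧸ G0)
      rw [eq_comm, QuotientGroup.eq, inv_one, one_mul, mul_one]
      exact hg
    have h2 : g⁻¹ • y = c0 ↔ y = c0 := by rw [inv_smul_eq_iff, h1]
    exact if_congr h2 rfl rfl
  have hS1 : ∀ g ∈ S1, δ g = 0 := fun g hg => hfix g (Subgroup.subset_closure hg)
  have ha1 : ∀ i j, addR δ (d0 i j) = 0 := fun i j => hS _ _ δ fun g hg => hS1 g
    (Finset.mem_union_left _ (Finset.mem_biUnion.2 ⟨i, Finset.mem_univ i,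
      Finset.mem_biUnion.2 ⟨j, Finset.mem_univ j, hg⟩⟩))
  have ha2 : ∀ j, addR δ (u0 j) = 0 := fun j => hS _ _ δ fun g hg => hS1 g
    (Finset.mem_union_right _ (Finset.mem_biUnion.2 ⟨j, Finset.mem_univ j, hg⟩))
  let ci : Fin n → ℤ := fun i => ε (Pi.single i 1)
  have hεc : ∀ v, ε v = ∑ i, Pool.Agent.Helper386.PD3.eps (v i) * ci i := by
    intro v
    have h1 : v = ∑ i, v i • (Pi.single i (1 : RR G) : Fin n → RR G) := by
      funext k
      rw [Finset.sum_apply, Finset.sum_eq_single k]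
      · simp
      · intro i _ hi
        rw [Pi.smul_apply, Pi.single_eq_of_ne (Ne.symm hi), smul_zero]
      · intro h
        exact absurd (Finset.mem_univ k) h
    conv_lhs => rw [h1, map_sum]
    exact Finset.sum_congr rfl fun i _ => eps_eq hε _ _
  let f0 : (Fin n → RR G) → Fn G0 := fun v => ∑ i, ci i • addR δ (v i)
  have hf0add : ∀ v v', f0 (v + v') = f0 v + f0 v' := by
    intro v v'
    change ∑ i, ci i • addR δ (v i + v' i) = ∑ i, ci i • addR δ (v i) + ∑ i, ci i • addR δ (v' i)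
    rw [← Finset.sum_add_distrib]
    exact Finset.sum_congr rfl fun i _ => by rw [map_add, smul_add]
  have hf0smul : ∀ (r : RR G) v, f0 (r • v) = r • f0 v + ε v • addR δ r := by
    intro r v
    change ∑ i, ci i • addR δ (r * v i) = r • ∑ i, ci i • addR δ (v i) + ε v • addR δ r
    rw [hεc, Finset.smul_sum, Finset.sum_smul, ← Finset.sum_add_distrib]
    refine Finset.sum_congr rfl fun i _ => ?_
    rw [hδ'.ext, RingHom.id_apply, smul_add, smul_comm r, smul_smul, mul_comm (ci i)]
  have hf0zero : f0 0 = 0 := by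
    have := hf0add 0 0
    rw [add_zero] at this
    simpa using this
  have hf0sum : ∀ (s : Finset (Fin n)) (F : Fin n → (Fin n → RR G)),
      f0 (∑ i ∈ s, F i) = ∑ i ∈ s, f0 (F i) := by
    intro s F
    induction s using Finset.induction_on with
    | empty => rw [Finset.sum_empty, Finset.sum_empty, hf0zero]
    | insert a s ha ih => rw [Finset.sum_insert ha, Finset.sum_insert ha, hf0add, ih]
  have hεd0 : ∀ i, ε (d0 i) = 0 := by
    intro i
    have := hεd (Pi.single i 1)
    rwa [Matrix.single_one_vecMul] at this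
  have hf0u : f0 u0 = 0 := Finset.sum_eq_zero fun j _ => by rw [ha2, smul_zero]
  have hf0d : ∀ i, f0 (d0 i) = 0 := fun i => Finset.sum_eq_zero fun j _ => by rw [ha1, smul_zero]
  have hfd : ∀ v : Fin n → RR G, f0 (v ᵥ* d0) = 0 := by
    intro v
    have h1 : v ᵥ* d0 = ∑ i, v i • d0 i := Matrix.vecMul_eq_sum _ _
    rw [h1, hf0sum]
    refine Finset.sum_eq_zero fun i _ => ?_
    rw [hf0smul, hεd0, zero_smul, add_zero, hf0d, smul_zero]
  have hall : ∀ g, δ g = 0 := by
    intro g
    obtain ⟨v, hv⟩ : ∃ v, v ᵥ* d0 = gof g • u0 - u0 := by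
      refine hεex _ ?_ ?_
      · rw [Matrix.sub_vecMul, Matrix.smul_vecMul, hu0]
      · rw [map_sub, hε, sub_self]
    have h1 : f0 (gof g • u0 - u0) + f0 u0 = gof g • f0 u0 + δ g := by
      rw [← hf0add, sub_add_cancel, hf0smul, hεu0, one_smul, addR_of]
    rw [← hv, hfd, hf0u, smul_zero, zero_add, zero_add] at h1
    exact h1.symm
  rw [Group.fg_def]
  refine ⟨S1, ?_⟩
  rw [eq_top_iff]
  intro g _
  have h1 : (gof g • χ) (g • c0) - χ (g • c0) = 0 := congrFun (hall g) (g • c0)
  rw [gof_apply, inv_smul_smul] at h1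
  have h2 : χ c0 = 1 := if_pos rfl
  rw [h2] at h1
  have h3 : g • c0 = c0 := by
    by_contra hcon
    have h4 : χ (g • c0) = 0 := if_neg hcon
    rw [h4] at h1
    norm_num at h1
  have h4 : ((g * 1 : G) : G ⧸ G0) = ((1 : G) : G ⧸ G0) := h3
  rw [eq_comm, QuotientGroup.eq, inv_one, one_mul, mul_one] at h4
  exact h4

end

end Pool.Agent.J4H59.PD
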