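import Pool.Agent.J4H59.PD.Dual

/-!
# Functions on the cosets of a subgroup, with restrictions on their supports

`Fn A` is the module of integral functions on `G ⧸ A`.  A structure `Lv` consists of an equivariant
map `π` from `G ⧸ A` to a `G`-set and of a level function `L` on `G ⧸ A` which is compatible with
the action.  The submodules `Lv.famM` and `Lv.famP` consist of functions whose support lies over
finitely many points and is finite in each level (and bounded below for the second).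
-/

set_option autoImplicit false
set_option linter.unusedSectionVars false

open scoped Classical

namespace Pool.Agent.J4H59.PD

open Pool.Agent.Helper386.PD3

noncomputable section

variable {G : Type} [Group G]

/-- integral functions on the cosets of a subgroup -/
def Fn (A : Subgroup G) : Type := (G ⧸ A) → ℤ

instance (A : Subgroup G) : AddCommGroup (Fn A) := inferInstanceAs (AddCommGroup ((G ⧸ A) → ℤ))

/-- translation of functions -/
def tr (A : Subgroup G) : G →* AddMonoid.End (Fn A) where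
  toFun g := { toFun := fun f x => f (g⁻¹ • x), map_zero' := rfl, map_add' := fun _ _ => rfl }
  map_one' := by
    refine AddMonoidHom.ext fun f => funext fun x => ?_
    change f ((1 : G)⁻¹ • x) = f x
    rw [inv_one, one_smul]
  map_mul' g h := by
    refine AddMonoidHom.ext fun f => funext fun x => ?_
    change f ((g * h)⁻¹ • x) = f (h⁻¹ • g⁻¹ • x)
    rw [mul_inv_rev, mul_smul]

instance (A : Subgroup G) : Module (RR G) (Fn A) := Module.compHom (Fn A) (liftR (tr A))

variable {A : Subgroup G}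

theorem gof_apply (g : G) (f : Fn A) (x : G ⧸ A) : (gof g • f) x = f (g⁻¹ • x) := by
  change ((liftR (tr A) (gof g)) f) x = _
  rw [liftR_of]
  rfl

theorem fn_ext {f f' : Fn A} (h : ∀ x, f x = f' x) : f = f' := funext h

theorem add_apply (f f' : Fn A) (x : G ⧸ A) : (f + f') x = f x + f' x := rfl
theorem sub_apply (f f' : Fn A) (x : G ⧸ A) : (f - f') x = f x - f' x := rfl
theorem neg_apply (f : Fn A) (x : G ⧸ A) : (-f) x = -f x := rfl
theorem zero_apply (x : G ⧸ A) : (0 : Fn A) x = 0 := rfl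

/-- the support -/
def supp (f : Fn A) : Set (G ⧸ A) := {x | f x ≠ 0}

theorem mem_supp (f : Fn A) (x : G ⧸ A) : x ∈ supp f ↔ f x ≠ 0 := Iff.rfl

/-- families of supports -/
structure Fam (A : Subgroup G) where
  /-- the sets in the family -/
  mem : Set (G ⧸ A) → Prop
  empty : mem ∅
  mono : ∀ {s t : Set (G ⧸ A)}, s ⊆ t → mem t → mem s
  union : ∀ {s t : Set (G ⧸ A)}, mem s → mem t → mem (s ∪ t)
  smul : ∀ (g : G) {s : Set (G ⧸ A)}, mem s → mem {x | g • x ∈ s}

/-- the functions with support in the family -/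
def Fam.sub (Φ : Fam A) : Submodule (RR G) (Fn A) where
  carrier := {f | Φ.mem (supp f)}
  add_mem' {f f'} hf hf' := by
    refine Φ.mono ?_ (Φ.union hf hf')
    intro x hx
    by_contra hcon
    simp only [Set.mem_union, mem_supp, not_or, not_not] at hcon
    apply hx
    rw [add_apply, hcon.1, hcon.2, add_zero]
  zero_mem' := Φ.mono (fun x hx => hx rfl) Φ.empty
  smul_mem' r f hf := by
    have hadd : ∀ f f' : Fn A, Φ.mem (supp f) → Φ.mem (supp f') → Φ.mem (supp (f + f')) := by
      intro f f' hf hf'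
      refine Φ.mono ?_ (Φ.union hf hf')
      intro x hx
      by_contra hcon
      simp only [Set.mem_union, mem_supp, not_or, not_not] at hcon
      apply hx
      rw [add_apply, hcon.1, hcon.2, add_zero]
    change Φ.mem (supp (r • f))
    induction r using rr_ind with
    | h1 g =>
      refine Φ.mono ?_ (Φ.smul g⁻¹ hf)
      intro x hx
      rw [mem_supp, gof_apply] at hx
      exact hx
    | h2 a b ha hb =>
      rw [add_smul]
      exact hadd _ _ ha hb
    | h3 a ha =>
      rw [neg_smul]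
      refine Φ.mono ?_ ha
      intro x hx hx'
      apply hx
      rw [neg_apply, hx', neg_zero]

theorem Fam.mem_sub (Φ : Fam A) (f : Fn A) : f ∈ Φ.sub ↔ Φ.mem (supp f) := Iff.rfl

/-- cutting down the support of a function -/
def cut (s : Set (G ⧸ A)) : Fn A →+ Fn A where
  toFun f x := if x ∈ s then f x else 0
  map_zero' := by
    funext x
    change (if x ∈ s then (0 : ℤ) else 0) = 0
    exact ite_self _
  map_add' f f' := by
    funext x
    change (if x ∈ s then f x + f' x else 0) = (if x ∈ s then f x else 0) +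
      (if x ∈ s then f' x else 0)
    split_ifs
    · rfl
    · rw [add_zero]

theorem cut_apply (s : Set (G ⧸ A)) (f : Fn A) (x : G ⧸ A) :
    cut s f x = if x ∈ s then f x else 0 := rfl

theorem cut_of_mem {s : Set (G ⧸ A)} (f : Fn A) {x : G ⧸ A} (h : x ∈ s) : cut s f x = f x :=
  if_pos h

theorem cut_of_notMem {s : Set (G ⧸ A)} (f : Fn A) {x : G ⧸ A} (h : x ∉ s) : cut s f x = 0 :=
  if_neg h

theorem supp_cut (s : Set (G ⧸ A)) (f : Fn A) : supp (cut s f) ⊆ supp f := by
  intro x hx hx'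
  apply hx
  rw [cut_apply, hx', ite_self]

theorem Fam.cut_mem (Φ : Fam A) (s : Set (G ⧸ A)) {f : Fn A} (hf : f ∈ Φ.sub) :
    cut s f ∈ Φ.sub := Φ.mono (supp_cut s f) hf

theorem gof_cut (g : G) (s : Set (G ⧸ A)) (f : Fn A) :
    gof g • cut s f = cut {x | g⁻¹ • x ∈ s} (gof g • f) := by
  refine fn_ext fun x => ?_
  rw [gof_apply, cut_apply, cut_apply, gof_apply]
  rfl

/-- cutting down, as an endomorphism -/
def Fam.cutS (Φ : Fam A) (s : Set (G ⧸ A)) : Φ.sub →+ Φ.sub where
  toFun f := ⟨cut s f.1, Φ.cut_mem s f.2⟩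
  map_zero' := Subtype.ext (map_zero _)
  map_add' _ _ := Subtype.ext (map_add _ _ _)

theorem Fam.cutS_coe (Φ : Fam A) (s : Set (G ⧸ A)) (f : Φ.sub) :
    ((Φ.cutS s f : Φ.sub) : Fn A) = cut s (f : Fn A) := rfl

/-- A level structure on `G ⧸ A`. -/
structure Lv (A N : Subgroup G) (t : G) (C : Type) [MulAction G C] where
  /-- projection -/
  π : G ⧸ A → C
  /-- level -/
  L : G ⧸ A → ℤ
  /-- base point -/
  b : C
  /-- representatives -/
  r : C → G
  hπ : ∀ (g : G) x, π (g • x) = g • π x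
  hL : ∀ (g : G) c, ∃ j : ℤ, ∀ x, π x = c → L (g • x) = L x + j
  hNb : ∀ n ∈ N, n • b = b
  hNL : ∀ n ∈ N, ∀ x, π x = b → L (n • x) = L x
  ht : t • b = b
  htL : ∀ x, π x = b → L (t • x) = L x + 1
  hr : ∀ c, r c • b = c
  hst : ∀ g : G, g • b = b → g ∈ Subgroup.closure ((N : Set G) ∪ {t})

section Lv

variable {N : Subgroup G} {t : G} {C : Type} [MulAction G C] (v : Lv A N t C)

/-- the reversed level structure -/
def Lv.neg : Lv A N t⁻¹ C where
  π := v.π
  L x := -v.L x
  b := v.b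
  r := v.r
  hπ := v.hπ
  hL g c := by
    obtain ⟨j, hj⟩ := v.hL g c
    refine ⟨-j, fun x hx => ?_⟩
    rw [hj x hx]
    ring
  hNb := v.hNb
  hNL n hn x hx := by rw [v.hNL n hn x hx]
  ht := by
    rw [inv_smul_eq_iff, v.ht]
  htL x hx := by
    have h1 := v.htL (t⁻¹ • x) (by rw [v.hπ, hx, inv_smul_eq_iff, v.ht])
    rw [smul_inv_smul] at h1
    rw [h1]
    ring
  hr := v.hr
  hst g hg := by
    have h1 := v.hst g hg
    have h2 : Subgroup.closure ((N : Set G) ∪ {t}) ≤ Subgroup.closure ((N : Set G) ∪ {t⁻¹}) := by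
      rw [Subgroup.closure_le]
      rintro x (hx | hx)
      · exact Subgroup.subset_closure (Or.inl hx)
      · rw [Set.mem_singleton_iff] at hx
        rw [hx]
        have h3 : t⁻¹ ∈ Subgroup.closure ((N : Set G) ∪ {t⁻¹}) :=
          Subgroup.subset_closure (Or.inr rfl)
        have h4 := Subgroup.inv_mem _ h3
        rwa [inv_inv] at h4
    exact h2 h1

/-- support over finitely many points, and finite in each level over each point -/
def Lv.MM (s : Set (G ⧸ A)) : Prop :=
  (v.π '' s).Finite ∧ ∀ c k, {x | x ∈ s ∧ v.π x = c ∧ v.L x = k}.Finite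

theorem Lv.MM_mono {s s' : Set (G ⧸ A)} (h : s ⊆ s') (h' : v.MM s') : v.MM s :=
  ⟨h'.1.subset (Set.image_mono h), fun c k => (h'.2 c k).subset fun _ hx => ⟨h hx.1, hx.2⟩⟩

theorem Lv.MM_union {s s' : Set (G ⧸ A)} (h : v.MM s) (h' : v.MM s') : v.MM (s ∪ s') := by
  refine ⟨?_, fun c k => ?_⟩
  · rw [Set.image_union]
    exact h.1.union h'.1
  · refine ((h.2 c k).union (h'.2 c k)).subset ?_
    rintro x ⟨hx | hx, hx'⟩
    · exact Or.inl ⟨hx, hx'⟩
    · exact Or.inr ⟨hx, hx'⟩

theorem Lv.MM_smul (g : G) {s : Set (G ⧸ A)} (h : v.MM s) : v.MM {x | g • x ∈ s} := by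
  refine ⟨?_, fun c k => ?_⟩
  · refine (h.1.image fun c => g⁻¹ • c).subset ?_
    rintro _ ⟨x, hx, rfl⟩
    refine ⟨v.π (g • x), ⟨g • x, hx, rfl⟩, ?_⟩
    change g⁻¹ • v.π (g • x) = _
    rw [v.hπ, inv_smul_smul]
  · obtain ⟨j, hj⟩ := v.hL g c
    refine ((h.2 (g • c) (k + j)).image fun x => g⁻¹ • x).subset ?_
    rintro x ⟨hx, hxc, hxk⟩
    refine ⟨g • x, ⟨hx, ?_, ?_⟩, inv_smul_smul _ _⟩
    · rw [v.hπ, hxc]
    · rw [hj x hxc, hxk]

/-- the family of supports for `Lv.MM` -/
def Lv.famM : Fam A where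
  mem := v.MM
  empty := ⟨by simp, fun c k => by simp⟩
  mono := v.MM_mono
  union := v.MM_union
  smul := v.MM_smul

/-- the family of supports bounded below -/
def Lv.famP : Fam A where
  mem s := v.MM s ∧ ∃ B : ℤ, ∀ x ∈ s, B ≤ v.L x
  empty := ⟨v.famM.empty, 0, fun x hx => absurd hx (Set.notMem_empty x)⟩
  mono h h' := ⟨v.MM_mono h h'.1, h'.2.choose, fun x hx => h'.2.choose_spec x (h hx)⟩
  union := by
    rintro s s' ⟨h, B, hB⟩ ⟨h', B', hB'⟩
    refine ⟨v.MM_union h h', min B B', ?_⟩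
    rintro x (hx | hx)
    · exact (min_le_left _ _).trans (hB x hx)
    · exact (min_le_right _ _).trans (hB' x hx)
  smul := by
    rintro g s ⟨h, B, hB⟩
    refine ⟨v.MM_smul g h, ?_⟩
    choose j hj using v.hL g
    obtain ⟨D, hD⟩ := ((v.MM_smul g h).1.image j).bddAbove
    refine ⟨B - D, fun x hx => ?_⟩
    have h1 := hB _ hx
    rw [hj (v.π x) x rfl] at h1
    have h2 : j (v.π x) ≤ D := hD ⟨v.π x, ⟨x, hx, rfl⟩, rfl⟩
    linarith

/-- the family of finite supports -/
def famF (A : Subgroup G) : Fam A where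
  mem s := s.Finite
  empty := Set.finite_empty
  mono h h' := h'.subset h
  union h h' := h.union h'
  smul g s h := by
    refine (h.image fun x => g⁻¹ • x).subset ?_
    intro x hx
    exact ⟨g • x, hx, inv_smul_smul _ _⟩

theorem Lv.inf_eq : v.famP.sub ⊓ v.neg.famP.sub = (famF A).sub := by
  refine Submodule.ext fun f => ?_
  rw [Submodule.mem_inf]
  constructor
  · rintro ⟨⟨h1, B, hB⟩, ⟨-, B', hB'⟩⟩
    change (supp f).Finite
    have h2 : ((h1.1.toFinset ×ˢ Finset.Icc B (-B') : Finset (C × ℤ)) : Set (C × ℤ)).Finite :=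
      Finset.finite_toSet _
    refine (h2.biUnion (t := fun p => {x | x ∈ supp f ∧ v.π x = p.1 ∧ v.L x = p.2})
      (fun p _ => h1.2 p.1 p.2)).subset ?_
    intro x hx
    rw [Set.mem_iUnion₂]
    refine ⟨(v.π x, v.L x), ?_, hx, rfl, rfl⟩
    rw [Finset.mem_coe, Finset.mem_product, Finset.mem_Icc]
    refine ⟨?_, hB x hx, ?_⟩
    · rw [Set.Finite.mem_toFinset]
      exact ⟨x, hx, rfl⟩
    · have h3 : B' ≤ -v.L x := hB' x hx
      change v.L x ≤ -B'
      linarith
  · intro h
    have h : (supp f).Finite := h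
    have h1 : v.MM (supp f) := ⟨h.image _, fun c k => h.subset fun x hx => hx.1⟩
    have h2 : v.neg.MM (supp f) := ⟨h.image _, fun c k => h.subset fun x hx => hx.1⟩
    obtain ⟨B, hB⟩ := (h.image v.L).bddBelow
    obtain ⟨D, hD⟩ := (h.image v.L).bddAbove
    refine ⟨⟨h1, B, fun x hx => hB ⟨x, hx, rfl⟩⟩, ⟨h2, -D, fun x hx => ?_⟩⟩
    have h3 : v.L x ≤ D := hD ⟨x, hx, rfl⟩
    change -D ≤ -v.L x
    linarith

theorem Lv.neg_MM {s : Set (G ⧸ A)} : v.neg.MM s ↔ v.MM s := by
  constructor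
  · rintro ⟨h1, h2⟩
    refine ⟨h1, fun c k => (h2 c (-k)).subset ?_⟩
    rintro x ⟨hx, hxc, hxk⟩
    exact ⟨hx, hxc, by change -v.L x = -k; rw [hxk]⟩
  · rintro ⟨h1, h2⟩
    refine ⟨h1, fun c k => (h2 c (-k)).subset ?_⟩
    rintro x ⟨hx, hxc, hxk⟩
    have hxk : -v.L x = k := hxk
    exact ⟨hx, hxc, by rw [← hxk, neg_neg]⟩

theorem Lv.sup_eq : v.famP.sub ⊔ v.neg.famP.sub = v.famM.sub := by
  apply le_antisymm
  · refine sup_le ?_ ?_
    · intro f hf
      exact hf.1
    · intro f hf
      exact v.neg_MM.1 hf.1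
  · intro f hf
    have hf : v.MM (supp f) := hf
    rw [Submodule.mem_sup]
    refine ⟨cut {x | 0 ≤ v.L x} f, ⟨v.MM_mono (supp_cut _ _) hf, 0, ?_⟩,
      cut {x | ¬ 0 ≤ v.L x} f, ⟨v.neg_MM.2 (v.MM_mono (supp_cut _ _) hf), 0, ?_⟩, ?_⟩
    · intro x hx
      by_contra hcon
      exact hx (cut_of_notMem f hcon)
    · intro x hx
      change 0 ≤ -v.L x
      by_contra hcon
      apply hx
      apply cut_of_notMem f
      intro h
      have h : ¬ 0 ≤ v.L x := h
      apply hcon
      linarith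
    · refine fn_ext fun x => ?_
      rw [add_apply]
      by_cases h : 0 ≤ v.L x
      · have h1 : cut {x | ¬ 0 ≤ v.L x} f x = 0 := cut_of_notMem f (fun h' => h' h)
        have h2 : cut {x | 0 ≤ v.L x} f x = f x := cut_of_mem f h
        rw [h1, h2, add_zero]
      · have h1 : cut {x | ¬ 0 ≤ v.L x} f x = f x := cut_of_mem f h
        have h2 : cut {x | 0 ≤ v.L x} f x = 0 := cut_of_notMem f h
        rw [h1, h2, zero_add]

end Lv

end

end Pool.Agent.J4H59.PD
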