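import Mathlib

/-!
# Geodesic lines in finitely generated infinite torsion groups

In an infinite finitely generated torsion group there is a bi-infinite geodesic line, and the group
is not the union of finitely many translates of the line.
-/

set_option autoImplicit false

open scoped Classical

namespace Pool.Agent.J4H59.PD

variable {Q : Type} [Group Q]

/-- balls -/
def Bl (S : Finset Q) : ℕ → Set Q
  | 0 => {1}
  | n + 1 => {a | ∃ s ∈ S, ∃ b ∈ Bl S n, a = s * b}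

section Bl

variable {S : Finset Q}

theorem one_mem_Bl (S : Finset Q) : (1 : Q) ∈ Bl S 0 := rfl

theorem Bl_succ (h1 : 1 ∈ S) {n : ℕ} {a : Q} (ha : a ∈ Bl S n) : a ∈ Bl S (n + 1) :=
  ⟨1, h1, a, ha, (one_mul a).symm⟩

theorem Bl_mono (h1 : 1 ∈ S) {m n : ℕ} (hmn : m ≤ n) {a : Q} (ha : a ∈ Bl S m) : a ∈ Bl S n := by
  induction n, hmn using Nat.le_induction with
  | base => exact ha
  | succ n _ ih => exact Bl_succ h1 ih

theorem Bl_mul {m n : ℕ} {a b : Q} (ha : a ∈ Bl S m) (hb : b ∈ Bl S n) : a * b ∈ Bl S (m + n) := by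
  induction m generalizing a with
  | zero =>
    have ha : a = 1 := ha
    rw [ha, one_mul, zero_add]
    exact hb
  | succ m ih =>
    obtain ⟨s, hs, c, hc, rfl⟩ := ha
    rw [Nat.succ_add]
    exact ⟨s, hs, c * b, ih hc, mul_assoc _ _ _⟩

theorem Bl_one {s : Q} (hs : s ∈ S) : s ∈ Bl S 1 := ⟨s, hs, 1, rfl, (mul_one s).symm⟩

theorem Bl_inv (hi : ∀ s ∈ S, s⁻¹ ∈ S) {n : ℕ} {a : Q} (ha : a ∈ Bl S n) : a⁻¹ ∈ Bl S n := by
  induction n generalizing a with
  | zero =>
    have ha : a = 1 := ha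
    rw [ha, inv_one]
    rfl
  | succ n ih =>
    obtain ⟨s, hs, b, hb, rfl⟩ := ha
    rw [mul_inv_rev]
    exact Bl_mul (ih hb) (Bl_one (hi s hs))

theorem Bl_right {n : ℕ} {a : Q} (ha : a ∈ Bl S (n + 1)) : ∃ b ∈ Bl S n, ∃ s ∈ S, a = b * s := by
  induction n generalizing a with
  | zero =>
    obtain ⟨s, hs, b, hb, rfl⟩ := ha
    have hb : b = 1 := hb
    exact ⟨1, rfl, s, hs, by rw [hb, one_mul, mul_one]⟩
  | succ n ih =>
    obtain ⟨s, hs, b, hb, rfl⟩ := ha
    obtain ⟨c, hc, t, ht, rfl⟩ := ih hb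
    exact ⟨s * c, ⟨s, hs, c, hc, rfl⟩, t, ht, (mul_assoc _ _ _).symm⟩

theorem Bl_finite (n : ℕ) : (Bl S n).Finite := by
  induction n with
  | zero => exact Set.finite_singleton 1
  | succ n ih =>
    refine ((S.finite_toSet.prod ih).image fun p : Q × Q => p.1 * p.2).subset ?_
    rintro _ ⟨s, hs, b, hb, rfl⟩
    exact ⟨(s, b), ⟨hs, hb⟩, rfl⟩

theorem exists_Bl (_h1 : 1 ∈ S) (hi : ∀ s ∈ S, s⁻¹ ∈ S) (hS : Subgroup.closure (S : Set Q) = ⊤)
    (a : Q) : ∃ n, a ∈ Bl S n := by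
  have ha : a ∈ Subgroup.closure (S : Set Q) := by rw [hS]; exact Subgroup.mem_top a
  induction ha using Subgroup.closure_induction with
  | mem a ha => exact ⟨1, Bl_one ha⟩
  | one => exact ⟨0, rfl⟩
  | mul a b _ _ ha hb =>
    obtain ⟨m, hm⟩ := ha
    obtain ⟨n, hn⟩ := hb
    exact ⟨m + n, Bl_mul hm hn⟩
  | inv a _ ha =>
    obtain ⟨m, hm⟩ := ha
    exact ⟨m, Bl_inv hi hm⟩

theorem exists_new (h1 : 1 ∈ S) (hi : ∀ s ∈ S, s⁻¹ ∈ S)
    (hS : Subgroup.closure (S : Set Q) = ⊤) [Infinite Q] (m : ℕ) :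
    ∃ a ∈ Bl S (m + 1), a ∉ Bl S m := by
  by_contra hcon
  push Not at hcon
  have h2 : ∀ n, Bl S (m + n) ⊆ Bl S m := by
    intro n
    induction n with
    | zero => exact fun a ha => ha
    | succ n ih =>
      rintro a ⟨s, hs, b, hb, rfl⟩
      exact hcon _ ⟨s, hs, b, ih hb, rfl⟩
  have h3 : (Set.univ : Set Q).Finite := by
    refine (Bl_finite (S := S) m).subset fun a _ => ?_
    obtain ⟨n, hn⟩ := exists_Bl h1 hi hS a
    exact h2 n (Bl_mono h1 (Nat.le_add_left n m) hn)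
  exact Set.infinite_univ h3

end Bl

/-- products of consecutive letters -/
def pw (σ : ℤ → Q) (k : ℤ) : ℕ → Q
  | 0 => 1
  | m + 1 => σ (k + m) * pw σ k m

section pw

variable {S : Finset Q}

theorem pw_add (σ : ℤ → Q) (k : ℤ) (m n : ℕ) :
    pw σ k (m + n) = pw σ (k + m) n * pw σ k m := by
  induction n with
  | zero => rw [add_zero, pw, one_mul]
  | succ n ih =>
    rw [← add_assoc, pw, pw, ih, mul_assoc]
    congr 2
    push_cast
    ring

theorem pw_congr {σ τ : ℤ → Q} {k : ℤ} {m : ℕ} (h : ∀ i, k ≤ i → i < k + m → σ i = τ i) :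
    pw σ k m = pw τ k m := by
  induction m with
  | zero => rfl
  | succ m ih =>
    rw [pw, pw, ih fun i hi hi' => h i hi (by push_cast; omega),
      h (k + m) (by omega) (by push_cast; omega)]

theorem pw_mem {σ : ℤ → Q} (hσ : ∀ i, σ i ∈ S) (k : ℤ) (m : ℕ) : pw σ k m ∈ Bl S m := by
  induction m with
  | zero => rfl
  | succ m ih => exact ⟨_, hσ _, _, ih, rfl⟩

theorem exists_word (h1 : 1 ∈ S) (k : ℤ) {m : ℕ} {a : Q} (ha : a ∈ Bl S m) :
    ∃ σ : ℤ → Q, (∀ i, σ i ∈ S) ∧ pw σ k m = a := by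
  induction m generalizing a with
  | zero =>
    have ha : a = 1 := ha
    exact ⟨fun _ => 1, fun _ => h1, ha.symm⟩
  | succ m ih =>
    obtain ⟨s, hs, b, hb, rfl⟩ := ha
    obtain ⟨σ, hσ, hσb⟩ := ih hb
    refine ⟨Function.update σ (k + m) s, fun i => ?_, ?_⟩
    · by_cases hik : i = k + m
      · rw [hik, Function.update_self]
        exact hs
      · rw [Function.update_of_ne hik]
        exact hσ i
    · rw [pw, Function.update_self]
      congr 1
      rw [← hσb]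
      refine pw_congr fun i _ hi' => ?_
      rw [Function.update_of_ne (by omega)]

/-- subwords of geodesic words are geodesic -/
theorem sub_geod (_h1 : 1 ∈ S) {σ : ℤ → Q} (hσ : ∀ i, σ i ∈ S) {k : ℤ} {i m j : ℕ}
    (h : pw σ k (i + (m + 1) + j) ∉ Bl S (i + m + j)) : pw σ (k + i) (m + 1) ∉ Bl S m := by
  intro hcon
  apply h
  rw [pw_add, pw_add]
  have h2 := Bl_mul (pw_mem (S := S) hσ (k + ((i + (m + 1) : ℕ) : ℤ)) j)
    (Bl_mul hcon (pw_mem (S := S) hσ k i))
  have h3 : j + (m + i) = i + m + j := by omega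
  rw [h3] at h2
  exact h2

/-- a bi-infinite geodesic word -/
theorem exists_geod (h1 : 1 ∈ S) (hi : ∀ s ∈ S, s⁻¹ ∈ S)
    (hS : Subgroup.closure (S : Set Q) = ⊤) [Infinite Q] :
    ∃ σ : ℤ → Q, (∀ i, σ i ∈ S) ∧ ∀ (k : ℤ) (m : ℕ), pw σ k (m + 1) ∉ Bl S m := by
  have hw : ∀ n : ℕ, ∃ σ : ℤ → Q, (∀ i, σ i ∈ S) ∧
      pw σ (-(n : ℤ)) (2 * n + 1) ∉ Bl S (2 * n) := by
    intro n
    obtain ⟨a, ha, ha'⟩ := exists_new h1 hi hS (2 * n)
    obtain ⟨σ, hσ, hσa⟩ := exists_word h1 (-(n : ℤ)) ha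
    exact ⟨σ, hσ, by rw [hσa]; exact ha'⟩
  choose τ hτ hτg using hw
  let 𝒰 : Ultrafilter ℕ := Filter.hyperfilter ℕ
  have hlim : ∀ i : ℤ, ∃ s ∈ S, ∀ᶠ n in (𝒰 : Filter ℕ), τ n i = s := by
    intro i
    have h2 : (⋃ s ∈ (S : Set Q), {n | τ n i = s}) ∈ 𝒰 := by
      have h3 : (⋃ s ∈ (S : Set Q), {n | τ n i = s}) = Set.univ := by
        ext n
        simp only [Set.mem_iUnion, Set.mem_univ, iff_true]
        exact ⟨τ n i, hτ n i, rfl⟩
      rw [h3]
      exact Filter.univ_mem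
    obtain ⟨s, hs, hs'⟩ := (Ultrafilter.finite_biUnion_mem_iff S.finite_toSet).1 h2
    exact ⟨s, hs, hs'⟩
  choose σ hσ hσlim using hlim
  refine ⟨σ, hσ, fun k m => ?_⟩
  have h2 : ∀ᶠ n in (𝒰 : Filter ℕ), ∀ i ∈ Finset.Ico k (k + (m + 1 : ℕ)), τ n i = σ i := by
    rw [Filter.eventually_all_finset]
    exact fun i _ => hσlim i
  have h3 : ∀ᶠ n in (𝒰 : Filter ℕ), k.natAbs + m + 1 ≤ n := by
    have h4 : ∀ᶠ n : ℕ in Filter.cofinite, k.natAbs + m + 1 ≤ n := by
      rw [Nat.cofinite_eq_atTop]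
      exact Filter.eventually_ge_atTop _
    exact Filter.hyperfilter_le_cofinite h4
  obtain ⟨n, hn, hn'⟩ := (h2.and h3).exists
  have h4 : pw σ k (m + 1) = pw (τ n) k (m + 1) := by
    refine pw_congr fun i hi hi' => ?_
    exact (hn i (Finset.mem_Ico.2 ⟨hi, hi'⟩)).symm
  rw [h4]
  have h5 : ∃ i j : ℕ, k = -(n : ℤ) + i ∧ 2 * n + 1 = i + (m + 1) + j ∧ 2 * n = i + m + j := by
    refine ⟨(k + n).toNat, (n - k - m).toNat, ?_, ?_, ?_⟩ <;> omega
  obtain ⟨i, j, h6, h7, h8⟩ := h5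
  have h9 := hτg n
  rw [h7, h8] at h9
  rw [h6]
  exact sub_geod h1 (hτ n) h9

/-- two-sided recursion -/
theorem exists_rec {H : Type} [Group H] (σ : ℤ → H) (h₀ : H) :
    ∃ q : ℤ → H, q 0 = h₀ ∧ ∀ k, q (k + 1) = σ k * q k := by
  let qp : ℕ → H := fun n => Nat.rec h₀ (fun n x => σ n * x) n
  let qm : ℕ → H := fun n => Nat.rec h₀ (fun n x => (σ (-(n + 1 : ℕ)))⁻¹ * x) n
  have hqp : ∀ n : ℕ, qp (n + 1) = σ n * qp n := fun n => rfl
  have hqm : ∀ n : ℕ, qm (n + 1) = (σ (-(n + 1 : ℕ)))⁻¹ * qm n := fun n => rfl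
  refine ⟨fun k => if 0 ≤ k then qp k.toNat else qm (-k).toNat, rfl, fun k => ?_⟩
  change (if 0 ≤ k + 1 then qp (k + 1).toNat else qm (-(k + 1)).toNat) =
    σ k * (if 0 ≤ k then qp k.toNat else qm (-k).toNat)
  by_cases hk : 0 ≤ k
  · rw [if_pos (by omega), if_pos hk]
    obtain ⟨n, rfl⟩ := Int.eq_ofNat_of_zero_le hk
    exact hqp n
  · rw [if_neg hk]
    obtain ⟨n, hn⟩ := Int.eq_ofNat_of_zero_le (show 0 ≤ -k - 1 by omega)
    have hk' : k = -((n + 1 : ℕ) : ℤ) := by push_cast; omega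
    have h2 : (-k).toNat = n + 1 := by omega
    rw [h2, hqm, ← hk', mul_inv_cancel_left]
    by_cases h0 : k = -1
    · rw [h0]
      have : n = 0 := by omega
      rw [this]
      rfl
    · rw [if_neg (by omega)]
      congr 1
      omega

end pw

/-- Data of a geodesic line. -/
theorem exists_line [Infinite Q] (hfg : Group.FG Q) (htor : ∀ g : Q, ∃ n : ℕ, 0 < n ∧ g ^ n = 1) :
    ∃ (S : Finset Q) (q st : ℤ → Q), (∀ k, st k ∈ S) ∧ (∀ k, q (k + 1) = st k * q k) ∧
      (∀ g : Q, ∃ J : ℕ, ∀ k l : ℤ, g * q k = q l → k ≤ l + J ∧ l ≤ k + J) ∧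
      (∀ k l, q k = q l → k = l) ∧
      ∀ T : Finset Q, ∃ z, ∀ g ∈ T, ∀ k, g⁻¹ * z ≠ q k := by
  obtain ⟨S₀, hS₀⟩ := (Group.fg_def.1 hfg : ∃ S : Finset Q, Subgroup.closure (S : Set Q) = ⊤)
  let S : Finset Q := insert 1 (S₀ ∪ S₀.image fun s => s⁻¹)
  have h1 : 1 ∈ S := Finset.mem_insert_self _ _
  have hi : ∀ s ∈ S, s⁻¹ ∈ S := by
    intro s hs
    simp only [S, Finset.mem_insert, Finset.mem_union, Finset.mem_image] at hs ⊢
    rcases hs with rfl | hs | ⟨t, ht, rfl⟩
    · exact Or.inl inv_one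
    · exact Or.inr (Or.inr ⟨s, hs, rfl⟩)
    · exact Or.inr (Or.inl (by rwa [inv_inv]))
  have hS : Subgroup.closure (S : Set Q) = ⊤ := by
    rw [eq_top_iff, ← hS₀]
    apply Subgroup.closure_mono
    intro s hs
    exact Finset.mem_insert_of_mem (Finset.mem_union_left _ hs)
  obtain ⟨σ, hσ, hgeo⟩ := exists_geod h1 hi hS
  obtain ⟨q, hq0, hq⟩ := exists_rec σ 1
  have hpw : ∀ (k : ℤ) (m : ℕ), q (k + m) = pw σ k m * q k := by
    intro k m
    induction m with
    | zero =>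
      rw [pw, one_mul]
      congr 1
      exact add_zero k
    | succ m ih =>
      rw [pw, mul_assoc, ← ih, ← hq]
      congr 1
      push_cast
      ring
  have hfar : ∀ (k : ℤ) (m : ℕ), q (k + (m + 1 : ℕ)) * (q k)⁻¹ ∉ Bl S m := by
    intro k m
    rw [hpw, mul_inv_cancel_right]
    exact hgeo k m
  have hnear : ∀ (k : ℤ) (m : ℕ), q (k + m) * (q k)⁻¹ ∈ Bl S m := by
    intro k m
    rw [hpw, mul_inv_cancel_right]
    exact pw_mem hσ k m
  have hshift : ∀ (g : Q) (J : ℕ), g ∈ Bl S J → ∀ k l : ℤ, g * q k = q l → k ≤ l + J ∧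
      l ≤ k + J := by
    intro g J hg k l hkl
    have e1 : g = q l * (q k)⁻¹ := by rw [← hkl, mul_inv_cancel_right]
    constructor
    · by_contra hcon
      obtain ⟨m, hm⟩ := Int.eq_ofNat_of_zero_le (show 0 ≤ k - l - 1 by omega)
      have e2 : k = l + (m + 1 : ℕ) := by push_cast; omega
      have h3 := hfar l m
      rw [← e2] at h3
      apply h3
      have e3 : q k * (q l)⁻¹ = g⁻¹ := by rw [e1, mul_inv_rev, inv_inv]
      rw [e3]
      exact Bl_mono h1 (by omega) (Bl_inv hi hg)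
    · by_contra hcon
      obtain ⟨m, hm⟩ := Int.eq_ofNat_of_zero_le (show 0 ≤ l - k - 1 by omega)
      have e2 : l = k + (m + 1 : ℕ) := by push_cast; omega
      have h3 := hfar k m
      rw [← e2, ← e1] at h3
      exact h3 (Bl_mono h1 (by omega) hg)
  refine ⟨S, q, σ, hσ, hq, fun g => ?_, fun k l hkl => ?_, fun T => ?_⟩
  · obtain ⟨J, hJ⟩ := exists_Bl h1 hi hS g
    exact ⟨J, hshift g J hJ⟩
  · have h3 := hshift 1 0 rfl k l (by rw [one_mul, hkl])
    push_cast at h3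
    omega
  · by_contra hcon
    push Not at hcon
    -- all elements are close to the line
    obtain ⟨r, hr⟩ : ∃ r : ℕ, ∀ g ∈ T, g ∈ Bl S r := by
      clear hcon
      induction T using Finset.induction_on with
      | empty => exact ⟨0, fun g hg => absurd hg (Finset.notMem_empty g)⟩
      | insert g T _ ih =>
        obtain ⟨r, hr⟩ := ih
        obtain ⟨r', hr'⟩ := exists_Bl h1 hi hS g
        refine ⟨r + r', fun g' hg' => ?_⟩
        rcases Finset.mem_insert.1 hg' with h | h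
        · rw [h]
          exact Bl_mono h1 (by omega) hr'
        · exact Bl_mono h1 (by omega) (hr g' h)
    have hclose : ∀ z : Q, ∃ k : ℤ, ∃ b ∈ Bl S r, z = b * q k := by
      intro z
      obtain ⟨g, hg, k, hk⟩ := hcon z
      exact ⟨k, g, hr g hg, by rw [← hk, mul_inv_cancel_left]⟩
    let ρ : ℕ := 3 * r + 1
    let E : Bool → Set Q := fun ε => {z | z ∉ Bl S ρ ∧ ∃ k : ℤ, (if ε then 0 ≤ k else k ≤ 0) ∧
      ∃ b ∈ Bl S r, z = b * q k}
    have hcover : ∀ z, z ∉ Bl S ρ → ∃ ε, z ∈ E ε := by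
      intro z hz
      obtain ⟨k, b, hb, hzb⟩ := hclose z
      by_cases hk : 0 ≤ k
      · exact ⟨true, hz, k, hk, b, hb, hzb⟩
      · exact ⟨false, hz, k, by simpa using (by omega : k ≤ 0), b, hb, hzb⟩
    have hnoedge0 : ∀ z ∈ E true, ∀ s ∈ S, s * z ∉ E false := by
      rintro z ⟨hz, k, hk, b, hb, hzb⟩ s hs ⟨hz', l, hl, b', hb', hzb'⟩
      have hk : 0 ≤ k := hk
      have hl : l ≤ 0 := by simpa using hl
      have h3 : (b'⁻¹ * (s * b)) * q k = q l := by
        rw [hzb] at hzb'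
        rw [mul_assoc, mul_assoc, hzb', inv_mul_cancel_left]
      have h4 : b'⁻¹ * (s * b) ∈ Bl S (r + (1 + r)) :=
        Bl_mul (Bl_inv hi hb') (Bl_mul (Bl_one hs) hb)
      obtain ⟨h5, h6⟩ := hshift _ _ h4 k l h3
      apply hz
      obtain ⟨n, hn⟩ := Int.eq_ofNat_of_zero_le hk
      have h7 : q k ∈ Bl S n := by
        have h8 := hnear 0 n
        rw [hq0, inv_one, mul_one, zero_add] at h8
        rw [hn]
        exact h8
      rw [hzb]
      exact Bl_mono h1 (by push_cast at h5; omega) (Bl_mul hb h7)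
    have hnoedge : ∀ ε, ∀ z ∈ E ε, ∀ s ∈ S, s * z ∉ E (!ε) := by
      intro ε z hz s hs
      cases ε with
      | true => exact hnoedge0 z hz s hs
      | false =>
        intro h3
        have h3 : s * z ∈ E true := h3
        have h4 := hnoedge0 _ h3 s⁻¹ (hi s hs)
        rw [inv_mul_cancel_left] at h4
        exact h4 hz
    have hdisj : ∀ ε, ∀ z ∈ E ε, z ∉ E (!ε) := by
      intro ε z hz
      have h3 := hnoedge ε z hz 1 h1
      rwa [one_mul] at h3
    have hstay : ∀ ε, ∀ z ∈ E ε, ∀ s ∈ S, s * z ∉ Bl S ρ → s * z ∈ E ε := by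
      intro ε z hz s hs hsz
      obtain ⟨ε', hε'⟩ := hcover _ hsz
      by_cases h3 : ε' = ε
      · rw [← h3]
        exact hε'
      · exfalso
        have h4 : ε' = !ε := by
          cases ε <;> cases ε' <;> simp_all
        rw [h4] at hε'
        exact hnoedge ε z hz s hs hε'
    have hball : ∀ (g : Q) (η : Bool), g ∉ Bl S (ρ + ρ) → g ∈ E η → ∀ n ≤ ρ, ∀ b ∈ Bl S n,
        b * g ∈ E η := by
      intro g η hg hgη n
      induction n with
      | zero =>
        intro _ b hb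
        have hb : b = 1 := hb
        rw [hb, one_mul]
        exact hgη
      | succ n ih =>
        rintro hn b hb
        have hbg : b * g ∉ Bl S ρ := by
          intro h3
          apply hg
          have h4 := Bl_mul (Bl_inv hi (Bl_mono h1 hn hb)) h3
          rwa [inv_mul_cancel_left] at h4
        obtain ⟨s, hs, b', hb', rfl⟩ := hb
        rw [mul_assoc] at hbg ⊢
        exact hstay η _ (ih (by omega) b' hb') s hs hbg
    have hmain : ∀ (g : Q) (η : Bool), g ∉ Bl S (ρ + ρ) → g ∈ E η →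
        ∃ ε, ∀ z ∈ E ε, z * g ∈ E η := by
      intro g η hg hgη
      have hg' : g⁻¹ ∉ Bl S (ρ + ρ) := fun h3 => hg (by
        have := Bl_inv hi h3
        rwa [inv_inv] at this)
      obtain ⟨ε', hε'⟩ := hcover g⁻¹ fun h3 => hg' (Bl_mono h1 (by omega) h3)
      have hb2 := hball g⁻¹ ε' hg' hε' ρ le_rfl
      have hb1 := hball g η hg hgη ρ le_rfl
      refine ⟨!ε', ?_⟩
      have hind : ∀ (n : ℕ) (z : Q), (z ∈ E (!ε') ∨ z ∈ Bl S ρ) → z⁻¹ ∈ Bl S n →
          z * g ∈ E η := by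
        intro n
        induction n with
        | zero =>
          intro z _ hz
          have hz : z⁻¹ = 1 := hz
          rw [inv_eq_one] at hz
          rw [hz, one_mul]
          exact hgη
        | succ n ih =>
          intro z hz hzn
          rcases hz with hz | hz
          · obtain ⟨b, hb, s, hs, hbs⟩ := Bl_right hzn
            have h3 : (s * z)⁻¹ = b := by rw [mul_inv_rev, hbs, mul_inv_cancel_right]
            have h4 : s * z ∈ E (!ε') ∨ s * z ∈ Bl S ρ := by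
              by_cases h5 : s * z ∈ Bl S ρ
              · exact Or.inr h5
              · exact Or.inl (hstay _ z hz s hs h5)
            have h5 := ih (s * z) h4 (by rw [h3]; exact hb)
            have h6 : z * g ∉ Bl S ρ := by
              intro h7
              have h8 := hb2 _ h7
              rw [mul_inv_cancel_right] at h8
              exact hdisj _ z h8 hz
            have h7 : s⁻¹ * (s * z * g) = z * g := by group
            have h8 := hstay η _ h5 s⁻¹ (hi s hs) (by rw [h7]; exact h6)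
            rwa [h7] at h8
          · exact hb1 z hz
      intro z hz
      obtain ⟨n, hn⟩ := exists_Bl h1 hi hS z⁻¹
      exact hind n z (Or.inl hz) hn
    -- an element of infinite order
    have hcontra : ∀ (g : Q) (η : Bool), g ∈ E η → (∀ z ∈ E η, z * g ∈ E η) → False := by
      intro g η hg hz
      have h3 : ∀ n : ℕ, g ^ (n + 1) ∈ E η := by
        intro n
        induction n with
        | zero => rw [zero_add, pow_one]; exact hg
        | succ n ih =>
          rw [pow_succ]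
          exact hz _ ih
      obtain ⟨n, hn, hgn⟩ := htor g
      have h4 := h3 (n - 1)
      have h5 : n - 1 + 1 = n := by omega
      rw [h5, hgn] at h4
      exact h4.1 (Bl_mono h1 (Nat.zero_le _) (one_mem_Bl S))
    have hgp : q ((ρ + ρ + 1 : ℕ) : ℤ) ∉ Bl S (ρ + ρ) := by
      have h3 := hfar 0 (ρ + ρ)
      rw [hq0, inv_one, mul_one, zero_add] at h3
      exact h3
    have hgm : q (-((ρ + ρ + 1 : ℕ) : ℤ)) ∉ Bl S (ρ + ρ) := by
      have h3 := hfar (-((ρ + ρ + 1 : ℕ) : ℤ)) (ρ + ρ)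
      rw [neg_add_cancel, hq0, one_mul] at h3
      intro h4
      exact h3 (Bl_inv hi h4)
    have hgp' : q ((ρ + ρ + 1 : ℕ) : ℤ) ∈ E true :=
      ⟨fun h3 => hgp (Bl_mono h1 (by omega) h3), _, by simp; omega, 1,
        Bl_mono h1 (Nat.zero_le _) (one_mem_Bl S), (one_mul _).symm⟩
    have hgm' : q (-((ρ + ρ + 1 : ℕ) : ℤ)) ∈ E false :=
      ⟨fun h3 => hgm (Bl_mono h1 (by omega) h3), _, by simp; omega, 1,
        Bl_mono h1 (Nat.zero_le _) (one_mem_Bl S), (one_mul _).symm⟩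
    obtain ⟨ε₁, h3⟩ := hmain _ _ hgp hgp'
    obtain ⟨ε₂, h4⟩ := hmain _ _ hgm hgm'
    cases ε₁ with
    | true => exact hcontra _ _ hgp' h3
    | false =>
      cases ε₂ with
      | false => exact hcontra _ _ hgm' h4
      | true =>
        refine hcontra (q ((ρ + ρ + 1 : ℕ) : ℤ) * q (-((ρ + ρ + 1 : ℕ) : ℤ))) false
          (h4 _ hgp') fun z hz => ?_
        rw [← mul_assoc]
        exact h4 _ (h3 _ hz)

end Pool.Agent.J4H59.PD
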