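import Mathlib

/-!
# Torsion-free groups with an infinite cyclic subgroup of finite index
-/

set_option autoImplicit false

open scoped Classical

namespace Pool.Agent.J4H59.PD

variable {U : Type} [Group U]

/-- a torsion-free group with a cyclic subgroup of finite index generated by a nontrivial element
is infinite cyclic -/
theorem int_of_index_ne_zero (htf : ∀ (x : U) (k : ℕ), k ≠ 0 → x ^ k = 1 → x = 1) {a : U}
    (ha : a ≠ 1) (hi : (Subgroup.zpowers a).index ≠ 0) : Nonempty (U ≃* Multiplicative ℤ) := by
  have htf' : ∀ (x : U) (k : ℤ), k ≠ 0 → x ^ k = 1 → x = 1 := by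
    intro x k hk hx
    rcases Int.natAbs_eq k with h | h
    · rw [h, zpow_natCast] at hx
      exact htf x _ (by omega) hx
    · rw [h, zpow_neg, zpow_natCast, inv_eq_one] at hx
      exact htf x _ (by omega) hx
  have hfi : (Subgroup.zpowers a).FiniteIndex := ⟨hi⟩
  have hainj : ∀ i j : ℤ, a ^ i = a ^ j → i = j := by
    intro i j hij
    by_contra hne
    apply ha
    refine htf' a (i - j) (sub_ne_zero.2 hne) ?_
    rw [zpow_sub, hij, mul_inv_cancel]
  -- the normal core is central
  have hcent : (Subgroup.zpowers a).normalCore ≤ Subgroup.center U := by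
    intro c hc
    rw [Subgroup.mem_center_iff]
    intro x
    have hcn : x * c * x⁻¹ ∈ (Subgroup.zpowers a).normalCore :=
      (Subgroup.normalCore_normal _).conj_mem c hc x
    obtain ⟨i, hi'⟩ := Subgroup.normalCore_le _ hc
    obtain ⟨j, hj'⟩ := Subgroup.normalCore_le _ hcn
    have hi' : a ^ i = c := hi'
    have hj' : a ^ j = x * c * x⁻¹ := hj'
    have hk : x ^ (Subgroup.zpowers a).normalCore.index ∈ (Subgroup.zpowers a).normalCore :=
      Subgroup.pow_index_mem _ x
    obtain ⟨l, hl⟩ := Subgroup.normalCore_le _ hk
    have hl : a ^ l = x ^ (Subgroup.zpowers a).normalCore.index := hl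
    by_cases hl0 : l = 0
    · rw [hl0, zpow_zero] at hl
      have hx : x = 1 := htf x _ Subgroup.FiniteIndex.index_ne_zero hl.symm
      rw [hx, mul_one, one_mul]
    · have h1 : x * a ^ l * x⁻¹ = a ^ l := by
        rw [hl, mul_inv_eq_iff_eq_mul]
        exact (Commute.self_pow x _).eq
      have h2 : (x * c * x⁻¹) ^ l = c ^ l := by
        rw [conj_zpow, ← hi', ← zpow_mul, mul_comm i l, zpow_mul, ← conj_zpow, h1]
      rw [← hj', ← hi', ← zpow_mul, ← zpow_mul] at h2
      have h3 := hainj _ _ h2
      have h4 : j = i := mul_right_cancel₀ hl0 h3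
      rw [h4, hi'] at hj'
      exact (eq_mul_inv_iff_mul_eq.1 hj').symm
  have hci : (Subgroup.center U).FiniteIndex := Subgroup.finiteIndex_of_le hcent
  -- the group is commutative
  have hcomm : ∀ x y : U, x * y = y * x := by
    intro x y
    have hf : ∀ z : U, MonoidHom.transferCenterPow U z = 1 → z = 1 := by
      intro z hz
      refine htf z _ hci.index_ne_zero ?_
      rw [← MonoidHom.transferCenterPow_apply, hz]
      rfl
    have hinj := (injective_iff_map_eq_one (MonoidHom.transferCenterPow U)).2 hf
    apply hinj
    rw [map_mul, map_mul]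
    exact Subtype.ext ((Subgroup.mem_center_iff.1 (MonoidHom.transferCenterPow U y).2) _)
  let f : U →* Subgroup.zpowers a :=
    { toFun := fun x => ⟨x ^ (Subgroup.zpowers a).index, by
        have hnorm : (Subgroup.zpowers a).Normal := ⟨fun n hn g => by
          rw [hcomm g n, mul_inv_cancel_right]
          exact hn⟩
        exact Subgroup.pow_index_mem _ x⟩
      map_one' := Subtype.ext (one_pow _)
      map_mul' := fun x y => Subtype.ext (Commute.mul_pow (show Commute x y from hcomm x y) _) }
  have hf : Function.Injective f := by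
    rw [injective_iff_map_eq_one]
    intro z hz
    refine htf z _ hi ?_
    exact congrArg Subtype.val hz
  have hcyc : IsCyclic U := isCyclic_of_injective f hf
  have hinf : Infinite U := by
    refine Infinite.of_injective (fun i : ℤ => a ^ i) ?_
    intro i j hij
    exact hainj i j hij
  exact ⟨intCyclicMulEquiv.symm⟩

end Pool.Agent.J4H59.PD
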