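import Pool.Agent.J4H59.PD.Main1

/-!
# Functions supported over finitely many translates of a set

`A ≤ U` are subgroups of `G`, and `R` is a set of cosets of `U`.
-/

set_option autoImplicit false
set_option linter.unusedSectionVars false

open scoped Classical

namespace Pool.Agent.J4H59.PD

open Pool.Agent.Helper386.PD3

noncomputable section

variable {G : Type} [Group G] {A U : Subgroup G}

/-- the projection from the cosets of `A` to the cosets of `U` -/
def pu (U : Subgroup G) (y : G ⧸ A) : G ⧸ U := ((rp y : G) : G ⧸ U)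

theorem pu_mk (hA : A ≤ U) (g : G) : pu U (g : G ⧸ A) = (g : G ⧸ U) := by
  have h1 : ((rp (g : G ⧸ A) : G) : G ⧸ A) = (g : G ⧸ A) := mk_rp _
  rw [QuotientGroup.eq] at h1
  exact QuotientGroup.eq.2 (hA h1)

theorem pu_smul (hA : A ≤ U) (g : G) (y : G ⧸ A) : pu U (g • y) = g • pu U y := by
  induction y using QuotientGroup.induction_on with
  | H a =>
    have h1 : g • (a : G ⧸ A) = ((g * a : G) : G ⧸ A) := rfl
    rw [h1, pu_mk hA, pu_mk hA]
    rfl

/-- finite over each coset of `U`, and supported over finitely many translates of `R` -/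
def LR (hA : A ≤ U) (R : Set (G ⧸ U)) : Fam A where
  mem s := (∀ c : G ⧸ U, {y | y ∈ s ∧ pu U y = c}.Finite) ∧
    ∃ T : Finset G, ∀ y ∈ s, ∃ g ∈ T, g⁻¹ • pu U y ∈ R
  empty := ⟨fun c => by simp, ∅, fun y hy => absurd hy (Set.notMem_empty y)⟩
  mono := by
    rintro s t hst ⟨h1, T, hT⟩
    exact ⟨fun c => (h1 c).subset fun y hy => ⟨hst hy.1, hy.2⟩, T, fun y hy => hT y (hst hy)⟩
  union := by
    rintro s t ⟨h1, T, hT⟩ ⟨h1', T', hT'⟩
    refine ⟨fun c => ((h1 c).union (h1' c)).subset ?_, T ∪ T', ?_⟩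
    · rintro y ⟨hy | hy, hc⟩
      · exact Or.inl ⟨hy, hc⟩
      · exact Or.inr ⟨hy, hc⟩
    · rintro y (hy | hy)
      · obtain ⟨g, hg, h⟩ := hT y hy
        exact ⟨g, Finset.mem_union_left _ hg, h⟩
      · obtain ⟨g, hg, h⟩ := hT' y hy
        exact ⟨g, Finset.mem_union_right _ hg, h⟩
  smul := by
    rintro g s ⟨h1, T, hT⟩
    refine ⟨fun c => ((h1 (g • c)).image fun y => g⁻¹ • y).subset ?_,
      T.image (fun g' => g⁻¹ * g'), ?_⟩
    · rintro y ⟨hy, hc⟩
      exact ⟨g • y, ⟨hy, by rw [pu_smul hA, hc]⟩, inv_smul_smul _ _⟩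
    · intro y hy
      obtain ⟨g', hg', h⟩ := hT _ hy
      refine ⟨g⁻¹ * g', Finset.mem_image_of_mem _ hg', ?_⟩
      rw [pu_smul hA] at h
      rw [mul_inv_rev, inv_inv, mul_smul]
      exact h

theorem LR_mono (hA : A ≤ U) {R R' : Set (G ⧸ U)} (h : R ⊆ R') :
    (LR hA R).sub ≤ (LR hA R').sub := by
  rintro f ⟨h1, T, hT⟩
  refine ⟨h1, T, fun y hy => ?_⟩
  obtain ⟨g, hg, h'⟩ := hT y hy
  exact ⟨g, hg, h h'⟩

theorem LR_sup (hA : A ≤ U) (R R' : Set (G ⧸ U)) :
    (LR hA R).sub ⊔ (LR hA R').sub = (LR hA (R ∪ R')).sub := by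
  apply le_antisymm
  · exact sup_le (LR_mono hA Set.subset_union_left) (LR_mono hA Set.subset_union_right)
  · intro f hf
    obtain ⟨h1, T, hT⟩ := hf
    rw [Submodule.mem_sup]
    let K : Set (G ⧸ A) := {y | ∃ g ∈ T, g⁻¹ • pu U y ∈ R}
    refine ⟨cut K f, ⟨fun c => (h1 c).subset fun y hy => ⟨supp_cut _ _ hy.1, hy.2⟩, T, ?_⟩,
      cut Kᶜ f, ⟨fun c => (h1 c).subset fun y hy => ⟨supp_cut _ _ hy.1, hy.2⟩, T, ?_⟩, ?_⟩
    · intro y hy
      by_contra hcon
      exact hy (cut_of_notMem f hcon)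
    · intro y hy
      obtain ⟨g, hg, h⟩ := hT y (supp_cut _ _ hy)
      refine ⟨g, hg, ?_⟩
      rcases h with h | h
      · exfalso
        apply hy
        apply cut_of_notMem f
        intro hy'
        exact hy' ⟨g, hg, h⟩
      · exact h
    · refine fn_ext fun y => ?_
      rw [add_apply]
      by_cases h : y ∈ K
      · rw [cut_of_mem f h, cut_of_notMem f (s := Kᶜ) (fun h' => h' h), add_zero]
      · rw [cut_of_notMem f h, cut_of_mem f (s := Kᶜ) h, zero_add]

theorem LR_inf (hA : A ≤ U) {R R' : Set (G ⧸ U)} (hR : R.Nonempty) (hR' : R'.Nonempty)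
    (h : ∀ g : G, {c | c ∈ R ∧ g • c ∈ R'}.Finite) :
    (LR hA R).sub ⊓ (LR hA R').sub = (famF A).sub := by
  refine Submodule.ext fun f => ?_
  rw [Submodule.mem_inf]
  constructor
  · rintro ⟨⟨h1, T, hT⟩, ⟨-, T', hT'⟩⟩
    change (supp f).Finite
    have h2 : (⋃ g ∈ T, ⋃ g' ∈ T', (fun c : G ⧸ U => g • c) ''
        {c | c ∈ R ∧ (g'⁻¹ * g) • c ∈ R'}).Finite :=
      Set.Finite.biUnion (Finset.finite_toSet T) fun g _ =>
        Set.Finite.biUnion (Finset.finite_toSet T') fun g' _ => (h _).image _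
    refine (h2.biUnion (t := fun c => {y | y ∈ supp f ∧ pu U y = c}) fun c _ => h1 c).subset ?_
    intro y hy
    obtain ⟨g, hg, hg1⟩ := hT y hy
    obtain ⟨g', hg', hg1'⟩ := hT' y hy
    refine Set.mem_iUnion₂.2 ⟨pu U y, Set.mem_iUnion₂.2 ⟨g, hg, Set.mem_iUnion₂.2
      ⟨g', hg', g⁻¹ • pu U y, ⟨hg1, ?_⟩, smul_inv_smul _ _⟩⟩, hy, rfl⟩
    rw [mul_smul, smul_inv_smul]
    exact hg1'
  · intro hf
    have hf : (supp f).Finite := hf
    have key : ∀ Q : Set (G ⧸ U), Q.Nonempty → f ∈ (LR hA Q).sub := by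
      rintro Q ⟨c, hc⟩
      have h1 : ∀ y : G ⧸ A, ∃ g : G, g⁻¹ • pu U y ∈ Q := by
        intro y
        obtain ⟨g, hg⟩ := MulAction.exists_smul_eq G (pu U y) c
        refine ⟨g⁻¹, ?_⟩
        rw [inv_inv, hg]
        exact hc
      choose g hg using h1
      refine ⟨fun c => hf.subset fun y hy => hy.1, hf.toFinset.image g, fun y hy => ?_⟩
      exact ⟨g y, Finset.mem_image_of_mem _ (hf.mem_toFinset.2 hy), hg y⟩
    exact ⟨key R hR, key R' hR'⟩

/-- Every derivation with values in the functions supported over finitely many translates of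
`R` is inner, if `U` is finitely generated and commensurated, and `R` is a set of cosets contained
in the normaliser of `U`, no finitely many translates of which cover all such cosets. -/
theorem allDer_LR (hA : A ≤ U) {d : ℕ} (x : Fin d → G)
    (hx : Subgroup.closure (Set.range x) = U) (hcomm : ∀ g, (cj g U).relIndex U ≠ 0)
    (hA0 : A.relIndex U = 0) (R : Set (G ⧸ U))
    (hR : ∀ c ∈ R, ∃ h ∈ Subgroup.normalizer (U : Set G), c = (h : G ⧸ U))
    (hC : ∀ T : Finset G, ∃ z ∈ Subgroup.normalizer (U : Set G), ∀ g ∈ T,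
      g⁻¹ • (z : G ⧸ U) ∉ R) :
    AllDer (G := G) (LR hA R).sub := by
  intro δ hδ
  have hstab : ∀ g : G, (MulAction.stabilizer G (g : G ⧸ U)).relIndex U ≠ 0 := by
    intro g
    have h1 : cj g⁻¹ U ≤ MulAction.stabilizer G (g : G ⧸ U) := by
      intro x hx
      rw [mem_cj, inv_inv] at hx
      rw [MulAction.mem_stabilizer_iff]
      change ((x * g : G) : G ⧸ U) = (g : G ⧸ U)
      rw [eq_comm, QuotientGroup.eq, ← mul_assoc]
      exact hx
    exact mt (Subgroup.relIndex_eq_zero_of_le_left h1) (hcomm _)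
  -- right multiplication by the normaliser
  have hright : ∀ (g h : G), h ∈ Subgroup.normalizer (U : Set G) → ∀ n : G, ∀ g' : G,
      n • (g : G ⧸ U) = (g' : G ⧸ U) → n • ((g * h : G) : G ⧸ U) = ((g' * h : G) : G ⧸ U) := by
    intro g h hh n g' hn
    have hn : ((n * g : G) : G ⧸ U) = (g' : G ⧸ U) := hn
    change ((n * (g * h) : G) : G ⧸ U) = _
    rw [QuotientGroup.eq] at hn ⊢
    have h1 := (Subgroup.mem_normalizer_iff.1 (Subgroup.inv_mem _ hh) _).1 hn
    have h2 : h⁻¹ * ((n * g)⁻¹ * g') * h⁻¹⁻¹ = (n * (g * h))⁻¹ * (g' * h) := by group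
    rw [h2] at h1
    exact h1
  -- the translates which contain the supports of the generators
  choose T hT using fun i => (δ (x i)).2.2
  let T0 : Finset G := Finset.univ.biUnion T
  have hT1 : {c' : G ⧸ U | ∃ g ∈ T0, ∃ n ∈ U, c' = n • (g : G ⧸ U)}.Finite := by
    refine ((Finset.finite_toSet T0).biUnion (t := fun g => {c' | ∃ n ∈ U, c' = n • (g : G ⧸ U)})
      fun g _ => finite_orbit (hstab g)).subset ?_
    rintro c' ⟨g, hg, n, hn, h⟩
    exact Set.mem_iUnion₂.2 ⟨g, hg, n, hn, h⟩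
  let T1 : Finset G := hT1.toFinset.image rp
  let S : Set (G ⧸ U) := {c | ∃ g ∈ T0, ∃ n ∈ U, g⁻¹ • n⁻¹ • c ∈ R}
  have hST : ∀ c ∈ S, ∃ g ∈ T1, ∃ h ∈ Subgroup.normalizer (U : Set G),
      (h : G ⧸ U) ∈ R ∧ c = ((g * h : G) : G ⧸ U) := by
    rintro c ⟨g, hg, n, hn, hc⟩
    obtain ⟨h, hh, hc'⟩ := hR _ hc
    let c1 : G ⧸ U := n • (g : G ⧸ U)
    have hc1 : c1 ∈ hT1.toFinset := hT1.mem_toFinset.2 ⟨g, hg, n, hn, rfl⟩
    refine ⟨rp c1, Finset.mem_image_of_mem _ hc1, h, hh, by rw [← hc']; exact hc, ?_⟩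
    have h1 : n • (g : G ⧸ U) = ((rp c1 : G) : G ⧸ U) := (mk_rp c1).symm
    rw [← hright g h hh n (rp c1) h1]
    have h2 : ((g * h : G) : G ⧸ U) = g • (h : G ⧸ U) := rfl
    rw [h2, ← hc', smul_inv_smul, smul_inv_smul]
  have hSN : ∀ n ∈ U, ∀ c, c ∉ S → n • c ∉ S := by
    rintro n hn c hc ⟨g, hg, n', hn', h⟩
    apply hc
    refine ⟨g, hg, n⁻¹ * n', U.mul_mem (U.inv_mem hn) hn', ?_⟩
    rw [mul_inv_rev, inv_inv, mul_smul]
    exact h
  have hout : ∀ n ∈ U, ∀ y : G ⧸ A, pu U y ∉ S → (δ n : Fn A) y = 0 := by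
    intro n hn
    rw [← hx] at hn
    induction hn using Subgroup.closure_induction with
    | mem n hn =>
      obtain ⟨i, rfl⟩ := hn
      intro y hy
      by_contra hcon
      obtain ⟨g, hg, h⟩ := hT i y hcon
      refine hy ⟨g, Finset.mem_biUnion.2 ⟨i, Finset.mem_univ i, hg⟩, 1, U.one_mem, ?_⟩
      rw [inv_one, one_smul]
      exact h
    | one =>
      intro y _
      rw [der_one hδ]
      rfl
    | mul n n' hn hn' h h' =>
      intro y hy
      rw [hδ, Submodule.coe_add, Submodule.coe_smul, add_apply, gof_apply, h y hy, zero_add]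
      apply h'
      rw [pu_smul hA]
      exact hSN _ (U.inv_mem (hx ▸ hn)) _ hy
    | inv n hn h =>
      intro y hy
      rw [der_inv hδ, Submodule.coe_neg, Submodule.coe_smul, neg_apply, gof_apply, h, neg_zero]
      rw [pu_smul hA, inv_inv]
      exact hSN _ (hx ▸ hn) _ hy
  -- a coset which is not bad
  obtain ⟨z, hz, hzT⟩ := hC T1
  have hzS : (z : G ⧸ U) ∉ S := by
    intro h
    obtain ⟨g, hg, h, hh, hhR, hzh⟩ := hST _ h
    refine hzT g hg ?_
    rw [hzh]
    change ((g⁻¹ * (g * h) : G) : G ⧸ U) ∈ R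
    rw [inv_mul_cancel_left]
    exact hhR
  -- the subgroup of finite index
  let W : Subgroup G := U ⊓ ⨅ g : (T1 : Set G), MulAction.stabilizer G ((g : G) : G ⧸ U)
  have hWi : W.relIndex U ≠ 0 := by
    have : Finite (T1 : Set G) := Finset.finite_toSet T1
    refine Subgroup.relIndex_inf_ne_zero ?_ (Subgroup.relIndex_iInf_ne_zero fun g => hstab _)
    rw [Subgroup.relIndex_self]
    exact one_ne_zero
  have hWN : ∀ n ∈ W, n ∈ U := fun n hn => hn.1
  have hWT : ∀ n ∈ W, ∀ g ∈ T1, g⁻¹ * n * g ∈ U := by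
    intro n hn g hg
    have h1 : n ∈ MulAction.stabilizer G (g : G ⧸ U) := (Subgroup.mem_iInf.1 hn.2) ⟨g, hg⟩
    rw [MulAction.mem_stabilizer_iff] at h1
    have h1 : ((n * g : G) : G ⧸ U) = (g : G ⧸ U) := h1
    rw [eq_comm, QuotientGroup.eq, ← mul_assoc] at h1
    exact h1
  have hq : ∀ c ∈ S, ∃ q : G, q⁻¹ • c ∉ S ∧ ∀ n ∈ W, q⁻¹ * n * q ∈ U ∧ n • c = c := by
    intro c hc
    obtain ⟨g, hg, h, hh, hhR, hch⟩ := hST c hc
    refine ⟨g * h * z⁻¹, ?_, fun n hn => ⟨?_, ?_⟩⟩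
    · rw [hch]
      change (((g * h * z⁻¹)⁻¹ * (g * h) : G) : G ⧸ U) ∉ S
      have h1 : (g * h * z⁻¹)⁻¹ * (g * h) = z := by group
      rw [h1]
      exact hzS
    · have h1 := hWT n hn g hg
      have h2 := (Subgroup.mem_normalizer_iff.1 (Subgroup.mul_mem _ hz (Subgroup.inv_mem _ hh)) _).1
        h1
      have h3 : z * h⁻¹ * (g⁻¹ * n * g) * (z * h⁻¹)⁻¹ =
        (g * h * z⁻¹)⁻¹ * n * (g * h * z⁻¹) := by group
      rw [h3] at h2
      exact h2
    · have h1 := hWT n hn g hg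
      rw [hch]
      refine hright g h hh n g ?_
      change ((n * g : G) : G ⧸ U) = (g : G ⧸ U)
      rw [eq_comm, QuotientGroup.eq, ← mul_assoc]
      exact h1
  let q : G ⧸ U → G := fun c => if h : c ∈ S then (hq c h).choose else 1
  have hq1 : ∀ c ∈ S, (q c)⁻¹ • c ∉ S := by
    intro c hc
    have h1 : q c = (hq c hc).choose := dif_pos hc
    rw [h1]
    exact (hq c hc).choose_spec.1
  have hq2 : ∀ c ∈ S, ∀ n ∈ W, (q c)⁻¹ * n * q c ∈ U ∧ n • c = c := by
    intro c hc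
    have h1 : q c = (hq c hc).choose := dif_pos hc
    rw [h1]
    exact (hq c hc).choose_spec.2
  -- the function
  let m : Fn A := fun y => if pu U y ∈ S then -(δ (q (pu U y)) : Fn A) y else 0
  have hm : (LR hA R).mem (supp m) := by
    refine ⟨fun c => ?_, T1, fun y hy => ?_⟩
    · refine ((δ (q c)).2.1 c).subset ?_
      rintro y ⟨hy, hyc⟩
      refine ⟨?_, hyc⟩
      intro h
      apply hy
      change (if pu U y ∈ S then -(δ (q (pu U y)) : Fn A) y else 0) = 0
      rw [hyc, h, neg_zero, ite_self]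
    · have hyS : pu U y ∈ S := by
        by_contra hcon
        exact hy (if_neg hcon)
      obtain ⟨g, hg, h, hh, hhR, hch⟩ := hST _ hyS
      refine ⟨g, hg, ?_⟩
      rw [hch]
      change ((g⁻¹ * (g * h) : G) : G ⧸ U) ∈ R
      rw [inv_mul_cancel_left]
      exact hhR
  have hmN : ∀ n ∈ W, ∀ y, (δ n : Fn A) y = m (n⁻¹ • y) - m y := by
    intro n hn y
    change _ = (if pu U (n⁻¹ • y) ∈ S then -(δ (q (pu U (n⁻¹ • y))) : Fn A) (n⁻¹ • y) else 0) -
      (if pu U y ∈ S then -(δ (q (pu U y)) : Fn A) y else 0)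
    by_cases hy : pu U y ∈ S
    · have hπ : pu U (n⁻¹ • y) = pu U y := by
        rw [pu_smul hA, (hq2 _ hy _ (W.inv_mem hn)).2]
      rw [hπ, if_pos hy, if_pos hy]
      have hn' := (hq2 _ hy n hn).1
      generalize hqq : q (pu U y) = p at hn'
      have hp : p⁻¹ • pu U y ∉ S := by rw [← hqq]; exact hq1 _ hy
      have e1 : δ (n * p) = δ n + gof n • δ p := hδ _ _
      have e2 : δ (n * p) = δ p + gof p • δ (p⁻¹ * n * p) := by
        rw [← hδ]
        congr 1
        group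
      have e3 : (δ n : Fn A) y + (δ p : Fn A) (n⁻¹ • y) =
          (δ p : Fn A) y + (δ (p⁻¹ * n * p) : Fn A) (p⁻¹ • y) := by
        have e4 := congrArg (fun f : (LR hA R).sub => (f : Fn A) y) (e1.symm.trans e2)
        simp only [Submodule.coe_add, Submodule.coe_smul, add_apply, gof_apply] at e4
        exact e4
      rw [hout _ hn' (p⁻¹ • y) (by rw [pu_smul hA]; exact hp), add_zero] at e3
      linarith
    · have hy' : pu U (n⁻¹ • y) ∉ S := by
        rw [pu_smul hA]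
        exact hSN _ (U.inv_mem (hWN n hn)) _ hy
      rw [if_neg hy, if_neg hy', hout n (hWN n hn) y hy, sub_zero]
  let μ : (LR hA R).sub := ⟨m, hm⟩
  refine ⟨μ, ?_⟩
  -- the difference vanishes on `W`
  let δ' : G → (LR hA R).sub := fun g => δ g - (gof g • μ - μ)
  have hδ' : ∀ g h, δ' (g * h) = δ' g + gof g • δ' h := der_sub hδ μ
  have hδN : ∀ n ∈ W, δ' n = 0 := by
    intro n hn
    apply Subtype.ext
    refine fn_ext fun y => ?_
    change (δ n : Fn A) y - ((gof n • m) y - m y) = 0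
    rw [gof_apply, hmN n hn y]
    ring
  intro g
  rw [← sub_eq_zero]
  change δ' g = 0
  have hinv : ∀ n ∈ W ⊓ cj g⁻¹ W, gof n • δ' g = δ' g := by
    rintro n ⟨hn, hn'⟩
    have hn' : g⁻¹ * n * g ∈ W := by
      have h1 : n ∈ cj g⁻¹ W := hn'
      rw [mem_cj, inv_inv] at h1
      exact h1
    have e1 : δ' (n * g) = δ' n + gof n • δ' g := hδ' _ _
    have e2 : δ' (n * g) = δ' g + gof g • δ' (g⁻¹ * n * g) := by
      rw [← hδ']
      congr 1
      group
    rw [hδN n hn, zero_add] at e1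
    rw [hδN _ hn', smul_zero, add_zero] at e2
    rw [← e1, e2]
  apply Subtype.ext
  refine fn_ext fun y => ?_
  by_contra hcon
  have hcon : (δ' g : Fn A) y ≠ 0 := hcon
  -- infinite orbits
  have horb : {z' : G ⧸ A | ∃ n ∈ W ⊓ cj g⁻¹ W, z' = n • y ∧ pu U z' = pu U y}.Infinite := by
    have hV := Subgroup.relIndex_inf_ne_zero hWi (cj_relIndex hcomm hWi g⁻¹)
    induction y using QuotientGroup.induction_on with
    | H b =>
      intro hfin
      refine infinite_cosets hA0 (cj_relIndex hcomm hV b)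
        ((hfin.image (fun z : G ⧸ A => b⁻¹ • z)).subset ?_)
      rintro _ ⟨u, ⟨hu, huN⟩, rfl⟩
      refine ⟨((b * u : G) : G ⧸ A), ⟨b * u * b⁻¹, hu, ?_, ?_⟩, ?_⟩
      · change _ = ((b * u * b⁻¹ * b : G) : G ⧸ A)
        rw [inv_mul_cancel_right]
      · rw [pu_mk hA, pu_mk hA, eq_comm, QuotientGroup.eq, inv_mul_cancel_left]
        exact huN
      · change ((b⁻¹ * (b * u) : G) : G ⧸ A) = _
        rw [inv_mul_cancel_left]
  refine horb (((δ' g).2.1 (pu U y)).subset ?_)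
  rintro z ⟨n, hn, hz, hzπ⟩
  refine ⟨?_, hzπ⟩
  rw [mem_supp]
  have h1 : (δ' g : Fn A) y = (δ' g : Fn A) (n • y) := by
    have h2 := congrArg (fun f : (LR hA R).sub => (f : Fn A) y) (hinv _ (Subgroup.inv_mem _ hn))
    simp only [Submodule.coe_smul, gof_apply, inv_inv] at h2
    exact h2.symm
  rw [hz, ← h1]
  exact hcon

end

end Pool.Agent.J4H59.PD
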