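import Pool.Agent.J4H59.PD.LineB

/-!
# Derivations with values in the characters of the functions supported near a ray, continued
-/

set_option autoImplicit false
set_option linter.unusedSectionVars false

open scoped Classical

namespace Pool.Agent.J4H59.PD

open Pool.Agent.Helper386.PD3

noncomputable section

variable {G : Type} [Group G] {A U : Subgroup G}

namespace Ray

variable (r : Ray U) (hA : A ≤ U) {w : G →* ℤˣ}

section

variable (δ : G → Du w (LR hA r.R).sub) (hδ : ∀ g h, δ (g * h) = δ g + gof g • δ h)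
  (h1 : ∀ s ∈ r.S, ∀ m ∈ r.FF hA 0,
      (∀ y, ((m : (LR hA r.R).sub) : Fn A) y ≠ 0 → y ∈ r.K A s) → (δ s⁻¹).ev m = 0)
  (h2 : ∀ n ∈ U, ∀ m ∈ r.FF hA 0, (δ n).ev m = 0)

include hδ h1 h2

/-- translations with constant nonnegative shift -/
theorem good_nonneg (j : ℕ) : ∀ (g : G), ∀ m ∈ r.FF hA 0,
    (∀ y, ((m : (LR hA r.R).sub) : Fn A) y ≠ 0 → ∃ k, pu U y = (r.h k : G ⧸ U) ∧
      g • (r.h k : G ⧸ U) = (r.h (k + j) : G ⧸ U)) → (δ g⁻¹).ev m = 0 := by
  induction j with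
  | zero =>
    intro g m hm h
    by_cases hm0 : m = 0
    · rw [hm0, map_zero]
    · have h3 : ∃ y, (m : Fn A) y ≠ 0 := by
        by_contra hcon
        push Not at hcon
        exact hm0 (Subtype.ext (fn_ext hcon))
      obtain ⟨y, hy⟩ := h3
      obtain ⟨k, -, hk⟩ := h y hy
      exact h2 _ (U.inv_mem (r.mem_of_fix hk)) m hm
  | succ j ih =>
    intro g m hm h
    have h3 : ∑ s ∈ r.S, (LR hA r.R).cutS (r.K A s) m = m :=
      Fam.sum_cutS _ r.S (fun y => r.st (r.lev (pu U y))) m fun y _ => r.hst _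
    rw [← h3, map_sum]
    refine Finset.sum_eq_zero fun s hs => ?_
    have h4 : (LR hA r.R).cutS (r.K A s) m ∈ r.FF hA 0 := r.FF_cut hA _ hm
    have h5 : ∀ y, (((LR hA r.R).cutS (r.K A s) m : (LR hA r.R).sub) : Fn A) y ≠ 0 →
        y ∈ r.K A s := fun y hy => (Fam.cutS_ne _ hy).2
    have h6 : δ g⁻¹ = δ s⁻¹ + gof s⁻¹ • δ (g * s⁻¹)⁻¹ := by
      rw [← hδ]
      congr 1
      group
    rw [h6, Du.ev_add, h1 s hs _ h4 h5, zero_add, Du.ev_gof, inv_inv, ih (g * s⁻¹), smul_zero]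
    · exact r.FF_mono hA 0 (r.FF_step hA h4 h5)
    · intro y hy
      rw [Submodule.coe_smul, gof_apply] at hy
      obtain ⟨k, hk, hgk⟩ := h _ (Fam.cutS_ne _ hy).1
      have h7 : r.st (r.lev (pu U (s⁻¹ • y))) = s := h5 _ hy
      rw [hk, r.lev_h] at h7
      refine ⟨k + 1, ?_, ?_⟩
      · rw [← r.step, h7, ← hk, pu_smul hA, smul_inv_smul]
      · rw [← r.step, h7, smul_smul, inv_mul_cancel_right, hgk]
        congr 2
        omega

/-- translations with constant nonpositive shift -/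
theorem good_nonpos (j : ℕ) (g : G) (m : (LR hA r.R).sub) (hgm : gof g • m ∈ r.FF hA 0)
    (h : ∀ y, (m : Fn A) y ≠ 0 → ∃ k, pu U y = (r.h (k + j) : G ⧸ U) ∧
      g • (r.h (k + j) : G ⧸ U) = (r.h k : G ⧸ U)) : (δ g⁻¹).ev m = 0 := by
  have h3 := r.good_nonneg hA δ hδ h1 h2 j g⁻¹ (gof g • m) hgm (by
    intro y hy
    rw [Submodule.coe_smul, gof_apply] at hy
    obtain ⟨k, hk, hgk⟩ := h _ hy
    refine ⟨k, ?_, ?_⟩
    · rw [← hgk, ← hk, pu_smul hA, smul_inv_smul]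
    · rw [← hgk, inv_smul_smul])
  rw [inv_inv] at h3
  have h4 : δ g⁻¹ = -(gof g⁻¹ • δ g) := der_inv hδ g
  rw [h4, Du.ev_neg, Du.ev_gof, inv_inv, h3, smul_zero, neg_zero]

/-- translations between functions over the ray -/
theorem good (g : G) (m : (LR hA r.R).sub) (hm : m ∈ r.FF hA 0)
    (hgm : gof g • m ∈ r.FF hA 0) : (δ g⁻¹).ev m = 0 := by
  obtain ⟨J, hJ⟩ := r.hj g
  let κ : G ⧸ A → ℕ := fun y => r.lev (g • pu U y) + J - r.lev (pu U y)
  have hkl : ∀ y, (m : Fn A) y ≠ 0 → ∃ k l, pu U y = (r.h k : G ⧸ U) ∧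
      g • (r.h k : G ⧸ U) = (r.h l : G ⧸ U) ∧ κ y + k = l + J ∧ k ≤ l + J ∧ l ≤ k + J := by
    intro y hy
    obtain ⟨k, -, hk⟩ := hm y hy
    have h3 : ((gof g • m : (LR hA r.R).sub) : Fn A) (g • y) ≠ 0 := by
      rw [Submodule.coe_smul, gof_apply, inv_smul_smul]
      exact hy
    obtain ⟨l, -, hl⟩ := hgm _ h3
    rw [pu_smul hA, hk] at hl
    obtain ⟨h4, h5⟩ := hJ k l hl
    refine ⟨k, l, hk, hl, ?_, h4, h5⟩
    change r.lev (g • pu U y) + J - r.lev (pu U y) + k = l + J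
    rw [hk, hl, r.lev_h, r.lev_h]
    omega
  have h3 : ∑ i ∈ Finset.range (2 * J + 1), (LR hA r.R).cutS {y | κ y = i} m = m := by
    refine Fam.sum_cutS _ _ κ m fun y hy => ?_
    obtain ⟨k, l, -, -, h4, h5, h6⟩ := hkl y hy
    rw [Finset.mem_range]
    omega
  rw [← h3, map_sum]
  refine Finset.sum_eq_zero fun i _ => ?_
  have h4 : (LR hA r.R).cutS {y | κ y = i} m ∈ r.FF hA 0 := r.FF_cut hA _ hm
  by_cases hi : J ≤ i
  · refine r.good_nonneg hA δ hδ h1 h2 (i - J) g _ h4 fun y hy => ?_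
    obtain ⟨hy1, hy2⟩ := Fam.cutS_ne _ hy
    have hy2 : κ y = i := hy2
    obtain ⟨k, l, hk, hl, h5, h6, h7⟩ := hkl y hy1
    refine ⟨k, hk, ?_⟩
    have h8 : l = k + (i - J) := by omega
    rw [hl, h8]
  · refine r.good_nonpos hA δ hδ h1 h2 (J - i) g _ ?_ fun y hy => ?_
    · intro y hy
      rw [Submodule.coe_smul, gof_apply] at hy
      refine hgm y ?_
      rw [Submodule.coe_smul, gof_apply]
      exact (Fam.cutS_ne _ hy).1
    · obtain ⟨hy1, hy2⟩ := Fam.cutS_ne _ hy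
      have hy2 : κ y = i := hy2
      obtain ⟨k, l, hk, hl, h5, h6, h7⟩ := hkl y hy1
      have h8 : k = l + (J - i) := by omega
      refine ⟨l, ?_, ?_⟩
      · rw [hk, h8]
      · rw [← h8, hl]

/-- the extension to finite sums of translates is well defined -/
theorem well_def (T : Finset G) : ∀ m : G → (LR hA r.R).sub, (∀ g ∈ T, m g ∈ r.FF hA 0) →
    ∑ g ∈ T, gof g • m g = 0 → ∑ g ∈ T, ((w g : ℤˣ) : ℤ) • (δ g⁻¹).ev (m g) = 0 := by
  induction T using Finset.induction_on with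
  | empty => intro m _ _; rfl
  | insert g₀ T hg₀ ih =>
    intro m hm hsum
    rw [Finset.sum_insert hg₀] at hsum
    have hex : ∀ c : G ⧸ U, ∃ g : G, (∃ g' ∈ T, g'⁻¹ • c ∈ r.R) → g ∈ T ∧ g⁻¹ • c ∈ r.R := by
      intro c
      by_cases h : ∃ g' ∈ T, g'⁻¹ • c ∈ r.R
      · obtain ⟨g, hg, hg'⟩ := h
        exact ⟨g, fun _ => ⟨hg, hg'⟩⟩
      · exact ⟨1, fun h' => absurd h' h⟩
    choose γ hγ using hex
    let κ : G ⧸ A → G := fun y => γ (g₀ • pu U y)
    have hκ : ∀ y, (m g₀ : Fn A) y ≠ 0 → κ y ∈ T ∧ (κ y)⁻¹ • g₀ • pu U y ∈ r.R := by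
      intro y hy
      apply hγ
      by_contra hcon
      have h3 : ∀ g ∈ T, ((gof g • m g : (LR hA r.R).sub) : Fn A) (g₀ • y) = 0 := by
        intro g hg
        by_contra h4
        rw [Submodule.coe_smul, gof_apply] at h4
        obtain ⟨l, -, hl⟩ := hm g (Finset.mem_insert_of_mem hg) _ h4
        apply hcon
        refine ⟨g, hg, l, ?_⟩
        rw [← pu_smul hA, ← pu_smul hA]
        exact hl.symm
      have h5 := congrArg (fun f : (LR hA r.R).sub => (f : Fn A) (g₀ • y)) hsum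
      change ((gof g₀ • m g₀ + ∑ g ∈ T, gof g • m g : (LR hA r.R).sub) : Fn A) (g₀ • y) = 0 at h5
      rw [Submodule.coe_add, add_apply, coe_sum_apply, Finset.sum_eq_zero h3, add_zero,
        Submodule.coe_smul, gof_apply, inv_smul_smul] at h5
      exact hy h5
    let pc : G → (LR hA r.R).sub := fun g => (LR hA r.R).cutS {y | κ y = g} (m g₀)
    have hpc : ∑ g ∈ T, pc g = m g₀ := Fam.sum_cutS _ T κ (m g₀) fun y hy => (hκ y hy).1
    have hpcF : ∀ g, pc g ∈ r.FF hA 0 := fun g =>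
      r.FF_cut hA _ (hm g₀ (Finset.mem_insert_self _ _))
    have hpcF' : ∀ g, gof (g⁻¹ * g₀) • pc g ∈ r.FF hA 0 := by
      intro g y hy
      rw [Submodule.coe_smul, gof_apply] at hy
      obtain ⟨hy1, hy2⟩ := Fam.cutS_ne _ hy
      have hy2 : κ ((g⁻¹ * g₀)⁻¹ • y) = g := hy2
      obtain ⟨-, h4⟩ := hκ _ hy1
      rw [hy2, pu_smul hA, smul_smul, smul_smul] at h4
      rw [mul_inv_cancel, one_smul] at h4
      obtain ⟨l, hl⟩ := h4
      exact ⟨l, Nat.zero_le _, hl.symm⟩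
    have h6 := ih (fun g => m g + gof (g⁻¹ * g₀) • pc g)
      (fun g hg => add_mem (hm g (Finset.mem_insert_of_mem hg)) (hpcF' g)) (by
        rw [← hsum, ← hpc]
        have h7 : ∀ g ∈ T, gof g • (m g + gof (g⁻¹ * g₀) • pc g) =
            gof g • m g + gof g₀ • pc g := by
          intro g _
          rw [smul_add, smul_smul (gof g), ← gof_mul]
          congr 3
          group
        rw [Finset.sum_congr rfl h7, Finset.sum_add_distrib, ← Finset.smul_sum, add_comm])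
    have h8 : ∀ g ∈ T, ((w g : ℤˣ) : ℤ) • (δ g⁻¹).ev (m g + gof (g⁻¹ * g₀) • pc g) =
        ((w g : ℤˣ) : ℤ) • (δ g⁻¹).ev (m g) + ((w g₀ : ℤˣ) : ℤ) • (δ g₀⁻¹).ev (pc g) := by
      intro g _
      rw [map_add, smul_add]
      congr 1
      have h9 : δ g₀⁻¹ = δ (g⁻¹ * g₀)⁻¹ + gof (g⁻¹ * g₀)⁻¹ • δ g⁻¹ := by
        rw [← hδ]
        congr 1
        group
      rw [h9, Du.ev_add, r.good hA δ hδ h1 h2 _ _ (hpcF g) (hpcF' g), zero_add, Du.ev_gof, inv_inv,
        smul_smul, ← Units.val_mul, ← map_mul]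
      congr 2
      have h10 : w (g₀ * (g⁻¹ * g₀)⁻¹) = w g := by
        congr 1
        group
      rw [h10]
    rw [Finset.sum_congr rfl h8, Finset.sum_add_distrib, ← Finset.smul_sum, ← map_sum, hpc] at h6
    rw [Finset.sum_insert hg₀, add_comm]
    exact h6

end

/-- additive maps are determined by the translates of functions over the ray -/
theorem ind_translates (E : (LR hA r.R).sub →+ EE)
    (hE : ∀ (g : G), ∀ m ∈ r.FF hA 0, E (gof g • m) = 0) (f : (LR hA r.R).sub) : E f = 0 := by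
  have hkey : ∀ (T : Finset G) (f : (LR hA r.R).sub),
      (∀ y, (f : Fn A) y ≠ 0 → ∃ g ∈ T, g⁻¹ • pu U y ∈ r.R) → E f = 0 := by
    intro T
    induction T using Finset.induction_on with
    | empty =>
      intro f hf
      have : f = 0 := by
        apply Subtype.ext
        refine fn_ext fun y => ?_
        by_contra hcon
        obtain ⟨g, hg, -⟩ := hf y hcon
        exact absurd hg (Finset.notMem_empty _)
      rw [this, map_zero]
    | insert g T hg ih =>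
      intro f hf
      let K : Set (G ⧸ A) := {y | g⁻¹ • pu U y ∈ r.R}
      have h1 : f = gof g • gof g⁻¹ • (LR hA r.R).cutS K f + (f - (LR hA r.R).cutS K f) := by
        rw [smul_smul (gof g), ← gof_mul, mul_inv_cancel, gof_one, one_smul]
        abel
      rw [h1, map_add, hE g, zero_add]
      · apply ih
        intro y hy
        have hy : (f : Fn A) y - cut K (f : Fn A) y ≠ 0 := hy
        by_cases hyc : y ∈ K
        · exact absurd (by rw [cut_of_mem (f : Fn A) hyc, sub_self]) hy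
        · rw [cut_of_notMem (f : Fn A) hyc, sub_zero] at hy
          obtain ⟨g', hg', h2⟩ := hf y hy
          rcases Finset.mem_insert.1 hg' with h | h
          · rw [h] at h2
            exact absurd h2 hyc
          · exact ⟨g', h, h2⟩
      · intro y hy
        rw [Submodule.coe_smul, gof_apply, inv_inv] at hy
        have h2 : g⁻¹ • pu U (g • y) ∈ r.R := (Fam.cutS_ne _ hy).2
        rw [pu_smul hA, inv_smul_smul] at h2
        obtain ⟨l, hl⟩ := h2
        exact ⟨l, Nat.zero_le _, hl.symm⟩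
  obtain ⟨T, hT⟩ := f.2.2
  exact hkey T f fun y hy => hT y hy

/-- Every derivation with values in the characters of the functions near a ray is inner. -/
theorem allDer {d : ℕ} (x : Fin d → G) (hx : Subgroup.closure (Set.range x) = U) :
    AllDer (G := G) (Du w (LR hA r.R).sub) := by
  intro δ hδ
  obtain ⟨μ₁, hμ₁⟩ := r.step1 hA δ
  let δ' : G → Du w (LR hA r.R).sub := fun g => δ g - (gof g • μ₁ - μ₁)
  have hδ' : ∀ g h, δ' (g * h) = δ' g + gof g • δ' h := der_sub hδ μ₁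
  have h1 : ∀ s ∈ r.S, ∀ m ∈ r.FF hA 0,
      (∀ y, ((m : (LR hA r.R).sub) : Fn A) y ≠ 0 → y ∈ r.K A s) → (δ' s⁻¹).ev m = 0 := hμ₁
  have h2 : ∀ n ∈ U, ∀ m ∈ r.FF hA 0, (δ' n).ev m = 0 := r.step2 hA x hx δ' hδ' h1
  let P : (LR hA r.R).sub →+ (LR hA r.R).sub := (LR hA r.R).cutS {y | pu U y ∈ r.R}
  have hPF : ∀ m : (LR hA r.R).sub, P m ∈ r.FF hA 0 := by
    intro m y hy
    obtain ⟨k, hk⟩ := (Fam.cutS_ne _ hy).2
    exact ⟨k, Nat.zero_le _, hk.symm⟩
  have hPm : ∀ m ∈ r.FF hA 0, P m = m := by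
    intro m hm
    refine Fam.cutS_eq _ fun y hy => ?_
    obtain ⟨l, -, hl⟩ := hm y hy
    exact ⟨l, hl.symm⟩
  let fg : G → ((LR hA r.R).sub →+ (LR hA r.R).sub) := fun g =>
    AddMonoidHom.mk' (fun m => gof g • P m) (fun m m' => by rw [map_add, smul_add])
  let pg : G → ((LR hA r.R).sub →+ EE) := fun g =>
    AddMonoidHom.mk' (fun m => ((w g : ℤˣ) : ℤ) • (δ' g⁻¹).ev (P m))
      (fun m m' => by rw [map_add, map_add, smul_add])
  obtain ⟨μ₂', hμ₂'⟩ := exists_extension (Finsupp.liftAddHom fg) (Finsupp.liftAddHom pg) (by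
    intro l hl
    rw [Finsupp.liftAddHom_apply] at hl ⊢
    exact r.well_def hA δ' hδ' h1 h2 l.support (fun g => P (l g)) (fun g _ => hPF _) hl)
  let μ₂ : Du w (LR hA r.R).sub := μ₂'
  have hμ₂ : ∀ g, ∀ m ∈ r.FF hA 0,
      μ₂.ev (gof g • m) = ((w g : ℤˣ) : ℤ) • (δ' g⁻¹).ev m := by
    intro g m hm
    have h3 := hμ₂' (Finsupp.single g m)
    rw [Finsupp.liftAddHom_apply_single, Finsupp.liftAddHom_apply_single] at h3
    change μ₂' (gof g • P m) = ((w g : ℤˣ) : ℤ) • (δ' g⁻¹).ev (P m) at h3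
    rw [hPm m hm] at h3
    exact h3
  have hfinal : ∀ g, δ' g = gof g • μ₂ - μ₂ := by
    intro g
    rw [← sub_eq_zero]
    refine Du.ext fun f => ?_
    rw [Du.ev_zero]
    refine r.ind_translates hA _ (fun g₀ m hm => ?_) f
    have h0 : (δ' g - (gof g • μ₂ - μ₂)).ev (gof g₀ • m) = (δ' g).ev (gof g₀ • m) -
      ((gof g • μ₂).ev (gof g₀ • m) - μ₂.ev (gof g₀ • m)) := rfl
    rw [h0, Du.ev_gof, smul_smul (gof g⁻¹), ← gof_mul, hμ₂ _ m hm, hμ₂ _ m hm, smul_smul,
      ← Units.val_mul, ← map_mul]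
    have e1 : g * (g⁻¹ * g₀) = g₀ := by group
    have e2 : (g⁻¹ * g₀)⁻¹ = g₀⁻¹ * g := by group
    rw [e1, e2, hδ', Du.ev_add, Du.ev_gof, inv_inv, map_inv, Int.units_inv_eq_self, smul_add,
      unit_smul_unit_smul]
    abel
  refine ⟨μ₁ + μ₂, fun g => ?_⟩
  have h3 := hfinal g
  have h4 : δ g = δ' g + (gof g • μ₁ - μ₁) := by
    change _ = (δ g - (gof g • μ₁ - μ₁)) + _
    abel
  rw [h4, h3, smul_add]
  abel

end Ray

end

end Pool.Agent.J4H59.PD
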