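import Pool.Agent.J4H59.PD.PartA

/-!
# A derivation with values in the characters of the finitely supported functions

If `A` has a nontrivial character and `w` is trivial on `A` then there is a derivation with values
in the characters of the finitely supported functions on `G ⧸ A` which is not inner.
-/

set_option autoImplicit false
set_option linter.unusedSectionVars false

open scoped Classical

namespace Pool.Agent.J4H59.PD

open Pool.Agent.Helper386.PD3

noncomputable section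

variable {G : Type} [Group G] {A : Subgroup G} {w : G →* ℤˣ}

/-- representatives of cosets -/
def rp (y : G ⧸ A) : G := Quotient.out y

theorem mk_rp (y : G ⧸ A) : ((rp y : G) : G ⧸ A) = y := Quotient.out_eq' y

theorem al_mem (g : G) (y : G ⧸ A) : (rp (g⁻¹ • y))⁻¹ * (g⁻¹ * rp y) ∈ A := by
  rw [← QuotientGroup.eq, mk_rp]
  conv_lhs => rw [← mk_rp y]
  rfl

/-- the cocycle of the permutation action -/
def al (g : G) (y : G ⧸ A) : A := ⟨_, al_mem g y⟩

theorem al_coe (g : G) (y : G ⧸ A) : (al g y : G) = (rp (g⁻¹ • y))⁻¹ * (g⁻¹ * rp y) := rfl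

theorem al_mul (g h : G) (y : G ⧸ A) : al (g * h) y = al h (g⁻¹ • y) * al g y := by
  apply Subtype.ext
  rw [Subgroup.coe_mul, al_coe, al_coe, al_coe, mul_inv_rev, mul_smul]
  group

theorem fin_supp (m : (famF A).sub) (f : G ⧸ A → EE) :
    (Function.support fun y => (m : Fn A) y • f y).Finite := by
  refine (show (supp (m : Fn A)).Finite from m.2).subset ?_
  intro y hy h
  apply hy
  change (m : Fn A) y • f y = 0
  rw [h, zero_smul]

/-- the character with given values -/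
def sumc (w : G →* ℤˣ) (f : G ⧸ A → EE) : Du w (famF A).sub :=
  (AddMonoidHom.mk' (fun m : (famF A).sub => ∑ᶠ y, (m : Fn A) y • f y) (by
    intro m m'
    rw [← finsum_add_distrib (fin_supp m f) (fin_supp m' f)]
    exact finsum_congr fun y => by rw [Submodule.coe_add, add_apply, add_smul]) :
      (famF A).sub →+ EE)

theorem sumc_ev (f : G ⧸ A → EE) (m : (famF A).sub) :
    (sumc w f).ev m = ∑ᶠ y, (m : Fn A) y • f y := rfl

theorem not_allDer_famF (χ : A → EE) (hχ : ∀ a b, χ (a * b) = χ a + χ b)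
    (hA : ∀ a ∈ A, w a = 1) (a : A) (ha : χ a ≠ 0) : ¬ AllDer (G := G) (Du w (famF A).sub) := by
  intro hall
  let κ : G → Du w (famF A).sub := fun g => sumc w fun y => ((w (rp y) : ℤˣ) : ℤ) • χ (al g y)
  have hw : ∀ (g : G) (y : G ⧸ A),
      ((w g : ℤˣ) : ℤ) * ((w (rp (g⁻¹ • y)) : ℤˣ) : ℤ) = ((w (rp y) : ℤˣ) : ℤ) := by
    intro g y
    have h1 := hA _ (al_mem g y)
    rw [map_mul, map_mul, map_inv, map_inv] at h1
    rw [← Units.val_mul]
    congr 1
    rw [inv_mul_eq_one] at h1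
    rw [h1]
    group
  have hder : ∀ g h, κ (g * h) = κ g + gof g • κ h := by
    intro g h
    refine Du.ext fun m => ?_
    rw [Du.ev_add, Du.ev_gof, sumc_ev, sumc_ev, sumc_ev]
    have h1 : (∑ᶠ y, ((gof g⁻¹ • m : (famF A).sub) : Fn A) y •
        ((w (rp y) : ℤˣ) : ℤ) • χ (al h y)) =
        ∑ᶠ y, (m : Fn A) y • ((w (rp (g⁻¹ • y)) : ℤˣ) : ℤ) • χ (al h (g⁻¹ • y)) := by
      rw [← finsum_comp_equiv (MulAction.toPerm g⁻¹)]
      refine finsum_congr fun y => ?_
      rw [MulAction.toPerm_apply, Submodule.coe_smul, gof_apply, inv_inv, smul_inv_smul]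
    rw [h1, smul_finsum' _ (fin_supp m _), ← finsum_add_distrib (fin_supp m _)]
    · refine finsum_congr fun y => ?_
      rw [al_mul, hχ, smul_add, smul_add, add_comm]
      congr 1
      rw [smul_comm ((w g : ℤˣ) : ℤ) ((m : Fn A) y), smul_smul ((w g : ℤˣ) : ℤ), hw]
    · refine (fin_supp m (fun y => ((w (rp (g⁻¹ • y)) : ℤˣ) : ℤ) • χ (al h (g⁻¹ • y)))).subset ?_
      intro y hy hy0
      apply hy
      have hy0 : (m : Fn A) y • ((w (rp (g⁻¹ • y)) : ℤˣ) : ℤ) • χ (al h (g⁻¹ • y)) = 0 := hy0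
      change ((w g : ℤˣ) : ℤ) • (m : Fn A) y • ((w (rp (g⁻¹ • y)) : ℤˣ) : ℤ) •
        χ (al h (g⁻¹ • y)) = 0
      rw [hy0, smul_zero]
  obtain ⟨μ, hμ⟩ := hall κ hder
  let x₀ : G ⧸ A := ((1 : G) : G ⧸ A)
  have hx₀ : ∀ b ∈ A, b • x₀ = x₀ := by
    intro b hb
    change ((b * 1 : G) : G ⧸ A) = ((1 : G) : G ⧸ A)
    rw [QuotientGroup.eq, mul_one, mul_one]
    exact A.inv_mem hb
  let f₀ : Fn A := fun y => if y = x₀ then 1 else 0
  have hf₀ : f₀ ∈ (famF A).sub := by
    refine (Set.finite_singleton x₀).subset ?_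
    intro y hy
    by_contra hcon
    exact hy (if_neg hcon)
  let m₀ : (famF A).sub := ⟨f₀, hf₀⟩
  have h1 : (κ (a : G)⁻¹).ev m₀ = ((w (rp x₀) : ℤˣ) : ℤ) • χ (al (a : G)⁻¹ x₀) := by
    rw [sumc_ev, finsum_eq_single _ x₀]
    · change f₀ x₀ • _ = _
      change (if x₀ = x₀ then (1 : ℤ) else 0) • _ = _
      rw [if_pos rfl, one_smul]
    · intro y hy
      change (if y = x₀ then (1 : ℤ) else 0) • _ = _
      rw [if_neg hy, zero_smul]
  have hr : rp x₀ ∈ A := by
    have h2 := mk_rp x₀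
    have h3 : ((rp x₀ : G) : G ⧸ A) = ((1 : G) : G ⧸ A) := h2
    rw [eq_comm, QuotientGroup.eq, inv_one, one_mul] at h3
    exact h3
  have hone : χ 1 = 0 := by
    have := hχ 1 1
    rw [mul_one] at this
    simpa using this
  have h2 : χ (al (a : G)⁻¹ x₀) = χ a := by
    have h3 : al (a : G)⁻¹ x₀ = (⟨rp x₀, hr⟩ : A)⁻¹ * (a * ⟨rp x₀, hr⟩) := by
      apply Subtype.ext
      rw [al_coe, inv_inv, hx₀ _ a.2]
      rfl
    have h4 : χ (⟨rp x₀, hr⟩ : A)⁻¹ + χ ⟨rp x₀, hr⟩ = 0 := by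
      rw [← hχ, inv_mul_cancel, hone]
    rw [h3, hχ, hχ, add_left_comm, h4, add_zero]
  have h3 : (κ (a : G)⁻¹).ev m₀ = 0 := by
    rw [hμ, Du.ev_sub, Du.ev_gof, inv_inv, map_inv, hA _ a.2, inv_one, Units.val_one, one_smul]
    have h4 : gof (a : G) • m₀ = m₀ := by
      apply Subtype.ext
      refine fn_ext fun y => ?_
      rw [Submodule.coe_smul, gof_apply]
      change (if (a : G)⁻¹ • y = x₀ then (1 : ℤ) else 0) = if y = x₀ then (1 : ℤ) else 0
      have h5 : (a : G)⁻¹ • y = x₀ ↔ y = x₀ := by rw [inv_smul_eq_iff, hx₀ _ a.2]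
      exact if_congr h5 rfl rfl
    rw [h4, sub_self]
  rw [h1, h2] at h3
  apply ha
  rcases Int.units_eq_one_or (w (rp x₀)) with h | h
  · rw [h] at h3
    simpa using h3
  · rw [h] at h3
    simpa using h3

/-- a nontrivial element of a cyclic group has a nontrivial character -/
theorem exists_char (a : G) (ha : a ≠ 1) : ∃ χ : Subgroup.zpowers a → EE,
    (∀ x y, χ (x * y) = χ x + χ y) ∧ χ ⟨a, Subgroup.mem_zpowers a⟩ ≠ 0 := by
  let _ : CommGroup (Subgroup.zpowers a) :=
    { (inferInstance : Group (Subgroup.zpowers a)) with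
      mul_comm := by
        rintro ⟨_, i, rfl⟩ ⟨_, j, rfl⟩
        exact Subtype.ext ((zpow_mul_comm a i j)) }
  have hne : (Additive.ofMul (⟨a, Subgroup.mem_zpowers a⟩ : Subgroup.zpowers a)) ≠ 0 := by
    intro h
    apply ha
    have h1 : (⟨a, Subgroup.mem_zpowers a⟩ : Subgroup.zpowers a) = 1 := h
    exact congrArg Subtype.val h1
  obtain ⟨χ, hχ⟩ := CharacterModule.exists_character_apply_ne_zero_of_ne_zero
    (A := Additive (Subgroup.zpowers a)) hne
  exact ⟨fun x => χ (Additive.ofMul x), fun x y => map_add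
    (show Additive (Subgroup.zpowers a) →+ EE from χ) _ _, hχ⟩

end

end Pool.Agent.J4H59.PD
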