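import Pool.Agent.J4H59.PD.PartB2
import Pool.Agent.J4H59.PD.PartC

/-!
# Finitely generated commensurated subgroups: elements generate subgroups of finite index
-/

set_option autoImplicit false
set_option linter.unusedSectionVars false

open scoped Classical

namespace Pool.Agent.J4H59.PD

open Pool.Agent.Helper386.PD3

noncomputable section

variable {G : Type} [Group G]

/-- `g` is in the coset `t ^ k * N` -/
def IsLev (N : Subgroup G) (t : G) (g : G) (k : ℤ) : Prop := g * t ^ (-k) ∈ N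

section lev

variable {N : Subgroup G} {t : G}

theorem zpow_conj (hn : t ∈ Subgroup.normalizer (N : Set G)) (k : ℤ) {x : G} (hx : x ∈ N) :
    t ^ k * x * (t ^ k)⁻¹ ∈ N :=
  (Subgroup.mem_normalizer_iff.1 (Subgroup.zpow_mem _ hn k) x).1 hx

theorem IsLev.mul (hn : t ∈ Subgroup.normalizer (N : Set G)) {g h : G} {k l : ℤ}
    (hg : IsLev N t g k) (hh : IsLev N t h l) : IsLev N t (g * h) (k + l) := by
  have h1 : t ^ k * (h * t ^ (-l)) * (t ^ k)⁻¹ ∈ N := zpow_conj hn k hh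
  have h2 := N.mul_mem hg h1
  have h3 : g * t ^ (-k) * (t ^ k * (h * t ^ (-l)) * (t ^ k)⁻¹) = g * h * t ^ (-(k + l)) := by
    rw [neg_add, zpow_add, (Commute.refl t).zpow_zpow (-k) (-l) |>.eq, zpow_neg t k]
    group
  rw [h3] at h2
  exact h2

theorem IsLev.of_mem {n : G} (hn : n ∈ N) : IsLev N t n 0 := by
  unfold IsLev
  rwa [neg_zero, zpow_zero, mul_one]

theorem IsLev.self : IsLev N t t 1 := by
  unfold IsLev
  rw [zpow_neg, zpow_one, mul_inv_cancel]
  exact N.one_mem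

theorem IsLev.zpow (k : ℤ) : IsLev N t (t ^ k) k := by
  unfold IsLev
  rw [zpow_neg, mul_inv_cancel]
  exact N.one_mem

theorem IsLev.inv (hn : t ∈ Subgroup.normalizer (N : Set G)) {g : G} {k : ℤ}
    (hg : IsLev N t g k) : IsLev N t g⁻¹ (-k) := by
  have h1 : (t ^ (-k)) * (g * t ^ (-k))⁻¹ * (t ^ (-k))⁻¹ ∈ N := zpow_conj hn (-k) (N.inv_mem hg)
  have h3 : (t ^ (-k)) * (g * t ^ (-k))⁻¹ * (t ^ (-k))⁻¹ = g⁻¹ * t ^ (-(-k)) := by
    rw [mul_inv_rev, zpow_neg t (-k)]
    group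
  rw [h3] at h1
  exact h1

theorem IsLev.uniq (ht : ∀ k : ℤ, k ≠ 0 → t ^ k ∉ N) {g : G} {k l : ℤ} (h : IsLev N t g k)
    (h' : IsLev N t g l) : k = l := by
  by_contra hcon
  have h1 := N.mul_mem (N.inv_mem h) h'
  have h2 : (g * t ^ (-k))⁻¹ * (g * t ^ (-l)) = t ^ (k - l) := by
    rw [sub_eq_add_neg, zpow_add, mul_inv_rev, zpow_neg t k]
    group
  rw [h2] at h1
  exact ht _ (sub_ne_zero.2 hcon) h1

theorem exists_isLev (hn : t ∈ Subgroup.normalizer (N : Set G)) {g : G}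
    (hg : g ∈ N ⊔ Subgroup.zpowers t) : ∃ k, IsLev N t g k := by
  rw [Subgroup.sup_eq_closure] at hg
  induction hg using Subgroup.closure_induction with
  | mem g hg =>
    rcases hg with hg | ⟨k, hk⟩
    · exact ⟨0, IsLev.of_mem hg⟩
    · refine ⟨k, ?_⟩
      have hk : t ^ k = g := hk
      rw [← hk]
      exact IsLev.zpow k
  | one => exact ⟨0, IsLev.of_mem N.one_mem⟩
  | mul g h _ _ hg hh =>
    obtain ⟨k, hk⟩ := hg
    obtain ⟨l, hl⟩ := hh
    exact ⟨k + l, hk.mul hn hl⟩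
  | inv g _ hg =>
    obtain ⟨k, hk⟩ := hg
    exact ⟨-k, hk.inv hn⟩

end lev

section mk

variable (N : Subgroup G) (t : G) (A : Subgroup G)

/-- projection to the cosets of the larger group -/
def pj (y : G ⧸ A) : G ⧸ (N ⊔ Subgroup.zpowers t) := ((rp y : G) : G ⧸ (N ⊔ Subgroup.zpowers t))

variable {N t A}

theorem pj_mk (hA : A ≤ N) (g : G) : pj N t A (g : G ⧸ A) = (g : G ⧸ (N ⊔ Subgroup.zpowers t)) := by
  have h1 : ((rp (g : G ⧸ A) : G) : G ⧸ A) = (g : G ⧸ A) := mk_rp _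
  rw [QuotientGroup.eq] at h1
  exact QuotientGroup.eq.2 ((hA.trans le_sup_left) h1)

theorem exists_lev (hn : t ∈ Subgroup.normalizer (N : Set G)) (y : G ⧸ A) :
    ∃ k, IsLev N t ((rp (pj N t A y))⁻¹ * rp y) k := by
  apply exists_isLev hn
  rw [← QuotientGroup.eq]
  exact mk_rp _

/-- the level of a coset -/
def lv (hn : t ∈ Subgroup.normalizer (N : Set G)) (A : Subgroup G) (y : G ⧸ A) : ℤ :=
  (exists_lev (t := t) hn y).choose

theorem lv_spec (hn : t ∈ Subgroup.normalizer (N : Set G)) (hA : A ≤ N) (g : G) :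
    IsLev N t ((rp (g : G ⧸ (N ⊔ Subgroup.zpowers t)))⁻¹ * g) (lv hn A (g : G ⧸ A)) := by
  have h1 : IsLev N t ((rp (pj N t A (g : G ⧸ A)))⁻¹ * rp (g : G ⧸ A)) (lv hn A (g : G ⧸ A)) :=
    (exists_lev (t := t) hn (g : G ⧸ A)).choose_spec
  have h2 : (rp (g : G ⧸ A))⁻¹ * g ∈ N := by
    apply hA
    rw [← QuotientGroup.eq]
    exact mk_rp _
  have h3 := h1.mul hn (IsLev.of_mem (t := t) h2)
  rw [add_zero, pj_mk hA] at h3
  have h4 : (rp (g : G ⧸ (N ⊔ Subgroup.zpowers t)))⁻¹ * rp (g : G ⧸ A) *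
      ((rp (g : G ⧸ A))⁻¹ * g) = (rp (g : G ⧸ (N ⊔ Subgroup.zpowers t)))⁻¹ * g := by group
  rw [h4] at h3
  exact h3

theorem mk_mul_sup (g : G) {h : G} (hh : h ∈ N ⊔ Subgroup.zpowers t) :
    ((g * h : G) : G ⧸ (N ⊔ Subgroup.zpowers t)) = (g : G ⧸ (N ⊔ Subgroup.zpowers t)) := by
  rw [eq_comm, QuotientGroup.eq, inv_mul_cancel_left]
  exact hh

theorem lv_mul (hn : t ∈ Subgroup.normalizer (N : Set G)) (hA : A ≤ N)
    (ht : ∀ k : ℤ, k ≠ 0 → t ^ k ∉ N) (g : G) {h : G} {k : ℤ} (hk : IsLev N t h k)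
    (hh : h ∈ N ⊔ Subgroup.zpowers t) :
    lv hn A ((g * h : G) : G ⧸ A) = lv hn A (g : G ⧸ A) + k := by
  have h2 := lv_spec (t := t) hn hA (g * h)
  have h3 := (lv_spec (t := t) hn hA g).mul hn hk
  rw [mk_mul_sup g hh] at h2
  rw [mul_assoc] at h3
  exact h2.uniq ht h3

theorem mem_sup_of_mk {g : G} (h : (g : G ⧸ (N ⊔ Subgroup.zpowers t)) =
    ((1 : G) : G ⧸ (N ⊔ Subgroup.zpowers t))) : g ∈ N ⊔ Subgroup.zpowers t := by
  rw [eq_comm, QuotientGroup.eq, inv_one, one_mul] at h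
  exact h

theorem mk_of_mem_sup {g : G} (h : g ∈ N ⊔ Subgroup.zpowers t) :
    (g : G ⧸ (N ⊔ Subgroup.zpowers t)) = ((1 : G) : G ⧸ (N ⊔ Subgroup.zpowers t)) := by
  rw [eq_comm, QuotientGroup.eq, inv_one, one_mul]
  exact h

/-- the level of the translate of a coset over the base point -/
theorem lv_mul' (hn : t ∈ Subgroup.normalizer (N : Set G)) (hA : A ≤ N)
    (ht : ∀ k : ℤ, k ≠ 0 → t ^ k ∉ N) {g : G} (hg : g ∈ N ⊔ Subgroup.zpowers t) {h : G} {k : ℤ}
    (hk : IsLev N t h k) (hh : h ∈ N ⊔ Subgroup.zpowers t) :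
    lv hn A ((h * g : G) : G ⧸ A) = lv hn A (g : G ⧸ A) + k := by
  obtain ⟨l, hl⟩ := exists_isLev hn hg
  have h1 := lv_mul hn hA ht 1 (hk.mul hn hl) (Subgroup.mul_mem _ hh hg)
  have h2 := lv_mul hn hA ht 1 hl hg
  rw [one_mul] at h1 h2
  rw [h1, h2]
  ring

/-- the level structure -/
def mkLv (hn : t ∈ Subgroup.normalizer (N : Set G)) (hA : A ≤ N)
    (ht : ∀ k : ℤ, k ≠ 0 → t ^ k ∉ N) : Lv A N t (G ⧸ (N ⊔ Subgroup.zpowers t)) where
  π := pj N t A
  L := lv hn A
  b := ((1 : G) : G ⧸ (N ⊔ Subgroup.zpowers t))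
  r := rp
  hπ g x := by
    induction x using QuotientGroup.induction_on with
    | H a =>
      have h1 : g • (a : G ⧸ A) = ((g * a : G) : G ⧸ A) := rfl
      rw [h1, pj_mk hA, pj_mk hA]
      rfl
  hL g c := by
    have h0 : (rp (g • c))⁻¹ * (g * rp c) ∈ N ⊔ Subgroup.zpowers t := by
      rw [← QuotientGroup.eq, mk_rp]
      conv_lhs => rw [← mk_rp c]
      rfl
    obtain ⟨j, hj⟩ := exists_isLev hn h0
    refine ⟨j, fun x hx => ?_⟩
    induction x using QuotientGroup.induction_on with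
    | H a =>
      rw [pj_mk hA] at hx
      have h1 : g • (a : G ⧸ A) = ((g * a : G) : G ⧸ A) := rfl
      rw [h1]
      have h2 := lv_spec (t := t) hn hA (g * a)
      have h3 := lv_spec (t := t) hn hA a
      have h4 : ((g * a : G) : G ⧸ (N ⊔ Subgroup.zpowers t)) = g • c := by
        rw [← hx]
        rfl
      rw [h4] at h2
      rw [hx] at h3
      have h5 := hj.mul hn h3
      have h6 : (rp (g • c))⁻¹ * (g * rp c) * ((rp c)⁻¹ * a) = (rp (g • c))⁻¹ * (g * a) := by group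
      rw [h6] at h5
      rw [h2.uniq ht h5, add_comm]
  hNb n hn := by
    change ((n * 1 : G) : G ⧸ (N ⊔ Subgroup.zpowers t)) = _
    rw [mul_one]
    exact mk_of_mem_sup ((le_sup_left : N ≤ N ⊔ Subgroup.zpowers t) hn)
  hNL n hnN x hx := by
    induction x using QuotientGroup.induction_on with
    | H a =>
      rw [pj_mk hA] at hx
      change lv hn A ((n * a : G) : G ⧸ A) = lv hn A (a : G ⧸ A)
      rw [lv_mul' hn hA ht (mem_sup_of_mk hx) (IsLev.of_mem hnN)
        ((le_sup_left : N ≤ N ⊔ Subgroup.zpowers t) hnN), add_zero]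
  ht := by
    change ((t * 1 : G) : G ⧸ (N ⊔ Subgroup.zpowers t)) = _
    rw [mul_one]
    exact mk_of_mem_sup ((le_sup_right : Subgroup.zpowers t ≤ N ⊔ Subgroup.zpowers t)
      (Subgroup.mem_zpowers t))
  htL x hx := by
    induction x using QuotientGroup.induction_on with
    | H a =>
      rw [pj_mk hA] at hx
      change lv hn A ((t * a : G) : G ⧸ A) = lv hn A (a : G ⧸ A) + 1
      exact lv_mul' hn hA ht (mem_sup_of_mk hx) IsLev.self
        ((le_sup_right : Subgroup.zpowers t ≤ N ⊔ Subgroup.zpowers t) (Subgroup.mem_zpowers t))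
  hr c := by
    change ((rp c * 1 : G) : G ⧸ (N ⊔ Subgroup.zpowers t)) = c
    rw [mul_one]
    exact mk_rp c
  hst g hg := by
    have hg : ((g * 1 : G) : G ⧸ (N ⊔ Subgroup.zpowers t)) =
      ((1 : G) : G ⧸ (N ⊔ Subgroup.zpowers t)) := hg
    rw [mul_one] at hg
    have h1 : N ⊔ Subgroup.zpowers t ≤ Subgroup.closure ((N : Set G) ∪ {t}) := by
      refine sup_le (fun n hn => Subgroup.subset_closure (Or.inl hn)) ?_
      rw [Subgroup.zpowers_le]
      exact Subgroup.subset_closure (Or.inr rfl)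
    exact h1 (mem_sup_of_mk hg)

/-- infinitely many cosets of a subgroup of infinite index, in a set of representatives of a
subgroup of finite index -/
theorem infinite_cosets (hA : A.relIndex N = 0) {V : Subgroup G} (hV : V.relIndex N ≠ 0) :
    {z : G ⧸ A | ∃ n ∈ V ⊓ N, z = (n : G ⧸ A)}.Infinite := by
  intro hfin
  apply Subgroup.relIndex_ne_zero_trans (H := A) (K := V ⊓ N) (L := N) ?_ ?_ hA
  · intro hcon
    have h3 : Finite (↥(V ⊓ N) ⧸ A.subgroupOf (V ⊓ N)) := by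
      have h4 : ∀ a b : ↥(V ⊓ N), (QuotientGroup.leftRel (A.subgroupOf (V ⊓ N))) a b →
          ((a : G) : G ⧸ A) = ((b : G) : G ⧸ A) := by
        intro a b hab
        rw [QuotientGroup.leftRel_apply, Subgroup.mem_subgroupOf] at hab
        exact QuotientGroup.eq.2 hab
      let φ : ↥(V ⊓ N) ⧸ A.subgroupOf (V ⊓ N) → G ⧸ A :=
        Quotient.lift (fun n : ↥(V ⊓ N) => ((n : G) : G ⧸ A)) h4
      have hφ : Function.Injective φ := by
        intro a b
        induction a using QuotientGroup.induction_on with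
        | H a =>
          induction b using QuotientGroup.induction_on with
          | H b =>
            intro hab
            have hab : ((a : G) : G ⧸ A) = ((b : G) : G ⧸ A) := hab
            rw [QuotientGroup.eq] at hab ⊢
            exact hab
      have hr : (Set.range φ).Finite := by
        refine hfin.subset ?_
        rintro _ ⟨a, rfl⟩
        induction a using QuotientGroup.induction_on with
        | H a => exact ⟨a, a.2, rfl⟩
      have : Finite (Set.range φ) := hr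
      exact Finite.of_injective_finite_range hφ
    have h5 : (A.subgroupOf (V ⊓ N)).index ≠ 0 := Subgroup.index_ne_zero_of_finite
    exact h5 hcon
  · rw [Subgroup.inf_relIndex_right]
    exact hV

theorem infinite_orbit (hn : t ∈ Subgroup.normalizer (N : Set G)) (hA : A ≤ N)
    (ht : ∀ k : ℤ, k ≠ 0 → t ^ k ∉ N) (hcomm : ∀ g, (cj g N).relIndex N ≠ 0)
    (hA0 : A.relIndex N = 0) (V : Subgroup G) (hV : V.relIndex N ≠ 0) (y : G ⧸ A) :
    {z | ∃ n ∈ V, z = n • y ∧ (mkLv hn hA ht).π z = (mkLv hn hA ht).π y ∧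
      (mkLv hn hA ht).L z = (mkLv hn hA ht).L y}.Infinite := by
  induction y using QuotientGroup.induction_on with
  | H g =>
    intro hfin
    refine infinite_cosets hA0 (cj_relIndex hcomm hV g)
      ((hfin.image (fun z : G ⧸ A => g⁻¹ • z)).subset ?_)
    rintro _ ⟨u, ⟨hu, huN⟩, rfl⟩
    refine ⟨((g * u : G) : G ⧸ A), ⟨g * u * g⁻¹, hu, ?_, ?_, ?_⟩, ?_⟩
    · change _ = ((g * u * g⁻¹ * g : G) : G ⧸ A)
      rw [inv_mul_cancel_right]
    · change pj N t A ((g * u : G) : G ⧸ A) = pj N t A (g : G ⧸ A)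
      rw [pj_mk hA, pj_mk hA]
      exact mk_mul_sup g ((le_sup_left : N ≤ N ⊔ Subgroup.zpowers t) huN)
    · change lv hn A ((g * u : G) : G ⧸ A) = lv hn A (g : G ⧸ A)
      rw [lv_mul hn hA ht g (IsLev.of_mem huN)
        ((le_sup_left : N ≤ N ⊔ Subgroup.zpowers t) huN), add_zero]
    · change ((g⁻¹ * (g * u) : G) : G ⧸ A) = _
      rw [inv_mul_cancel_left]

theorem stab_relIndex (hcomm : ∀ g, (cj g N).relIndex N ≠ 0)
    (c : G ⧸ (N ⊔ Subgroup.zpowers t)) : (MulAction.stabilizer G c).relIndex N ≠ 0 := by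
  induction c using QuotientGroup.induction_on with
  | H g =>
    have h1 : cj g⁻¹ N ≤ MulAction.stabilizer G (g : G ⧸ (N ⊔ Subgroup.zpowers t)) := by
      intro x hx
      rw [mem_cj, inv_inv] at hx
      rw [MulAction.mem_stabilizer_iff]
      change ((x * g : G) : G ⧸ (N ⊔ Subgroup.zpowers t)) = (g : G ⧸ (N ⊔ Subgroup.zpowers t))
      have h2 : x * g = g * (g⁻¹ * x * g) := by group
      rw [h2]
      exact mk_mul_sup g ((le_sup_left : N ≤ N ⊔ Subgroup.zpowers t) hx)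
    exact mt (Subgroup.relIndex_eq_zero_of_le_left h1) (hcomm _)

end mk

/-- In a finitely generated commensurated subgroup `N` normalised by `t` such that `N` and `t`
generate a subgroup of infinite index and no nontrivial power of `t` is in `N`, each nontrivial
element in the kernel of the orientation character generates a subgroup of finite index. -/
theorem relIndex_ne_zero {n : ℕ} {w : G →* ℤˣ} {e0 e1 e2 e3 d0 d1 d2 : MR G n}
    (h : Full w e0 e1 e2 e3 d0 d1 d2) {N : Subgroup G} (hcomm : ∀ g, (cj g N).relIndex N ≠ 0)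
    (hfg : N.FG) {t : G} (hn : t ∈ Subgroup.normalizer (N : Set G))
    (ht : ∀ k : ℤ, k ≠ 0 → t ^ k ∉ N) (hH : (N ⊔ Subgroup.zpowers t).index = 0)
    {a : G} (haN : a ∈ N) (hwa : w a = 1) (ha : a ≠ 1) : (Subgroup.zpowers a).relIndex N ≠ 0 := by
  intro hcon
  have hA : Subgroup.zpowers a ≤ N := by rwa [Subgroup.zpowers_le]
  obtain ⟨S, hS⟩ := hfg
  let x : Fin S.card → G := fun i => (S.equivFin.symm i : G)
  have hx : Subgroup.closure (Set.range x) = N := by
    have h1 : Set.range x = (S : Set G) := by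
      ext g
      constructor
      · rintro ⟨i, rfl⟩
        exact (S.equivFin.symm i).2
      · intro hg
        refine ⟨S.equivFin ⟨g, hg⟩, ?_⟩
        change ((S.equivFin.symm (S.equivFin ⟨g, hg⟩) : S) : G) = g
        rw [Equiv.symm_apply_apply]
    rw [h1, hS]
  let v := mkLv (t := t) hn hA ht
  have hinf : Infinite (G ⧸ (N ⊔ Subgroup.zpowers t)) := by
    by_contra hfin
    rw [not_infinite_iff_finite] at hfin
    exact Subgroup.index_ne_zero_of_finite hH
  have hM : AllDer (G := G) v.famM.sub := by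
    refine v.allDer_famM x hx hcomm (stab_relIndex hcomm) ?_
      (infinite_orbit hn hA ht hcomm hcon)
    intro T hT c
    obtain ⟨c', hc'⟩ := hT.exists_notMem
    refine ⟨v.r c * (v.r c')⁻¹, ?_⟩
    have h1 : (v.r c * (v.r c')⁻¹)⁻¹ • c = c' := by
      rw [mul_inv_rev, inv_inv, mul_smul]
      have h2 : (v.r c)⁻¹ • c = v.b := by rw [inv_smul_eq_iff, v.hr]
      rw [h2, v.hr]
    rw [h1]
    exact hc'
  have hn1 : ∀ n ∈ N, t * n * t⁻¹ ∈ N := fun n hnN => (Subgroup.mem_normalizer_iff.1 hn n).1 hnN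
  have hn2 : ∀ n ∈ N, t⁻¹ * n * t⁻¹⁻¹ ∈ N := fun n hnN =>
    (Subgroup.mem_normalizer_iff.1 (Subgroup.inv_mem _ hn) n).1 hnN
  have hP : AllDer (G := G) (Du w v.famP.sub) := v.allDer_famP hn1 x hx
  have hQ : AllDer (G := G) (Du w v.neg.famP.sub) := v.neg.allDer_famP hn2 x hx
  rw [← v.sup_eq] at hM
  have hI := glue h v.famP.sub v.neg.famP.sub hP hQ hM
  rw [v.inf_eq] at hI
  obtain ⟨χ, hχ, hχa⟩ := exists_char a ha
  refine not_allDer_famF χ hχ ?_ _ hχa hI
  rintro _ ⟨k, rfl⟩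
  change w (a ^ k) = 1
  rw [map_zpow, hwa, one_zpow]

end

end Pool.Agent.J4H59.PD
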