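import Pool.Agent.Helper386.PD3.Data

/-!
A group such that the trivial module has a resolution of finite length by finitely generated
projective modules is torsion-free.  (The first part is a copy of a part of
`Pool.Agent.N453.ZS.Tor`.)
-/

set_option autoImplicit false
set_option linter.unusedSectionVars false

namespace Pool.Agent.J4H59.PD

open Pool.Agent.Helper386.PD3 Pool.Agent.Helper158

variable {G : Type} [Group G]

lemma eps_single (g : G) : eps (MonoidAlgebra.single g 1 : RR G) = 1 := eps_of g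

/-- `1 - g` -/
noncomputable def dd (g : G) : MonoidAlgebra ℤ G := 1 - MonoidAlgebra.single g 1

/-- `1 + g + ⋯ + g^(m-1)` -/
noncomputable def nn (g : G) (m : ℕ) : MonoidAlgebra ℤ G :=
  ∑ i ∈ Finset.range m, MonoidAlgebra.single (g ^ i) 1

lemma nn_mul_dd (g : G) : nn g (orderOf g) * dd g = 0 := by
  rw [nn, dd, mul_sub, mul_one, Finset.sum_mul, ← Finset.sum_sub_distrib]
  have h : ∀ i ∈ Finset.range (orderOf g), (MonoidAlgebra.single (g ^ i) 1 : MonoidAlgebra ℤ G) -
      MonoidAlgebra.single (g ^ i) 1 * MonoidAlgebra.single g 1 =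
      MonoidAlgebra.single (g ^ i) 1 - MonoidAlgebra.single (g ^ (i + 1)) 1 := by
    intro i _
    rw [MonoidAlgebra.single_mul_single, one_mul, pow_succ]
  rw [Finset.sum_congr rfl h, Finset.sum_range_sub', pow_zero, pow_orderOf_eq_one, sub_self]

lemma dd_mul_nn (g : G) : dd g * nn g (orderOf g) = 0 := by
  rw [nn, dd, sub_mul, one_mul, Finset.mul_sum, ← Finset.sum_sub_distrib]
  have h : ∀ i ∈ Finset.range (orderOf g), (MonoidAlgebra.single (g ^ i) 1 : MonoidAlgebra ℤ G) -
      MonoidAlgebra.single g 1 * MonoidAlgebra.single (g ^ i) 1 =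
      MonoidAlgebra.single (g ^ i) 1 - MonoidAlgebra.single (g ^ (i + 1)) 1 := by
    intro i _
    rw [MonoidAlgebra.single_mul_single, one_mul, pow_succ']
  rw [Finset.sum_congr rfl h, Finset.sum_range_sub', pow_zero, pow_orderOf_eq_one, sub_self]

lemma eps_dd (g : G) : eps (dd g) = 0 := by
  rw [dd, map_sub, map_one, eps_single, sub_self]

lemma eps_nn (g : G) (m : ℕ) : eps (nn g m) = m := by
  rw [nn, map_sum]
  simp [eps_single]

lemma nn_coeff (g : G) (m : ℕ) (y : MonoidAlgebra ℤ G) (h : G) :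
    (nn g m * y).coeff h = ∑ i ∈ Finset.range m, y.coeff ((g ^ i)⁻¹ * h) := by
  rw [nn, Finset.sum_mul, MonoidAlgebra.coeff_sum, Finsupp.finsetSum_apply]
  refine Finset.sum_congr rfl fun i _ => ?_
  rw [MonoidAlgebra.coeff_single_mul_apply, one_mul]

/-- representatives of the cosets `⟨g⟩h` -/
lemma exists_rep (g : G) : ∃ σ : G → G, (∀ h, ∃ i : ℤ, h = g ^ i * σ h) ∧
    (∀ h (i : ℤ), σ (g ^ i * h) = σ h) := by
  let r := MulAction.orbitRel (Subgroup.zpowers g) G
  refine ⟨fun h => (Quotient.mk r h).out, fun h => ?_, fun h i => ?_⟩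
  · have h1 : (Quotient.mk r h).out ≈ h := Quotient.mk_out h
    have h2 := MulAction.orbitRel_apply.1 h1
    obtain ⟨⟨_, i, rfl⟩, hi⟩ := h2
    have hi' : g ^ i * h = (Quotient.mk r h).out := hi
    refine ⟨-i, ?_⟩
    change h = g ^ (-i) * (Quotient.mk r h).out
    rw [← hi', zpow_neg, inv_mul_cancel_left]
  · have h1 : (Quotient.mk r (g ^ i * h)) = Quotient.mk r h := by
      apply Quotient.sound
      exact MulAction.orbitRel_apply.2 ⟨⟨g ^ i, i, rfl⟩, rfl⟩
    exact congrArg Quotient.out h1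

section

variable {g : G} (hg : 0 < orderOf g) {σ : G → G} (h1 : ∀ h, ∃ i : ℤ, h = g ^ i * σ h)
  (h2 : ∀ h (i : ℤ), σ (g ^ i * h) = σ h)
include hg h1 h2

/-- if `y` is supported on the representatives, then the coefficient of `N y` at `h` is that of
`y` at the representative -/
lemma nn_rep (y : MonoidAlgebra ℤ G) (hy : ∀ h, σ h ≠ h → y.coeff h = 0) (h : G) :
    (nn g (orderOf g) * y).coeff h = y.coeff (σ h) := by
  rw [nn_coeff]
  obtain ⟨i, hi⟩ := h1 h
  have hm : (orderOf g : ℤ) ≠ 0 := by omega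
  have hr0 := Int.emod_nonneg i hm
  have hr1 := Int.emod_lt_of_pos i (show (0 : ℤ) < orderOf g by omega)
  have hgi : g ^ i = g ^ (i % orderOf g).toNat := by
    rw [← zpow_natCast, Int.toNat_of_nonneg hr0, zpow_mod_orderOf]
  rw [Finset.sum_eq_single (i % orderOf g).toNat]
  · rw [← hgi]
    congr 1
    conv_lhs => rw [hi]
    rw [inv_mul_cancel_left]
  · intro j hj hne
    apply hy
    have h3 : σ ((g ^ j)⁻¹ * h) = σ h := by
      have := h2 h (-(j : ℤ))
      rwa [zpow_neg, zpow_natCast] at this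
    rw [h3]
    intro h4
    apply hne
    have h5 : g ^ j = g ^ (i % orderOf g).toNat := by
      rw [← hgi]
      have h6 : g ^ j * σ h = h := by rw [h4, mul_inv_cancel_left]
      have h7 : g ^ i * σ h = h := hi.symm
      exact mul_right_cancel (h6.trans h7.symm)
    rw [Finset.mem_range] at hj
    exact pow_inj_mod.1 h5 |> fun h => by
      rw [Nat.mod_eq_of_lt hj, Nat.mod_eq_of_lt (by omega)] at h
      exact h
  · intro h3
    exfalso
    apply h3
    rw [Finset.mem_range]
    omega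

lemma free_A (x : MonoidAlgebra ℤ G) (hx : dd g * x = 0) :
    ∃ u, x = nn g (orderOf g) * u := by
  classical
  have hx1 : ∀ h, x.coeff (g⁻¹ * h) = x.coeff h := by
    intro h
    have h3 : x = MonoidAlgebra.single g 1 * x := by
      rw [dd, sub_mul, one_mul, sub_eq_zero] at hx
      exact hx
    conv_rhs => rw [h3, MonoidAlgebra.coeff_single_mul_apply, one_mul]
  have hx2 : ∀ (i : ℕ) h, x.coeff ((g ^ i)⁻¹ * h) = x.coeff h := by
    intro i
    induction i with
    | zero => intro h; simp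
    | succ i ih =>
      intro h
      rw [pow_succ, mul_inv_rev, mul_assoc, hx1, ih]
  refine ⟨MonoidAlgebra.ofCoeff (x.coeff.filter fun h => σ h = h), ?_⟩
  refine MonoidAlgebra.coeff_injective (Finsupp.ext fun h => ?_)
  rw [nn_rep hg h1 h2 _ (by
    intro h hh
    exact Finsupp.filter_apply_neg _ _ hh)]
  have hss : σ (σ h) = σ h := by
    obtain ⟨i, hi⟩ := h1 h
    conv_rhs => rw [hi, h2]
  change _ = (x.coeff.filter fun h => σ h = h) (σ h)
  rw [Finsupp.filter_apply_pos (fun h => σ h = h) x.coeff hss]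
  obtain ⟨i, hi⟩ := h1 h
  have hm : (orderOf g : ℤ) ≠ 0 := by omega
  have hr0 := Int.emod_nonneg i hm
  have hgi : g ^ i = g ^ (i % orderOf g).toNat := by
    rw [← zpow_natCast, Int.toNat_of_nonneg hr0, zpow_mod_orderOf]
  rw [hgi] at hi
  conv_lhs => rw [← hx2 (i % orderOf g).toNat h]
  congr 1
  conv_lhs => rw [hi]
  rw [inv_mul_cancel_left]

lemma free_B (x : MonoidAlgebra ℤ G) (hx : nn g (orderOf g) * x = 0) :
    ∃ u, x = dd g * u := by
  classical
  have hD : ∀ (i : ℕ) (h : G) (r : ℤ), ∃ u : MonoidAlgebra ℤ G,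
      MonoidAlgebra.single (g ^ i * h) r - MonoidAlgebra.single h r = dd g * u := by
    intro i
    induction i with
    | zero => intro h r; exact ⟨0, by simp⟩
    | succ i ih =>
      intro h r
      obtain ⟨u, hu⟩ := ih h r
      refine ⟨u - MonoidAlgebra.single (g ^ i * h) r, ?_⟩
      rw [mul_sub, ← hu, dd, sub_mul, one_mul, MonoidAlgebra.single_mul_single, one_mul,
        ← mul_assoc, ← pow_succ']
      abel
  have hx' : ∀ x : MonoidAlgebra ℤ G, ∃ u : MonoidAlgebra ℤ G,
      x - MonoidAlgebra.ofCoeff (Finsupp.mapDomain σ x.coeff) = dd g * u := by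
    intro x
    refine MonoidAlgebra.induction_linear x ?_ ?_ ?_
    · exact ⟨0, by simp⟩
    · rintro x y ⟨u, hu⟩ ⟨v, hv⟩
      refine ⟨u + v, ?_⟩
      rw [mul_add, ← hu, ← hv, MonoidAlgebra.coeff_add, Finsupp.mapDomain_add]
      change x + y - (MonoidAlgebra.ofCoeff (Finsupp.mapDomain σ x.coeff) +
        MonoidAlgebra.ofCoeff (Finsupp.mapDomain σ y.coeff)) = _
      abel
    · intro h r
      obtain ⟨i, hi⟩ := h1 h
      have hm : (orderOf g : ℤ) ≠ 0 := by omega
      have hr0 := Int.emod_nonneg i hm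
      have hgi : g ^ i = g ^ (i % orderOf g).toNat := by
        rw [← zpow_natCast, Int.toNat_of_nonneg hr0, zpow_mod_orderOf]
      rw [hgi] at hi
      obtain ⟨u, hu⟩ := hD (i % orderOf g).toNat (σ h) r
      refine ⟨u, ?_⟩
      rw [← hu, ← hi, MonoidAlgebra.coeff_single, Finsupp.mapDomain_single]
      rfl
  obtain ⟨u, hu⟩ := hx' x
  set x' : MonoidAlgebra ℤ G := MonoidAlgebra.ofCoeff (Finsupp.mapDomain σ x.coeff) with hx'd
  have h3 : nn g (orderOf g) * x' = 0 := by
    have h4 : x' = x - dd g * u := by rw [← hu]; abel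
    rw [h4, mul_sub, hx, ← mul_assoc, nn_mul_dd, zero_mul, sub_zero]
  have hss : ∀ h, σ (σ h) = σ h := by
    intro h
    obtain ⟨i, hi⟩ := h1 h
    conv_rhs => rw [hi, h2]
  have h4 : ∀ h, σ h ≠ h → x'.coeff h = 0 := by
    intro h hh
    change (Finsupp.mapDomain σ x.coeff) h = 0
    refine Finsupp.mapDomain_of_notMem_range _ _ ?_
    rintro ⟨k, rfl⟩
    exact hh (hss k)
  have h5 : x' = 0 := by
    refine MonoidAlgebra.coeff_injective (Finsupp.ext fun h => ?_)
    by_cases hh : σ h = h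
    · have h6 := nn_rep hg h1 h2 x' h4 h
      rw [h3, hh] at h6
      exact h6.symm
    · exact h4 h hh
  exact ⟨u, by rw [← hu, h5, sub_zero]⟩

end

section

variable {P : ℕ → Type} [∀ i, AddCommGroup (P i)]
  [∀ i, Module (MonoidAlgebra ℤ G) (P i)] {d : ∀ i, P (i + 1) →ₗ[MonoidAlgebra ℤ G] P i}
  {ε : P 0 →+ ℤ}

theorem torsionfree (hR : Reso P d ε) (m : ℕ) (hm : ∀ i, m < i → Subsingleton (P i))
    [∀ i, Module.Finite (MonoidAlgebra ℤ G) (P i)]
    [∀ i, Module.Projective (MonoidAlgebra ℤ G) (P i)] (g : G) (hg : 0 < orderOf g) : g = 1 := by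
  obtain ⟨σ, h1, h2⟩ := exists_rep g
  set N := nn g (orderOf g) with hN
  set D := dd g with hD
  have hND : N * D = 0 := nn_mul_dd g
  have hDN : D * N = 0 := dd_mul_nn g
  have fA : ∀ {i : ℕ} (x : P i), D • x = 0 → ∃ u, x = N • u := by
    intro i x hx
    obtain ⟨n0, h0⟩ := exists_retract (G := G) (P i)
    obtain ⟨a, b, hab⟩ := h0 n0 le_rfl
    have hax : D • a x = 0 := by rw [← map_smul, hx, map_zero]
    choose u hu using fun j => free_A hg h1 h2 (a x j) (congrFun hax j)
    refine ⟨b u, ?_⟩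
    rw [← map_smul]
    have h3 : N • u = a x := funext fun j => (hu j).symm
    rw [h3]
    exact (LinearMap.congr_fun hab x).symm
  have fB : ∀ {i : ℕ} (x : P i), N • x = 0 → ∃ u, x = D • u := by
    intro i x hx
    obtain ⟨n0, h0⟩ := exists_retract (G := G) (P i)
    obtain ⟨a, b, hab⟩ := h0 n0 le_rfl
    have hax : N • a x = 0 := by rw [← map_smul, hx, map_zero]
    choose u hu using fun j => free_B hg h1 h2 (a x j) (congrFun hax j)
    refine ⟨b u, ?_⟩
    rw [← map_smul]
    have h3 : D • u = a x := funext fun j => (hu j).symm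
    rw [h3]
    exact (LinearMap.congr_fun hab x).symm
  have key : ∀ j k : ℕ, m ≤ k + j → ∀ y : P (k + 1),
      (D • d k y = 0 → ∃ w, d k y = N • d k w) ∧
      (N • d k y = 0 → ∃ w, d k y = D • d k w) := by
    intro j
    induction j with
    | zero =>
      intro k hk y
      have := hm (k + 1) (by omega)
      have hy : d k y = 0 := by rw [Subsingleton.elim y 0, map_zero]
      exact ⟨fun _ => ⟨0, by rw [hy, map_zero, smul_zero]⟩,
        fun _ => ⟨0, by rw [hy, map_zero, smul_zero]⟩⟩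
    | succ j ih =>
      intro k hk y
      have ih' := ih (k + 1) (by omega)
      constructor
      · intro hy
        rw [← map_smul] at hy
        obtain ⟨v, hv⟩ := (hR.ex k _).1 hy
        obtain ⟨w, hw⟩ := (ih' v).2 (by rw [hv, ← mul_smul, hND, zero_smul])
        rw [hv] at hw
        obtain ⟨u, hu⟩ := fA (y - d (k + 1) w) (by rw [smul_sub, hw, sub_self])
        refine ⟨u, ?_⟩
        rw [← map_smul, ← hu, map_sub, hR.dd, sub_zero]
      · intro hy
        rw [← map_smul] at hy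
        obtain ⟨v, hv⟩ := (hR.ex k _).1 hy
        obtain ⟨w, hw⟩ := (ih' v).1 (by rw [hv, ← mul_smul, hDN, zero_smul])
        rw [hv] at hw
        obtain ⟨u, hu⟩ := fB (y - d (k + 1) w) (by rw [smul_sub, hw, sub_self])
        refine ⟨u, ?_⟩
        rw [← map_smul, ← hu, map_sub, hR.dd, sub_zero]
  have hεs : ∀ (r : RR G) (x : P 0), ε (r • x) = eps r * ε x := by
    intro r x
    induction r using rr_ind with
    | h1 g => rw [hR.equi, eps_of, one_mul]
    | h2 a b ha hb => rw [add_smul, map_add, ha, hb, map_add, add_mul]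
    | h3 a ha => rw [neg_smul, map_neg, ha, map_neg, neg_mul]
  obtain ⟨x0, hx0⟩ := hR.surj 1
  obtain ⟨v, hv⟩ := (hR.ex0 (D • x0)).1 (by rw [hεs, hD, eps_dd, zero_mul])
  obtain ⟨w, hw⟩ := (key m 0 (by omega) v).2 (by rw [hv, ← mul_smul, hND, zero_smul])
  rw [hv] at hw
  obtain ⟨u, hu⟩ := fA (x0 - d 0 w) (by rw [smul_sub, hw, sub_self])
  have h3 := congrArg ε hu
  have h6 : ε (d 0 w) = 0 := (hR.ex0 _).2 ⟨w, rfl⟩
  rw [map_sub, h6, sub_zero, hx0, hεs, hN, eps_nn] at h3
  have h4 : orderOf g = 1 := by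
    have h5 : (orderOf g : ℤ) ∣ 1 := ⟨_, h3⟩
    exact_mod_cast Nat.dvd_one.1 (by exact_mod_cast h5)
  exact orderOf_eq_one_iff.1 h4

end

end Pool.Agent.J4H59.PD
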