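import Pool.Agent.J4H59.PD.Main1
import Pool.Agent.J4H59.PD.Tor
import Pool.Agent.J4H59.PD.Grp

/-!
# Finitely generated commensurated subgroups of `PD_3`-groups
-/

set_option autoImplicit false
set_option linter.unusedSectionVars false

open scoped Classical

namespace Pool.Agent.J4H59.PD

open Pool.Agent.Helper386.PD3 Pool.Agent.Helper158

variable {G : Type} [Group G]

section

variable {P : ℕ → Type} [∀ i, AddCommGroup (P i)]
  [∀ i, Module (MonoidAlgebra ℤ G) (P i)] {d : ∀ i, P (i + 1) →ₗ[MonoidAlgebra ℤ G] P i}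
  {ε : P 0 →+ ℤ}

theorem main (hR : Reso P d ε) (m : ℕ) (hm : ∀ i, m < i → Subsingleton (P i))
    [∀ i, Module.Finite (MonoidAlgebra ℤ G) (P i)]
    [∀ i, Module.Projective (MonoidAlgebra ℤ G) (P i)]
    (hcoh : ∀ i, i ≠ 3 → Subsingleton (groupCohomology (Rep.leftRegular ℤ G) i))
    (htop : Nonempty (groupCohomology (Rep.leftRegular ℤ G) 3 ≃+ ℤ))
    (U : Subgroup G) (hfg : U.FG) (hU : U ≠ ⊥)
    (hcomm : ∀ g : G, (U.comap (MulAut.conj g).toMonoidHom).relIndex U ≠ 0)
    (t : G) (hn : t ∈ Subgroup.normalizer (U : Set G)) (ht : ∀ k : ℤ, k ≠ 0 → t ^ k ∉ U) :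
    Nonempty (U ≃* Multiplicative ℤ) ∨ (U ⊔ Subgroup.zpowers t).FiniteIndex := by
  by_cases hH : (U ⊔ Subgroup.zpowers t).index = 0
  · left
    obtain ⟨w, n, e0, e1, e2, e3, d0, d1, d2, hF⟩ := exists_full hR m hm hcoh htop
    have htf : ∀ (x : G) (k : ℕ), k ≠ 0 → x ^ k = 1 → x = 1 := by
      intro x k hk hx
      refine torsionfree hR m hm x ?_
      rw [orderOf_pos_iff]
      exact isOfFinOrder_iff_pow_eq_one.2 ⟨k, Nat.pos_of_ne_zero hk, hx⟩
    obtain ⟨⟨u, huU⟩, hu'⟩ := Subgroup.ne_bot_iff_exists_ne_one.1 hU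
    have hu : u ≠ 1 := fun h => hu' (Subtype.ext h)
    have ha : (u : G) ^ 2 ≠ 1 := fun h => hu (htf _ 2 (by norm_num) h)
    have haU : (u : G) ^ 2 ∈ U := U.pow_mem huU 2
    have hwa : w ((u : G) ^ 2) = 1 := by
      rw [map_pow]
      exact Int.units_sq _
    have h1 := relIndex_ne_zero hF hcomm hfg hn ht hH haU hwa ha
    refine int_of_index_ne_zero (U := U) (a := ⟨(u : G) ^ 2, haU⟩) ?_ ?_ ?_
    · intro x k hk hx
      apply Subtype.ext
      exact htf x k hk (congrArg Subtype.val hx)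
    · intro h
      exact ha (congrArg Subtype.val h)
    · have h2 : Subgroup.zpowers (⟨(u : G) ^ 2, haU⟩ : U) =
          (Subgroup.zpowers ((u : G) ^ 2)).subgroupOf U := by
        ext x
        rw [Subgroup.mem_subgroupOf, Subgroup.mem_zpowers_iff, Subgroup.mem_zpowers_iff]
        constructor
        · rintro ⟨k, hk⟩
          exact ⟨k, by rw [← hk]; rfl⟩
        · rintro ⟨k, hk⟩
          exact ⟨k, Subtype.ext hk⟩
      rw [h2]
      exact h1
  · right
    exact ⟨hH⟩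

end

end Pool.Agent.J4H59.PD
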