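import Pool.Agent.J4H59.PD.Main2
import Pool.Agent.J4H59.PD.LineC
import Pool.Agent.J4H59.PD.Geo

/-!
# Finitely generated commensurated subgroups of `PD_3`-groups, continued
-/

set_option autoImplicit false
set_option linter.unusedSectionVars false

open scoped Classical

namespace Pool.Agent.J4H59.PD

open Pool.Agent.Helper386.PD3 Pool.Agent.Helper158

noncomputable section

variable {G : Type} [Group G] {U : Subgroup G}

/-- A line in the normaliser of `U`. -/
structure Ln (U : Subgroup G) where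
  /-- points -/
  h : ℤ → G
  /-- steps -/
  st : ℤ → G
  /-- the set of all steps -/
  S : Finset G
  hst : ∀ k, st k ∈ S
  hS : ∀ s ∈ S, s ∈ Subgroup.normalizer (U : Set G)
  hh : ∀ k, h (k + 1) = st k * h k
  hn : ∀ k, h k ∈ Subgroup.normalizer (U : Set G)
  hj : ∀ g : G, ∃ J : ℕ, ∀ k l : ℤ, g • (h k : G ⧸ U) = (h l : G ⧸ U) → k ≤ l + J ∧ l ≤ k + J
  hinj : ∀ k l, (h k : G ⧸ U) = (h l : G ⧸ U) → k = l

/-- the positive ray -/
def Ln.pos (v : Ln U) : Ray U where
  h k := v.h k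
  st k := v.st k
  S := v.S
  hst k := v.hst k
  hS := v.hS
  hh k := by
    push_cast
    exact v.hh k
  hn k := v.hn k
  hj g := by
    obtain ⟨J, hJ⟩ := v.hj g
    refine ⟨J, fun k l hkl => ?_⟩
    have := hJ k l hkl
    omega
  hinj k l hkl := by
    have := v.hinj k l hkl
    omega

/-- the negative ray -/
def Ln.neg (v : Ln U) : Ray U where
  h k := v.h (-(k : ℤ))
  st k := (v.st (-(k : ℤ) - 1))⁻¹
  S := v.S.image fun s => s⁻¹
  hst k := Finset.mem_image_of_mem _ (v.hst _)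
  hS s hs := by
    obtain ⟨t, ht, rfl⟩ := Finset.mem_image.1 hs
    exact Subgroup.inv_mem _ (v.hS t ht)
  hh k := by
    have h1 := v.hh (-(k : ℤ) - 1)
    rw [sub_add_cancel] at h1
    have h2 : -((k + 1 : ℕ) : ℤ) = -(k : ℤ) - 1 := by push_cast; ring
    rw [h2, h1, inv_mul_cancel_left]
  hn k := v.hn _
  hj g := by
    obtain ⟨J, hJ⟩ := v.hj g
    refine ⟨J, fun k l hkl => ?_⟩
    have := hJ _ _ hkl
    omega
  hinj k l hkl := by
    have := v.hinj _ _ hkl
    omega

/-- If there is a line in the normaliser of `U` such that no finitely many translates cover the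
normaliser, then each nontrivial element of `U` in the kernel of the orientation character
generates a subgroup of finite index. -/
theorem relIndex_ne_zero' {n : ℕ} {w : G →* ℤˣ} {e0 e1 e2 e3 d0 d1 d2 : MR G n}
    (h : Full w e0 e1 e2 e3 d0 d1 d2) (hcomm : ∀ g, (cj g U).relIndex U ≠ 0)
    (hfg : U.FG) (v : Ln U)
    (hC : ∀ T : Finset G, ∃ z ∈ Subgroup.normalizer (U : Set G), ∀ g ∈ T, ∀ k : ℤ,
      g⁻¹ • (z : G ⧸ U) ≠ (v.h k : G ⧸ U))
    {a : G} (haU : a ∈ U) (hwa : w a = 1) (ha : a ≠ 1) : (Subgroup.zpowers a).relIndex U ≠ 0 := by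
  intro hcon
  have hA : Subgroup.zpowers a ≤ U := by rwa [Subgroup.zpowers_le]
  obtain ⟨S, hS⟩ := hfg
  let x : Fin S.card → G := fun i => (S.equivFin.symm i : G)
  have hx : Subgroup.closure (Set.range x) = U := by
    have h1 : Set.range x = (S : Set G) := by
      ext g
      constructor
      · rintro ⟨i, rfl⟩
        exact (S.equivFin.symm i).2
      · intro hg
        refine ⟨S.equivFin ⟨g, hg⟩, ?_⟩
        change ((S.equivFin.symm (S.equivFin ⟨g, hg⟩) : S) : G) = g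
        rw [Equiv.symm_apply_apply]
    rw [h1, hS]
  have hP : AllDer (G := G) (Du w (LR hA v.pos.R).sub) := v.pos.allDer hA x hx
  have hQ : AllDer (G := G) (Du w (LR hA v.neg.R).sub) := v.neg.allDer hA x hx
  have hM : AllDer (G := G) (LR hA (v.pos.R ∪ v.neg.R)).sub := by
    refine allDer_LR hA x hx hcomm hcon _ ?_ ?_
    · rintro c (⟨k, rfl⟩ | ⟨k, rfl⟩)
      · exact ⟨v.h k, v.hn _, rfl⟩
      · exact ⟨v.h (-(k : ℤ)), v.hn _, rfl⟩
    · intro T
      obtain ⟨z, hz, hzT⟩ := hC T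
      refine ⟨z, hz, fun g hg hcon' => ?_⟩
      rcases hcon' with ⟨k, hk⟩ | ⟨k, hk⟩
      · exact hzT g hg k hk.symm
      · exact hzT g hg (-(k : ℤ)) hk.symm
  rw [← LR_sup] at hM
  have hI := glue h (LR hA v.pos.R).sub (LR hA v.neg.R).sub hP hQ hM
  have hposne : v.pos.R.Nonempty := ⟨_, 0, rfl⟩
  have hnegne : v.neg.R.Nonempty := ⟨_, 0, rfl⟩
  have hfin : ∀ g : G, {c | c ∈ v.pos.R ∧ g • c ∈ v.neg.R}.Finite := by
    intro g
    obtain ⟨J, hJ⟩ := v.hj g
    refine ((Finset.finite_toSet (Finset.range (J + 1))).image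
      fun k : ℕ => (v.h k : G ⧸ U)).subset ?_
    rintro _ ⟨⟨k, rfl⟩, ⟨l, hl⟩⟩
    refine ⟨k, ?_, rfl⟩
    have h1 := hJ k (-(l : ℤ)) hl.symm
    rw [Finset.mem_coe, Finset.mem_range]
    omega
  rw [LR_inf hA hposne hnegne hfin] at hI
  obtain ⟨χ, hχ, hχa⟩ := exists_char a ha
  refine not_allDer_famF χ hχ ?_ _ hχa hI
  rintro _ ⟨k, rfl⟩
  change w (a ^ k) = 1
  rw [map_zpow, hwa, one_zpow]

/-- Lines from torsion quotients. -/
theorem exists_Ln {H : Subgroup G} (hUH : U ≤ H) (hHN : H ≤ Subgroup.normalizer (U : Set G))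
    (hH : H.FG) (hinf : U.relIndex H = 0) (htor : ∀ h ∈ H, ∃ n : ℕ, 0 < n ∧ h ^ n ∈ U) :
    ∃ v : Ln U, ∀ T : Finset G, ∃ z ∈ Subgroup.normalizer (U : Set G), ∀ g ∈ T, ∀ k : ℤ,
      g⁻¹ • (z : G ⧸ U) ≠ (v.h k : G ⧸ U) := by
  have hnorm : (U.subgroupOf H).Normal := ⟨fun n hn g => by
    rw [Subgroup.mem_subgroupOf] at hn ⊢
    exact (Subgroup.mem_normalizer_iff.1 (hHN g.2) _).1 hn⟩
  let Q := H ⧸ U.subgroupOf H
  have hQi : Infinite Q := by
    by_contra hfin
    rw [not_infinite_iff_finite] at hfin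
    exact Subgroup.index_ne_zero_of_finite (H := U.subgroupOf H) hinf
  have hQfg : Group.FG Q := by
    have h1 : Group.FG H := (Group.fg_iff_subgroup_fg H).2 hH
    exact Group.fg_of_surjective (f := QuotientGroup.mk' (U.subgroupOf H))
      (QuotientGroup.mk'_surjective _)
  have hQtor : ∀ g : Q, ∃ n : ℕ, 0 < n ∧ g ^ n = 1 := by
    intro g
    induction g using QuotientGroup.induction_on with
    | H a =>
      obtain ⟨n, hn, hn'⟩ := htor a a.2
      refine ⟨n, hn, ?_⟩
      rw [← QuotientGroup.mk_pow, QuotientGroup.eq_one_iff, Subgroup.mem_subgroupOf]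
      exact hn'
  obtain ⟨S, q, st, hst, hq, hj, hinj, hT⟩ := exists_line hQfg hQtor
  obtain ⟨h, h0, hh⟩ := exists_rec (H := H) (fun k => Quotient.out (st k)) (Quotient.out (q 0))
  have hmk : ∀ k, (QuotientGroup.mk (h k) : Q) = q k := by
    have hout : ∀ y : Q, (QuotientGroup.mk (Quotient.out y : H) : Q) = y :=
      fun y => Quotient.out_eq' y
    intro k
    induction k using Int.induction_on with
    | zero => rw [h0]; exact hout _
    | succ k ih =>
      rw [hh, QuotientGroup.mk_mul, ih, hout, hq]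
    | pred k ih =>
      have h1 := hh (-(k : ℤ) - 1)
      have h2 := hq (-(k : ℤ) - 1)
      rw [sub_add_cancel] at h1 h2
      rw [h1, QuotientGroup.mk_mul, hout, h2] at ih
      exact mul_left_cancel ih
  -- comparison of cosets
  have hcos : ∀ (g : G) (a b : H), g • ((a : G) : G ⧸ U) = ((b : G) : G ⧸ U) →
      ∃ hg : g ∈ H, (QuotientGroup.mk (⟨g, hg⟩ * a : H) : Q) = QuotientGroup.mk b := by
    intro g a b hab
    have hab : ((g * a : G) : G ⧸ U) = ((b : G) : G ⧸ U) := hab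
    rw [QuotientGroup.eq] at hab
    have hg : g ∈ H := by
      have h1 : g = b * ((g * a)⁻¹ * b)⁻¹ * (a : G)⁻¹ := by group
      rw [h1]
      exact H.mul_mem (H.mul_mem b.2 (H.inv_mem (hUH hab))) (H.inv_mem a.2)
    refine ⟨hg, ?_⟩
    rw [QuotientGroup.eq, Subgroup.mem_subgroupOf]
    exact hab
  let v : Ln U :=
    { h := fun k => (h k : G)
      st := fun k => ((Quotient.out (st k) : H) : G)
      S := S.image fun s => ((Quotient.out s : H) : G)
      hst := fun k => Finset.mem_image_of_mem _ (hst k)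
      hS := by
        intro s hs
        obtain ⟨t, -, rfl⟩ := Finset.mem_image.1 hs
        exact hHN (Quotient.out t : H).2
      hh := fun k => congrArg Subtype.val (hh k)
      hn := fun k => hHN (h k).2
      hj := by
        intro g
        by_cases hg : g ∈ H
        · obtain ⟨J, hJ⟩ := hj (QuotientGroup.mk ⟨g, hg⟩)
          refine ⟨J, fun k l hkl => hJ k l ?_⟩
          obtain ⟨hg', h1⟩ := hcos g (h k) (h l) hkl
          rw [QuotientGroup.mk_mul, hmk, hmk] at h1
          exact h1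
        · exact ⟨0, fun k l hkl => absurd (hcos g (h k) (h l) hkl).choose hg⟩
      hinj := by
        intro k l hkl
        obtain ⟨hg', h1⟩ := hcos 1 (h k) (h l) (by rw [one_smul]; exact hkl)
        rw [QuotientGroup.mk_mul, hmk, hmk] at h1
        have h2 : (QuotientGroup.mk (⟨1, hg'⟩ : H) : Q) = 1 := rfl
        rw [h2, one_mul] at h1
        exact hinj k l h1 }
  refine ⟨v, fun T => ?_⟩
  let T' : Finset Q := T.image fun g => if hg : g ∈ H then (QuotientGroup.mk ⟨g, hg⟩ : Q) else 1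
  obtain ⟨z, hz⟩ := hT T'
  refine ⟨((Quotient.out z : H) : G), hHN (Quotient.out z : H).2, fun g hg k hk => ?_⟩
  obtain ⟨hg', h1⟩ := hcos g⁻¹ (Quotient.out z : H) (h k) hk
  have hgH : g ∈ H := by
    have := H.inv_mem hg'
    rwa [inv_inv] at this
  have h2 : (if hg : g ∈ H then (QuotientGroup.mk ⟨g, hg⟩ : Q) else 1) ∈ T' :=
    Finset.mem_image_of_mem _ hg
  rw [dif_pos hgH] at h2
  refine hz _ h2 k ?_
  rw [QuotientGroup.mk_mul, hmk] at h1
  have h3 : (QuotientGroup.mk (Quotient.out z : H) : Q) = z := Quotient.out_eq' z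
  have h4 : (QuotientGroup.mk (⟨g⁻¹, hg'⟩ : H) : Q) = (QuotientGroup.mk (⟨g, hgH⟩ : H) : Q)⁻¹ := rfl
  rw [h3, h4] at h1
  exact h1

section

variable {P : ℕ → Type} [∀ i, AddCommGroup (P i)]
  [∀ i, Module (MonoidAlgebra ℤ G) (P i)] {d : ∀ i, P (i + 1) →ₗ[MonoidAlgebra ℤ G] P i}
  {ε : P 0 →+ ℤ}

theorem main' (hR : Reso P d ε) (m : ℕ) (hm : ∀ i, m < i → Subsingleton (P i))
    [∀ i, Module.Finite (MonoidAlgebra ℤ G) (P i)]
    [∀ i, Module.Projective (MonoidAlgebra ℤ G) (P i)]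
    (hcoh : ∀ i, i ≠ 3 → Subsingleton (groupCohomology (Rep.leftRegular ℤ G) i))
    (htop : Nonempty (groupCohomology (Rep.leftRegular ℤ G) 3 ≃+ ℤ))
    (U : Subgroup G) (hfg : U.FG) (hU : U ≠ ⊥)
    (hcomm : ∀ g : G, (U.comap (MulAut.conj g).toMonoidHom).relIndex U ≠ 0)
    (H : Subgroup G) (hH : H.FG) (hUH : U ≤ H) (hHN : H ≤ Subgroup.normalizer (U : Set G))
    (hinf : U.relIndex H = 0) :
    Nonempty (U ≃* Multiplicative ℤ) ∨
      ∃ t ∈ H, (∀ k : ℤ, k ≠ 0 → t ^ k ∉ U) ∧ (U ⊔ Subgroup.zpowers t).FiniteIndex := by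
  by_cases htor : ∀ h ∈ H, ∃ n : ℕ, 0 < n ∧ h ^ n ∈ U
  · left
    obtain ⟨v, hv⟩ := exists_Ln hUH hHN hH hinf htor
    obtain ⟨w, n, e0, e1, e2, e3, d0, d1, d2, hF⟩ := exists_full hR m hm hcoh htop
    have htf : ∀ (x : G) (k : ℕ), k ≠ 0 → x ^ k = 1 → x = 1 := by
      intro x k hk hx
      refine torsionfree hR m hm x ?_
      rw [orderOf_pos_iff]
      exact isOfFinOrder_iff_pow_eq_one.2 ⟨k, Nat.pos_of_ne_zero hk, hx⟩
    obtain ⟨⟨u, huU⟩, hu'⟩ := Subgroup.ne_bot_iff_exists_ne_one.1 hU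
    have hu : u ≠ 1 := fun h => hu' (Subtype.ext h)
    have ha : (u : G) ^ 2 ≠ 1 := fun h => hu (htf _ 2 (by norm_num) h)
    have haU : (u : G) ^ 2 ∈ U := U.pow_mem huU 2
    have hwa : w ((u : G) ^ 2) = 1 := by
      rw [map_pow]
      exact Int.units_sq _
    have h1 := relIndex_ne_zero' hF hcomm hfg v hv haU hwa ha
    refine int_of_index_ne_zero (U := U) (a := ⟨(u : G) ^ 2, haU⟩) ?_ ?_ ?_
    · intro x k hk hx
      apply Subtype.ext
      exact htf x k hk (congrArg Subtype.val hx)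
    · intro h
      exact ha (congrArg Subtype.val h)
    · have h2 : Subgroup.zpowers (⟨(u : G) ^ 2, haU⟩ : U) =
          (Subgroup.zpowers ((u : G) ^ 2)).subgroupOf U := by
        ext x
        rw [Subgroup.mem_subgroupOf, Subgroup.mem_zpowers_iff, Subgroup.mem_zpowers_iff]
        constructor
        · rintro ⟨k, hk⟩
          exact ⟨k, by rw [← hk]; rfl⟩
        · rintro ⟨k, hk⟩
          exact ⟨k, Subtype.ext hk⟩
      rw [h2]
      exact h1
  · push Not at htor
    obtain ⟨t, htH, ht⟩ := htor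
    have ht' : ∀ k : ℤ, k ≠ 0 → t ^ k ∉ U := by
      intro k hk hkU
      rcases Int.natAbs_eq k with h | h
      · rw [h, zpow_natCast] at hkU
        exact ht k.natAbs (Int.natAbs_pos.2 hk) hkU
      · rw [h, zpow_neg, zpow_natCast] at hkU
        have := U.inv_mem hkU
        rw [inv_inv] at this
        exact ht k.natAbs (Int.natAbs_pos.2 hk) this
    rcases main hR m hm hcoh htop U hfg hU hcomm t (hHN htH) ht' with h | h
    · exact Or.inl h
    · exact Or.inr ⟨t, htH, ht', h⟩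

end

end

end Pool.Agent.J4H59.PD
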