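import Pool.Agent.J4H59.PD.Main3
import Pool.Agent.J4H59.PD.Fg

/-!
# Finitely generated commensurated and normal subgroups of `PD_3`-groups
-/

set_option autoImplicit false
set_option linter.unusedSectionVars false

open scoped Classical

namespace Pool.Agent.J4H59.PD

open Pool.Agent.Helper386.PD3 Pool.Agent.Helper158

noncomputable section

variable {G : Type} [Group G]

variable {P : ℕ → Type} [∀ i, AddCommGroup (P i)]
  [∀ i, Module (MonoidAlgebra ℤ G) (P i)] {d : ∀ i, P (i + 1) →ₗ[MonoidAlgebra ℤ G] P i}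
  {ε : P 0 →+ ℤ}

theorem fg_of_reso (hR : Reso P d ε) (m : ℕ) (hm : ∀ i, m < i → Subsingleton (P i))
    [∀ i, Module.Finite (MonoidAlgebra ℤ G) (P i)]
    [∀ i, Module.Projective (MonoidAlgebra ℤ G) (P i)]
    (hcoh : ∀ i, i ≠ 3 → Subsingleton (groupCohomology (Rep.leftRegular ℤ G) i))
    (htop : Nonempty (groupCohomology (Rep.leftRegular ℤ G) 3 ≃+ ℤ)) : Group.FG G := by
  obtain ⟨w, n, e0, e1, e2, e3, d0, d1, d2, hF⟩ := exists_full hR m hm hcoh htop
  exact fg_of_low hF.low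

theorem main'' (hR : Reso P d ε) (m : ℕ) (hm : ∀ i, m < i → Subsingleton (P i))
    [∀ i, Module.Finite (MonoidAlgebra ℤ G) (P i)]
    [∀ i, Module.Projective (MonoidAlgebra ℤ G) (P i)]
    (hcoh : ∀ i, i ≠ 3 → Subsingleton (groupCohomology (Rep.leftRegular ℤ G) i))
    (htop : Nonempty (groupCohomology (Rep.leftRegular ℤ G) 3 ≃+ ℤ))
    (U : Subgroup G) (hfg : U.FG) (hU : U ≠ ⊥)
    (hcomm : ∀ g : G, (U.comap (MulAut.conj g).toMonoidHom).relIndex U ≠ 0)
    (H : Subgroup G) (hH : H ≠ ⊤ → H.FG) (hUH : U ≤ H)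
    (hHN : H ≤ Subgroup.normalizer (U : Set G)) (hinf : U.relIndex H = 0) :
    Nonempty (U ≃* Multiplicative ℤ) ∨
      ∃ t ∈ H, (∀ k : ℤ, k ≠ 0 → t ^ k ∉ U) ∧ (U ⊔ Subgroup.zpowers t).FiniteIndex := by
  have hH' : H.FG := by
    by_cases h : H = ⊤
    · rw [h]
      exact (Group.fg_def.1 (fg_of_reso hR m hm hcoh htop))
    · exact hH h
  exact main' hR m hm hcoh htop U hfg hU hcomm H hH' hUH hHN hinf

/-- the case of normal subgroups -/
theorem main_normal (hR : Reso P d ε) (m : ℕ) (hm : ∀ i, m < i → Subsingleton (P i))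
    [∀ i, Module.Finite (MonoidAlgebra ℤ G) (P i)]
    [∀ i, Module.Projective (MonoidAlgebra ℤ G) (P i)]
    (hcoh : ∀ i, i ≠ 3 → Subsingleton (groupCohomology (Rep.leftRegular ℤ G) i))
    (htop : Nonempty (groupCohomology (Rep.leftRegular ℤ G) 3 ≃+ ℤ))
    (N : Subgroup G) (hN : N.Normal) (hfg : N.FG) (hN1 : N ≠ ⊥) (hinf : N.index = 0) :
    Nonempty (N ≃* Multiplicative ℤ) ∨
      ∃ t : G, (∀ k : ℤ, k ≠ 0 → t ^ k ∉ N) ∧ (N ⊔ Subgroup.zpowers t).FiniteIndex := by
  have hcomm : ∀ g : G, (N.comap (MulAut.conj g).toMonoidHom).relIndex N ≠ 0 := by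
    intro g
    have h1 : N.comap (MulAut.conj g).toMonoidHom = N := by
      ext x
      constructor
      · intro hx
        have h2 : g * x * g⁻¹ ∈ N := hx
        have h3 := hN.conj_mem _ h2 g⁻¹
        have h4 : g⁻¹ * (g * x * g⁻¹) * g⁻¹⁻¹ = x := by group
        rwa [h4] at h3
      · intro hx
        exact hN.conj_mem x hx g
    rw [h1, Subgroup.relIndex_self]
    exact one_ne_zero
  rcases main'' hR m hm hcoh htop N hfg hN1 hcomm ⊤ (fun h => absurd rfl h) le_top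
    (by rw [Subgroup.normalizer_eq_top_iff.2 hN]) (by rw [Subgroup.relIndex_top_right, hinf])
    with h | ⟨t, -, ht, h⟩
  · exact Or.inl h
  · exact Or.inr ⟨t, ht, h⟩

end

end Pool.Agent.J4H59.PD
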