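import Pool.Agent.J4H59.PD.Fn

/-!
# Derivations with values in the module of functions with support finite in each level
-/

set_option autoImplicit false
set_option linter.unusedSectionVars false

open scoped Classical

namespace Pool.Agent.J4H59.PD

open Pool.Agent.Helper386.PD3

noncomputable section

variable {G : Type} [Group G] {A N : Subgroup G} {t : G} {C : Type} [MulAction G C]

theorem der_one {M : Type} [AddCommGroup M] [Module (RR G) M] {δ : G → M}
    (hδ : ∀ g h, δ (g * h) = δ g + gof g • δ h) : δ 1 = 0 := by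
  have h := hδ 1 1
  rw [mul_one, gof_one, one_smul] at h
  simpa using h

theorem der_inv {M : Type} [AddCommGroup M] [Module (RR G) M] {δ : G → M}
    (hδ : ∀ g h, δ (g * h) = δ g + gof g • δ h) (g : G) : δ g⁻¹ = -(gof g⁻¹ • δ g) := by
  have h := hδ g⁻¹ g
  rw [inv_mul_cancel, der_one hδ] at h
  rw [eq_neg_iff_add_eq_zero]
  exact h.symm

theorem der_sub {M : Type} [AddCommGroup M] [Module (RR G) M] {δ : G → M}
    (hδ : ∀ g h, δ (g * h) = δ g + gof g • δ h) (μ : M) (g h : G) :
    (δ (g * h) - (gof (g * h) • μ - μ)) =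
      (δ g - (gof g • μ - μ)) + gof g • (δ h - (gof h • μ - μ)) := by
  rw [hδ, smul_sub, smul_sub, gof_mul, mul_smul]
  abel

/-- conjugate subgroups: the preimage of `V` under the conjugation by `g` -/
def cj (g : G) (V : Subgroup G) : Subgroup G := V.comap (MulAut.conj g).toMonoidHom

theorem mem_cj (g : G) (V : Subgroup G) (x : G) : x ∈ cj g V ↔ g * x * g⁻¹ ∈ V := Iff.rfl

theorem cj_relIndex {N V : Subgroup G} (hcomm : ∀ g, (cj g N).relIndex N ≠ 0)
    (hV : V.relIndex N ≠ 0) (g : G) : (cj g V).relIndex N ≠ 0 := by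
  refine Subgroup.relIndex_ne_zero_trans (K := cj g N) ?_ (hcomm g)
  change (V.comap (MulAut.conj g).toMonoidHom).relIndex (N.comap (MulAut.conj g).toMonoidHom) ≠ 0
  rw [Subgroup.relIndex_comap, Subgroup.map_comap_eq_self_of_surjective]
  · exact hV
  · exact (MulAut.conj g).surjective

theorem finite_orbit {N : Subgroup G} {c : C} (h : (MulAction.stabilizer G c).relIndex N ≠ 0) :
    {c' | ∃ n ∈ N, c' = n • c}.Finite := by
  have h1 : (MulAction.stabilizer N c).index ≠ 0 := h
  have h2 : Finite (N ⧸ MulAction.stabilizer N c) := by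
    have : (MulAction.stabilizer N c).FiniteIndex := ⟨h1⟩
    infer_instance
  have h3 : Finite (MulAction.orbit N c) :=
    Finite.of_equiv _ (MulAction.orbitEquivQuotientStabilizer N c).symm
  refine (Set.toFinite (MulAction.orbit N c)).subset ?_
  rintro _ ⟨n, hn, rfl⟩
  exact ⟨⟨n, hn⟩, rfl⟩

/-- Every derivation with values in the functions with support over a finite set and finite in
each level is inner, if `N` is finitely generated, commensurated, and has infinite orbits. -/
theorem Lv.allDer_famM (v : Lv A N t C) {d : ℕ} (x : Fin d → G)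
    (hx : Subgroup.closure (Set.range x) = N) (hcomm : ∀ g, (cj g N).relIndex N ≠ 0)
    (hstab : ∀ c : C, (MulAction.stabilizer G c).relIndex N ≠ 0)
    (hC : ∀ (S : Set C), S.Finite → ∀ c : C, ∃ q : G, q⁻¹ • c ∉ S)
    (horb : ∀ V : Subgroup G, V.relIndex N ≠ 0 → ∀ y : G ⧸ A,
      {z | ∃ n ∈ V, z = n • y ∧ v.π z = v.π y ∧ v.L z = v.L y}.Infinite) :
    AllDer (G := G) v.famM.sub := by
  intro δ hδ
  -- the finite set of bad points
  let S0 : Set C := ⋃ i, v.π '' (supp (δ (x i) : Fn A))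
  have hS0 : S0.Finite := Set.finite_iUnion fun i => (δ (x i)).2.1
  let S : Set C := ⋃ c ∈ S0, {c' | ∃ n ∈ N, c' = n • c}
  have hS : S.Finite := hS0.biUnion fun c _ => finite_orbit (hstab c)
  have hSN : ∀ n ∈ N, ∀ c, c ∉ S → n • c ∉ S := by
    intro n hn c hc hcon
    apply hc
    obtain ⟨c', hc', n', hn', h⟩ := Set.mem_iUnion₂.1 hcon
    refine Set.mem_iUnion₂.2 ⟨c', hc', n⁻¹ * n', N.mul_mem (N.inv_mem hn) hn', ?_⟩
    rw [mul_smul, ← h, inv_smul_smul]
  have hout : ∀ n ∈ N, ∀ y : G ⧸ A, v.π y ∉ S → (δ n : Fn A) y = 0 := by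
    intro n hn
    rw [← hx] at hn
    induction hn using Subgroup.closure_induction with
    | mem n hn =>
      obtain ⟨i, rfl⟩ := hn
      intro y hy
      by_contra hcon
      refine hy (Set.mem_iUnion₂.2 ⟨v.π y, Set.mem_iUnion.2 ⟨i, y, hcon, rfl⟩, 1, N.one_mem, ?_⟩)
      rw [one_smul]
    | one =>
      intro y _
      rw [der_one hδ]
      rfl
    | mul n n' hn hn' h h' =>
      intro y hy
      rw [hδ, Submodule.coe_add, Submodule.coe_smul, add_apply, gof_apply, h y hy, zero_add]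
      apply h'
      rw [v.hπ]
      exact hSN _ (N.inv_mem (hx ▸ hn)) _ hy
    | inv n hn h =>
      intro y hy
      rw [der_inv hδ, Submodule.coe_neg, Submodule.coe_smul, neg_apply, gof_apply, h, neg_zero]
      rw [v.hπ, inv_inv]
      exact hSN _ (hx ▸ hn) _ hy
  choose q hq using hC S hS
  -- the function
  let m : Fn A := fun y => if v.π y ∈ S then -(δ (q (v.π y)) : Fn A) y else 0
  have hm : v.MM (supp m) := by
    refine ⟨hS.subset ?_, fun c k => ?_⟩
    · rintro _ ⟨y, hy, rfl⟩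
      by_contra hcon
      exact hy (if_neg hcon)
    · refine ((δ (q c)).2.2 c k).subset ?_
      rintro y ⟨hy, hyc, hyk⟩
      refine ⟨?_, hyc, hyk⟩
      intro h
      apply hy
      change (if v.π y ∈ S then -(δ (q (v.π y)) : Fn A) y else 0) = 0
      rw [hyc, h, neg_zero, ite_self]
  -- the subgroup of finite index
  have hSf : Finite S := hS
  let W : Subgroup G := N ⊓ ⨅ c : S, (MulAction.stabilizer G (c : C) ⊓ cj (q c)⁻¹ N)
  have hWi : W.relIndex N ≠ 0 := by
    refine Subgroup.relIndex_inf_ne_zero ?_ (Subgroup.relIndex_iInf_ne_zero fun c =>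
      Subgroup.relIndex_inf_ne_zero (hstab c) (hcomm _))
    rw [Subgroup.relIndex_self]
    exact one_ne_zero
  have hWN : ∀ n ∈ W, n ∈ N := fun n hn => hn.1
  have hWs : ∀ n ∈ W, ∀ c ∈ S, n • c = c := by
    intro n hn c hc
    exact ((Subgroup.mem_iInf.1 hn.2) ⟨c, hc⟩).1
  have hWc : ∀ n ∈ W, ∀ c ∈ S, (q c)⁻¹ * n * q c ∈ N := by
    intro n hn c hc
    have h1 : n ∈ cj (q c)⁻¹ N := ((Subgroup.mem_iInf.1 hn.2) ⟨c, hc⟩).2
    rw [mem_cj, inv_inv] at h1
    exact h1
  have hmN : ∀ n ∈ W, ∀ y, (δ n : Fn A) y = m (n⁻¹ • y) - m y := by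
    intro n hn y
    change _ = (if v.π (n⁻¹ • y) ∈ S then -(δ (q (v.π (n⁻¹ • y))) : Fn A) (n⁻¹ • y) else 0) -
      (if v.π y ∈ S then -(δ (q (v.π y)) : Fn A) y else 0)
    by_cases hy : v.π y ∈ S
    · have hπ : v.π (n⁻¹ • y) = v.π y := by
        rw [v.hπ, hWs _ (W.inv_mem hn) _ hy]
      rw [hπ, if_pos hy, if_pos hy]
      have hn' := hWc n hn _ hy
      generalize hqq : q (v.π y) = p at hn'
      have hp : p⁻¹ • v.π y ∉ S := by rw [← hqq]; exact hq _
      have e1 : δ (n * p) = δ n + gof n • δ p := hδ _ _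
      have e2 : δ (n * p) = δ p + gof p • δ (p⁻¹ * n * p) := by
        rw [← hδ]
        congr 1
        group
      have e3 : (δ n : Fn A) y + (δ p : Fn A) (n⁻¹ • y) =
          (δ p : Fn A) y + (δ (p⁻¹ * n * p) : Fn A) (p⁻¹ • y) := by
        have e4 := congrArg (fun f : v.famM.sub => (f : Fn A) y) (e1.symm.trans e2)
        simp only [Submodule.coe_add, Submodule.coe_smul, add_apply, gof_apply] at e4
        exact e4
      rw [hout _ hn' (p⁻¹ • y) (by rw [v.hπ]; exact hp), add_zero] at e3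
      linarith
    · have hy' : v.π (n⁻¹ • y) ∉ S := by
        rw [v.hπ]
        exact hSN _ (N.inv_mem (hWN n hn)) _ hy
      rw [if_neg hy, if_neg hy', hout n (hWN n hn) y hy, sub_zero]
  let μ : v.famM.sub := ⟨m, hm⟩
  refine ⟨μ, ?_⟩
  -- the difference vanishes on `W`
  let δ' : G → v.famM.sub := fun g => δ g - (gof g • μ - μ)
  have hδ' : ∀ g h, δ' (g * h) = δ' g + gof g • δ' h := der_sub hδ μ
  have hδN : ∀ n ∈ W, δ' n = 0 := by
    intro n hn
    apply Subtype.ext
    refine fn_ext fun y => ?_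
    change (δ n : Fn A) y - ((gof n • m) y - m y) = 0
    rw [gof_apply, hmN n hn y]
    ring
  intro g
  rw [← sub_eq_zero]
  change δ' g = 0
  have hinv : ∀ n ∈ W ⊓ cj g⁻¹ W, gof n • δ' g = δ' g := by
    rintro n ⟨hn, hn'⟩
    have hn' : g⁻¹ * n * g ∈ W := by
      have h1 : n ∈ cj g⁻¹ W := hn'
      rw [mem_cj, inv_inv] at h1
      exact h1
    have e1 : δ' (n * g) = δ' n + gof n • δ' g := hδ' _ _
    have e2 : δ' (n * g) = δ' g + gof g • δ' (g⁻¹ * n * g) := by
      rw [← hδ']
      congr 1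
      group
    rw [hδN n hn, zero_add] at e1
    rw [hδN _ hn', smul_zero, add_zero] at e2
    rw [← e1, e2]
  apply Subtype.ext
  refine fn_ext fun y => ?_
  by_contra hcon
  have hcon : (δ' g : Fn A) y ≠ 0 := hcon
  refine horb (W ⊓ cj g⁻¹ W) (Subgroup.relIndex_inf_ne_zero hWi (cj_relIndex hcomm hWi _)) y
    (((δ' g).2.2 (v.π y) (v.L y)).subset ?_)
  rintro z ⟨n, hn, hz, hzπ, hzL⟩
  refine ⟨?_, hzπ, hzL⟩
  rw [mem_supp]
  have h1 : (δ' g : Fn A) y = (δ' g : Fn A) (n • y) := by
    have h2 := congrArg (fun f : v.famM.sub => (f : Fn A) y) (hinv _ (Subgroup.inv_mem _ hn))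
    simp only [Submodule.coe_smul, gof_apply, inv_inv] at h2
    exact h2.symm
  rw [hz, ← h1]
  exact hcon

end

end Pool.Agent.J4H59.PD
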