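import Pool.Agent.J4H59.PD.PartA

/-!
# Derivations with values in the characters of the functions bounded below
-/

set_option autoImplicit false
set_option linter.unusedSectionVars false

open scoped Classical

namespace Pool.Agent.J4H59.PD

open Pool.Agent.Helper386.PD3

noncomputable section

/-- a fixed point lemma in complete filtered groups -/
theorem exists_fix {W : Type} [AddCommGroup W] (F : ℤ → AddSubgroup W)
    (hmono : ∀ k, F (k + 1) ≤ F k)
    (hsep : ∀ (B : ℤ) (w : W), (∀ l : ℕ, w ∈ F (B + l)) → w = 0)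
    (hcomp : ∀ (B : ℤ) (u : ℕ → W), (∀ k : ℕ, u k ∈ F (B + k)) →
      ∃ s, ∀ l : ℕ, s - ∑ k ∈ Finset.range l, u k ∈ F (B + l))
    (Z : W →+ W) (hZ : ∀ k, ∀ w ∈ F k, Z w ∈ F (k + 1)) (B : ℤ) (c : W) (hc : c ∈ F B) :
    ∃ s ∈ F B, s - Z s = c := by
  let u : ℕ → W := fun k => (Z^[k]) c
  have hu : ∀ k : ℕ, u k ∈ F (B + k) := by
    intro k
    induction k with
    | zero => simpa [u] using hc
    | succ k ih =>
      have h1 : u (k + 1) = Z (u k) := Function.iterate_succ_apply' _ _ _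
      rw [h1]
      have h2 := hZ _ _ ih
      have h3 : B + ((k + 1 : ℕ) : ℤ) = B + k + 1 := by push_cast; ring
      rw [h3]
      exact h2
  obtain ⟨s, hs⟩ := hcomp B u hu
  refine ⟨s, ?_, ?_⟩
  · have := hs 0
    simpa using this
  · rw [← sub_eq_zero]
    refine hsep B _ fun l => ?_
    have h1 : (∑ k ∈ Finset.range l, u k) - Z (∑ k ∈ Finset.range l, u k) = c - u l := by
      induction l with
      | zero => simp [u]
      | succ l ih =>
        rw [Finset.sum_range_succ, map_add]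
        have h2 : u (l + 1) = Z (u l) := Function.iterate_succ_apply' _ _ _
        rw [h2]
        have h3 : ∑ x ∈ Finset.range l, u x + u l - (Z (∑ x ∈ Finset.range l, u x) + Z (u l)) =
          (∑ x ∈ Finset.range l, u x - Z (∑ x ∈ Finset.range l, u x)) + u l - Z (u l) := by abel
        rw [h3, ih]
        abel
    have h2 : s - Z s - c = (s - ∑ k ∈ Finset.range l, u k) -
        Z (s - ∑ k ∈ Finset.range l, u k) - u l := by
      rw [map_sub]
      have h3 : c = (∑ k ∈ Finset.range l, u k) - Z (∑ k ∈ Finset.range l, u k) + u l := by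
        rw [h1]
        abel
      conv_lhs => rw [h3]
      abel
    rw [h2]
    exact (F _).sub_mem ((F _).sub_mem (hs l) (hmono _ (hZ _ _ (hs l)))) (hu l)

variable {G : Type} [Group G] {A N : Subgroup G} {t : G} {C : Type} [MulAction G C]

section

variable (v : Lv A N t C)

/-- support over a point -/
def Lv.Over (c : C) (f : Fn A) : Prop := ∀ y, f y ≠ 0 → v.π y = c

variable {v}

theorem Lv.Over.smul {c : C} {f : Fn A} (h : v.Over c f) (g : G) : v.Over (g • c) (gof g • f) := by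
  intro y hy
  rw [gof_apply] at hy
  rw [← h _ hy, v.hπ, smul_inv_smul]

theorem Lv.over_cut (c : C) (f : Fn A) : v.Over c (cut {y | v.π y = c} f) := by
  intro y hy
  by_contra hcon
  exact hy (cut_of_notMem f hcon)

theorem Lv.Over.cut_eq {c : C} {f : Fn A} (h : v.Over c f) : cut {y | v.π y = c} f = f := by
  refine fn_ext fun y => ?_
  by_cases hy : f y = 0
  · rw [cut_apply, hy, ite_self]
  · exact cut_of_mem f (h y hy)

theorem Lv.Over.cut_ne {c c' : C} {f : Fn A} (h : v.Over c f) (hc : c' ≠ c) :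
    cut {y | v.π y = c'} f = 0 := by
  refine fn_ext fun y => ?_
  rw [zero_apply]
  by_cases hy : f y = 0
  · rw [cut_apply, hy, ite_self]
  · refine cut_of_notMem f fun hy' => hc ?_
    have hy' : v.π y = c' := hy'
    rw [← hy', h y hy]

theorem Lv.Over.eq_zero_of_ne {c : C} {f : Fn A} (h : v.Over c f) {y : G ⧸ A} (hy : v.π y ≠ c) :
    f y = 0 := by
  by_contra hcon
  exact hy (h y hcon)

variable (v)

/-- functions in the module supported over the base point in levels at least `k` -/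
def Lv.FF (k : ℤ) : AddSubgroup v.famP.sub where
  carrier := {f | ∀ y, (f : Fn A) y ≠ 0 → v.π y = v.b ∧ k ≤ v.L y}
  zero_mem' := fun y hy => absurd rfl hy
  add_mem' {f f'} hf hf' y hy := by
    by_cases h : (f : Fn A) y = 0
    · exact hf' y (fun h' => hy (by rw [Submodule.coe_add, add_apply, h, h', add_zero]))
    · exact hf y h
  neg_mem' {f} hf y hy := hf y (fun h => hy (by
    rw [Submodule.coe_neg, neg_apply, h, neg_zero]))

theorem Lv.mem_FF {k : ℤ} {f : v.famP.sub} :
    f ∈ v.FF k ↔ ∀ y, (f : Fn A) y ≠ 0 → v.π y = v.b ∧ k ≤ v.L y := Iff.rfl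

theorem Lv.FF_over {k : ℤ} {f : v.famP.sub} (h : f ∈ v.FF k) : v.Over v.b (f : Fn A) :=
  fun y hy => (h y hy).1

theorem Lv.exists_FF {f : v.famP.sub} (h : v.Over v.b (f : Fn A)) : ∃ B, f ∈ v.FF B := by
  obtain ⟨B, hB⟩ := f.2.2
  exact ⟨B, fun y hy => ⟨h y hy, hB y hy⟩⟩

theorem Lv.FF_mono (k : ℤ) : v.FF (k + 1) ≤ v.FF k := by
  intro f hf y hy
  exact ⟨(hf y hy).1, by have := (hf y hy).2; linarith⟩

theorem Lv.FF_sep (B : ℤ) (f : v.famP.sub) (h : ∀ l : ℕ, f ∈ v.FF (B + l)) : f = 0 := by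
  apply Subtype.ext
  refine fn_ext fun y => ?_
  by_contra hcon
  have h1 := (h (v.L y - B + 1).toNat y hcon).2
  have h2 := Int.self_le_toNat (v.L y - B + 1)
  linarith

theorem Lv.FF_comp (B : ℤ) (u : ℕ → v.famP.sub) (hu : ∀ k : ℕ, u k ∈ v.FF (B + k)) :
    ∃ s, ∀ l : ℕ, s - ∑ k ∈ Finset.range l, u k ∈ v.FF (B + l) := by
  let s : Fn A := fun y => ∑ k ∈ Finset.range (v.L y - B + 1).toNat, (u k : Fn A) y
  have hsum : ∀ (T : Finset ℕ) (y : G ⧸ A),
      ((∑ k ∈ T, u k : v.famP.sub) : Fn A) y = ∑ k ∈ T, (u k : Fn A) y := by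
    intro T y
    induction T using Finset.induction_on with
    | empty => rfl
    | insert a T ha ih =>
      rw [Finset.sum_insert ha, Finset.sum_insert ha, Submodule.coe_add, add_apply, ih]
  have hsb : v.Over v.b s := by
    intro y hy
    obtain ⟨k, _, hk⟩ := Finset.exists_ne_zero_of_sum_ne_zero hy
    exact (hu k y hk).1
  have hsB : ∀ y, s y ≠ 0 → B ≤ v.L y := by
    intro y hy
    obtain ⟨k, _, hk⟩ := Finset.exists_ne_zero_of_sum_ne_zero hy
    have h1 := (hu k y hk).2
    have h2 : (0 : ℤ) ≤ k := Int.natCast_nonneg k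
    linarith
  have hs : s ∈ v.famP.sub := by
    refine ⟨⟨?_, fun c k => ?_⟩, B, hsB⟩
    · refine (Set.finite_singleton v.b).subset ?_
      rintro _ ⟨y, hy, rfl⟩
      exact hsb y hy
    · have h1 : (⋃ i ∈ Finset.range (k - B + 1).toNat,
          {y | y ∈ supp (u i : Fn A) ∧ v.π y = c ∧ v.L y = k}).Finite := by
        refine Set.Finite.biUnion (Finset.finite_toSet _) fun i _ => ?_
        exact (u i).2.1.2 c k
      refine h1.subset ?_
      rintro y ⟨hy, hyc, hyk⟩
      have hy : s y ≠ 0 := hy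
      obtain ⟨i, hi, hi'⟩ := Finset.exists_ne_zero_of_sum_ne_zero hy
      rw [hyk] at hi
      exact Set.mem_iUnion₂.2 ⟨i, hi, hi', hyc, hyk⟩
  refine ⟨⟨s, hs⟩, fun l y hy => ?_⟩
  have hy1 : s y - ∑ k ∈ Finset.range l, (u k : Fn A) y ≠ 0 := by
    rw [← hsum]
    exact hy
  constructor
  · by_contra hcon
    apply hy1
    rw [hsb.eq_zero_of_ne hcon, Finset.sum_eq_zero fun k _ => (v.FF_over (hu k)).eq_zero_of_ne hcon,
      sub_zero]
  · by_contra hcon
    apply hy1
    rw [sub_eq_zero]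
    apply Finset.sum_subset
    · intro k hk
      rw [Finset.mem_range] at hk ⊢
      rw [Int.lt_toNat] at hk
      have : (k : ℤ) < l := by linarith
      exact_mod_cast this
    · intro k hk hk'
      rw [Finset.mem_range, not_lt] at hk'
      by_contra h0
      have h1 := (hu k y h0).2
      have h2 := Int.self_le_toNat (v.L y - B + 1)
      have h3 : (((v.L y - B + 1).toNat : ℕ) : ℤ) ≤ k := by exact_mod_cast hk'
      linarith

theorem Lv.FF_gof {n : G} (hn : n ∈ N) {k : ℤ} {f : v.famP.sub} (hf : f ∈ v.FF k) :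
    gof n • f ∈ v.FF k := by
  intro y hy
  rw [Submodule.coe_smul, gof_apply] at hy
  obtain ⟨h1, h2⟩ := hf _ hy
  rw [v.hπ, inv_smul_eq_iff, v.hNb _ hn] at h1
  rw [v.hNL _ (N.inv_mem hn) _ h1] at h2
  exact ⟨h1, h2⟩

theorem Lv.FF_t {k : ℤ} {f : v.famP.sub} (hf : f ∈ v.FF k) : gof t • f ∈ v.FF (k + 1) := by
  intro y hy
  rw [Submodule.coe_smul, gof_apply] at hy
  obtain ⟨h1, h2⟩ := hf _ hy
  have h3 := v.htL _ h1
  rw [smul_inv_smul] at h3
  rw [v.hπ, inv_smul_eq_iff, v.ht] at h1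
  exact ⟨h1, by linarith⟩

/-- the elements of the group ring which preserve the filtration -/
def Lv.Pres (β : RR G) : Prop := ∀ (k : ℤ) (m : v.famP.sub), m ∈ v.FF k → β • m ∈ v.FF k

theorem Lv.Pres_zero : v.Pres 0 := by
  intro k m _
  rw [zero_smul]
  exact zero_mem _

theorem Lv.Pres_one : v.Pres 1 := by
  intro k m hm
  rw [one_smul]
  exact hm

theorem Lv.Pres_add {a b : RR G} (ha : v.Pres a) (hb : v.Pres b) : v.Pres (a + b) := by
  intro k m hm
  rw [add_smul]
  exact add_mem (ha k m hm) (hb k m hm)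

theorem Lv.Pres_mul {a b : RR G} (ha : v.Pres a) (hb : v.Pres b) : v.Pres (a * b) := by
  intro k m hm
  rw [mul_smul]
  exact ha k _ (hb k m hm)

theorem Lv.Pres_zsmul {a : RR G} (z : ℤ) (ha : v.Pres a) : v.Pres (z • a) := by
  intro k m hm
  rw [smul_assoc]
  exact zsmul_mem (ha k m hm) z

theorem Lv.Pres_neg {a : RR G} (ha : v.Pres a) : v.Pres (-a) := by
  intro k m hm
  rw [show (-a) • m = -(a • m) from neg_smul a m]
  exact neg_mem (ha k m hm)

theorem Lv.Pres_gof {n : G} (hn : n ∈ N) : v.Pres (gof n) := fun _ _ hm => v.FF_gof hn hm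

variable {w : G →* ℤˣ}

theorem ev_add' {M : Type} [AddCommGroup M] (ψ : Du w M) (m m' : M) :
    ψ.ev (m + m') = ψ.ev m + ψ.ev m' := map_add _ _ _

theorem ev_zsmul' {M : Type} [AddCommGroup M] (ψ : Du w M) (z : ℤ) (m : M) :
    ψ.ev (z • m) = z • ψ.ev m := map_zsmul _ _ _

/-- The Fox calculus of derivations with values in characters. -/
theorem Lv.fox {d : ℕ} (x : Fin d → G) (hx : Subgroup.closure (Set.range x) = N)
    (δ : G → Du w v.famP.sub) (hδ : ∀ g h, δ (g * h) = δ g + gof g • δ h) (n : G) (hn : n ∈ N) :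
    ∃ β : Fin d → RR G, (∀ j, v.Pres (β j)) ∧
      ∀ m, (δ n).ev m = ∑ j, (δ (x j)).ev (β j • m) := by
  rw [← hx] at hn
  induction hn using Subgroup.closure_induction with
  | mem n hn =>
    obtain ⟨i, rfl⟩ := hn
    refine ⟨Pi.single i 1, fun j => ?_, fun m => ?_⟩
    · by_cases hj : j = i
      · rw [hj, Pi.single_eq_same]
        exact v.Pres_one
      · rw [Pi.single_eq_of_ne hj]
        exact v.Pres_zero
    · rw [Finset.sum_eq_single i]
      · rw [Pi.single_eq_same, one_smul]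
      · intro j _ hj
        rw [Pi.single_eq_of_ne hj, zero_smul, map_zero]
      · intro h
        exact absurd (Finset.mem_univ i) h
  | one =>
    refine ⟨0, fun j => v.Pres_zero, fun m => ?_⟩
    rw [der_one hδ, Du.ev_zero, Finset.sum_eq_zero]
    intro j _
    rw [Pi.zero_apply, zero_smul, map_zero]
  | mul n n' hn hn' h h' =>
    rw [hx] at hn hn'
    obtain ⟨β, hβ, hβ'⟩ := h
    obtain ⟨β', hb, hb'⟩ := h'
    refine ⟨fun j => β j + β' j * (((w n : ℤˣ) : ℤ) • gof n⁻¹), fun j => ?_, fun m => ?_⟩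
    · exact v.Pres_add (hβ j) (v.Pres_mul (hb j) (v.Pres_zsmul _ (v.Pres_gof (N.inv_mem hn))))
    · rw [hδ, Du.ev_add, Du.ev_gof, hβ', hb', Finset.smul_sum, ← Finset.sum_add_distrib]
      refine Finset.sum_congr rfl fun j _ => ?_
      rw [add_smul, map_add, mul_smul, smul_assoc, ← ev_zsmul']
      congr 2
      exact (smul_comm _ _ _)
  | inv n hn h =>
    rw [hx] at hn
    obtain ⟨β, hβ, hβ'⟩ := h
    refine ⟨fun j => -(β j * (((w n : ℤˣ) : ℤ) • gof n)), fun j => ?_, fun m => ?_⟩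
    · exact v.Pres_neg (v.Pres_mul (hβ j) (v.Pres_zsmul _ (v.Pres_gof hn)))
    · rw [der_inv hδ, Du.ev_neg, Du.ev_gof, hβ', Finset.smul_sum, ← Finset.sum_neg_distrib]
      refine Finset.sum_congr rfl fun j _ => ?_
      have h1 : (-(β j * (((w n : ℤˣ) : ℤ) • gof n))) • m =
        -((β j * (((w n : ℤˣ) : ℤ) • gof n)) • m) := neg_smul (β j * (((w n : ℤˣ) : ℤ) • gof n)) m
      change _ = (δ (x j)).ev ((-(β j * (((w n : ℤˣ) : ℤ) • gof n))) • m)
      rw [h1, map_neg, mul_smul, smul_assoc, ← ev_zsmul', inv_inv, map_inv, Int.units_inv_eq_self]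
      congr 2
      exact (smul_comm _ _ _)

end

end

end Pool.Agent.J4H59.PD
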