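import Pool.Agent.J4H59.PD.PartB

/-!
# Derivations with values in the characters of the functions bounded below, continued
-/

set_option autoImplicit false
set_option linter.unusedSectionVars false

open scoped Classical

namespace Pool.Agent.J4H59.PD

open Pool.Agent.Helper386.PD3

noncomputable section

variable {G : Type} [Group G] {A N : Subgroup G} {t : G} {C : Type} [MulAction G C]
variable (v : Lv A N t C) {w : G →* ℤˣ}

theorem unit_smul_unit_smul {M : Type} [AddCommGroup M] (e : ℤˣ) (m : M) :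
    ((e : ℤˣ) : ℤ) • ((e : ℤˣ) : ℤ) • m = m := by
  rw [smul_smul, ← Units.val_mul, Int.units_mul_self, Units.val_one, one_smul]

/-- vanishing on functions over the base point -/
def Lv.Van (ψ : Du w v.famP.sub) : Prop :=
  ∀ m : v.famP.sub, v.Over v.b (m : Fn A) → ψ.ev m = 0

variable {v}

theorem Lv.Van.add {ψ ψ' : Du w v.famP.sub} (h : v.Van ψ) (h' : v.Van ψ') : v.Van (ψ + ψ') := by
  intro m hm
  rw [Du.ev_add, h m hm, h' m hm, add_zero]

theorem Lv.Van.neg {ψ : Du w v.famP.sub} (h : v.Van ψ) : v.Van (-ψ) := by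
  intro m hm
  rw [Du.ev_neg, h m hm, neg_zero]

theorem Lv.Van.gof {ψ : Du w v.famP.sub} (h : v.Van ψ) {g : G} (hg : g • v.b = v.b) :
    v.Van (gof g • ψ) := by
  intro m hm
  rw [Du.ev_gof, h, smul_zero]
  rw [Submodule.coe_smul]
  have h1 := hm.smul g⁻¹
  rwa [inv_smul_eq_iff.2 hg.symm] at h1

variable (v)

theorem Lv.descent (m : v.famP.sub) (hm : v.Over v.b (m : Fn A)) (e : ℤ) (he : e ≠ 0)
    (h : ∀ y, e * (m : Fn A) (t • y) = (m : Fn A) y) : m = 0 := by
  obtain ⟨B, hB⟩ := v.exists_FF hm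
  refine v.FF_sep B m fun l => ?_
  induction l with
  | zero => simpa using hB
  | succ l ih =>
    intro y hy
    refine ⟨hm y hy, ?_⟩
    have h1 := h (t⁻¹ • y)
    rw [smul_inv_smul] at h1
    have h2 : (m : Fn A) (t⁻¹ • y) ≠ 0 := by
      rw [← h1]
      exact mul_ne_zero he hy
    obtain ⟨h3, h4⟩ := ih _ h2
    have h5 := v.htL _ h3
    rw [smul_inv_smul] at h5
    push_cast
    linarith

/-- The restriction of a derivation to the stabilizer of the base point. -/
theorem Lv.base (hNt : ∀ n ∈ N, t * n * t⁻¹ ∈ N) {d : ℕ} (x : Fin d → G)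
    (hx : Subgroup.closure (Set.range x) = N) (δ : G → Du w v.famP.sub)
    (hδ : ∀ g h, δ (g * h) = δ g + gof g • δ h) :
    ∃ μ : Du w v.famP.sub, ∀ g : G, g • v.b = v.b → v.Van (δ g - (gof g • μ - μ)) := by
  have hxN : ∀ i, x i ∈ N := fun i => by
    rw [← hx]
    exact Subgroup.subset_closure ⟨i, rfl⟩
  have ht' : t⁻¹ • v.b = v.b := inv_smul_eq_iff.2 v.ht.symm
  let Pb : v.famP.sub →+ v.famP.sub := v.famP.cutS {y | v.π y = v.b}
  have hPb : ∀ m : v.famP.sub, v.Over v.b (m : Fn A) → Pb m = m :=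
    fun m hm => Subtype.ext hm.cut_eq
  have hPo : ∀ m : v.famP.sub, v.Over v.b (Pb m : Fn A) := fun m => v.over_cut v.b m
  let J : v.famP.sub →+ v.famP.sub := AddMonoidHom.mk'
    (fun m => ((w t : ℤˣ) : ℤ) • gof t⁻¹ • Pb m - Pb m) (by
      intro m m'
      rw [map_add, smul_add, smul_add]
      abel)
  have hJ : ∀ m, J m = ((w t : ℤˣ) : ℤ) • gof t⁻¹ • Pb m - Pb m := fun m => rfl
  obtain ⟨μ₁', hμ₁⟩ := exists_extension J ((δ t).ev.comp Pb) (by
    intro m hm
    have h1 : Pb m = 0 := by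
      refine v.descent (Pb m) (hPo m) ((w t : ℤˣ) : ℤ) (Units.ne_zero _) fun y => ?_
      rw [hJ, sub_eq_zero] at hm
      have h2 := congrArg (fun f : v.famP.sub => (f : Fn A) y) hm
      have h3 : ((((w t : ℤˣ) : ℤ) • gof t⁻¹ • Pb m : v.famP.sub) : Fn A) y =
          ((w t : ℤˣ) : ℤ) * (Pb m : Fn A) (t • y) := by
        have h4 : ∀ (z : ℤ) (f : v.famP.sub), ((z • f : v.famP.sub) : Fn A) y =
          z * (f : Fn A) y := fun z f => rfl
        rw [h4, Submodule.coe_smul, gof_apply, inv_inv]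
      rw [← h3]
      exact h2
    change (δ t).ev (Pb m) = 0
    rw [h1, map_zero])
  let μ₁ : Du w v.famP.sub := μ₁'
  have hμ₁ : ∀ m, μ₁.ev (J m) = (δ t).ev (Pb m) := hμ₁
  refine ⟨μ₁, ?_⟩
  let δ' : G → Du w v.famP.sub := fun g => δ g - (gof g • μ₁ - μ₁)
  have hδ' : ∀ g h, δ' (g * h) = δ' g + gof g • δ' h := der_sub hδ μ₁
  have hδ't : v.Van (δ' t) := by
    intro m hm
    change (δ t - (gof t • μ₁ - μ₁)).ev m = 0
    rw [Du.ev_sub, Du.ev_sub, Du.ev_gof, ← ev_zsmul']
    have h1 := hμ₁ m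
    rw [hJ, hPb m hm, sub_eq_add_neg, ev_add', map_neg] at h1
    rw [← h1]
    abel
  have hvan_inv : ∀ g : G, g • v.b = v.b → v.Van (δ' g) → v.Van (δ' g⁻¹) := by
    intro g hg h
    rw [der_inv hδ']
    exact (h.gof (inv_smul_eq_iff.2 hg.symm)).neg
  have hvan_mul : ∀ g h : G, g • v.b = v.b → v.Van (δ' g) → v.Van (δ' h) → v.Van (δ' (g * h)) := by
    intro g h hg h1 h2
    rw [hδ']
    exact h1.add (h2.gof hg)
  -- conjugation by `t`
  have hnN : ∀ i, t * x i * t⁻¹ ∈ N := fun i => hNt _ (hxN i)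
  have hrel : ∀ i (m : v.famP.sub), v.Over v.b (m : Fn A) →
      (δ' (t * x i * t⁻¹)).ev m = (δ' (x i)).ev (((w t : ℤˣ) : ℤ) • gof t⁻¹ • m) := by
    intro i m hm
    have h1 : v.Van (gof (t * x i) • δ' t⁻¹) := by
      refine (hvan_inv t v.ht hδ't).gof ?_
      rw [mul_smul, v.hNb _ (hxN i), v.ht]
    rw [hδ', hδ', Du.ev_add, Du.ev_add, h1 m hm, hδ't m hm, add_zero, zero_add, Du.ev_gof,
      ← ev_zsmul']
  have hfox := fun i => v.fox x hx δ' hδ' (t * x i * t⁻¹) (hnN i)
  choose β hβ hβ' using hfox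
  let F : ℤ → AddSubgroup (Fin d → v.famP.sub) := fun k =>
    { carrier := {u | ∀ j, u j ∈ v.FF k}
      zero_mem' := fun j => zero_mem _
      add_mem' := fun ha hb j => add_mem (ha j) (hb j)
      neg_mem' := fun ha j => neg_mem (ha j) }
  let Z : (Fin d → v.famP.sub) →+ (Fin d → v.famP.sub) := AddMonoidHom.mk'
    (fun u j => ((w t : ℤˣ) : ℤ) • gof t • ∑ i, β i j • u i) (by
      intro u u'
      funext j
      rw [Pi.add_apply, ← smul_add, ← smul_add, ← Finset.sum_add_distrib]
      congr 2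
      exact Finset.sum_congr rfl fun i _ => smul_add _ _ _)
  have hZ : ∀ u j, Z u j = ((w t : ℤˣ) : ℤ) • gof t • ∑ i, β i j • u i := fun u j => rfl
  have hvanx : ∀ j, v.Van (δ' (x j)) := by
    intro j₀ m₀ hm₀
    obtain ⟨B, hB⟩ := v.exists_FF hm₀
    let c : Fin d → v.famP.sub := Pi.single j₀ m₀
    have hc : ∀ j, c j ∈ v.FF B := by
      intro j
      by_cases hj : j = j₀
      · rw [hj]
        change (Pi.single j₀ m₀ : Fin d → v.famP.sub) j₀ ∈ v.FF B
        rw [Pi.single_eq_same]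
        exact hB
      · change (Pi.single j₀ m₀ : Fin d → v.famP.sub) j ∈ v.FF B
        rw [Pi.single_eq_of_ne hj]
        exact zero_mem _
    obtain ⟨s, hs, hs'⟩ := exists_fix F (fun k u hu j => v.FF_mono k (hu j))
      (fun B u hu => funext fun j => v.FF_sep B (u j) fun l => hu l j)
      (by
        intro B u hu
        choose s hs using fun j => v.FF_comp B (fun k => u k j) (fun k => hu k j)
        refine ⟨s, fun l j => ?_⟩
        have h1 := hs j l
        rw [Pi.sub_apply, Finset.sum_apply]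
        exact h1) Z
      (by
        intro k u hu j
        rw [hZ]
        refine zsmul_mem (v.FF_t ?_) _
        exact sum_mem fun i _ => hβ i j k _ (hu i))
      (B + 1) (fun j => ((w t : ℤˣ) : ℤ) • gof t • c j) (fun j => zsmul_mem (v.FF_t (hc j)) _)
    have hs2 : ∀ j, c j = ((w t : ℤˣ) : ℤ) • gof t⁻¹ • s j - ∑ i, β i j • s i := by
      intro j
      have h1 := congrFun hs' j
      rw [Pi.sub_apply, hZ] at h1
      have h2 : ∀ m : v.famP.sub, ((w t : ℤˣ) : ℤ) • gof t⁻¹ • ((w t : ℤˣ) : ℤ) • gof t • m = m := by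
        intro m
        rw [smul_comm (gof t⁻¹), unit_smul_unit_smul, smul_smul, ← gof_mul, inv_mul_cancel, gof_one,
          one_smul]
      have h3 := congrArg (fun m => ((w t : ℤˣ) : ℤ) • gof t⁻¹ • m) h1
      simp only [smul_sub, h2] at h3
      exact h3.symm
    have h4 : ∑ j, (δ' (x j)).ev (c j) = (δ' (x j₀)).ev m₀ := by
      rw [Finset.sum_eq_single j₀]
      · change (δ' (x j₀)).ev ((Pi.single j₀ m₀ : Fin d → v.famP.sub) j₀) = _
        rw [Pi.single_eq_same]
      · intro j _ hj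
        change (δ' (x j)).ev ((Pi.single j₀ m₀ : Fin d → v.famP.sub) j) = _
        rw [Pi.single_eq_of_ne hj, map_zero]
      · intro h
        exact absurd (Finset.mem_univ _) h
    rw [← h4]
    have h5 : ∀ j, (δ' (x j)).ev (c j) = (δ' (t * x j * t⁻¹)).ev (s j) -
        ∑ i, (δ' (x j)).ev (β i j • s i) := by
      intro j
      rw [hs2 j, hrel j (s j) (v.FF_over (hs j)), map_sub, map_sum]
    simp only [h5]
    rw [Finset.sum_sub_distrib, Finset.sum_comm (f := fun j i => (δ' (x j)).ev (β i j • s i)),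
      sub_eq_zero]
    exact Finset.sum_congr rfl fun i _ => hβ' i (s i)
  have hvanN : ∀ n ∈ N, v.Van (δ' n) := by
    intro n hn m hm
    obtain ⟨β, hβ, hβ'⟩ := v.fox x hx δ' hδ' n hn
    obtain ⟨B, hB⟩ := v.exists_FF hm
    rw [hβ']
    exact Finset.sum_eq_zero fun j _ => hvanx j _ (v.FF_over (hβ j B m hB))
  intro g hg
  have hg' := v.hst g hg
  have hkey : g • v.b = v.b ∧ v.Van (δ' g) := by
    clear hg
    induction hg' using Subgroup.closure_induction with
    | mem g hg =>
      rcases hg with hg | hg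
      · exact ⟨v.hNb g hg, hvanN g hg⟩
      · rw [Set.mem_singleton_iff] at hg
        rw [hg]
        exact ⟨v.ht, hδ't⟩
    | one =>
      refine ⟨one_smul _ _, ?_⟩
      rw [der_one hδ']
      intro m _
      exact Du.ev_zero m
    | mul g h _ _ hg hh =>
      exact ⟨by rw [mul_smul, hh.1, hg.1], hvan_mul g h hg.1 hg.2 hh.2⟩
    | inv g _ hg => exact ⟨inv_smul_eq_iff.2 hg.1.symm, hvan_inv g hg.1 hg.2⟩
  exact hkey.2

/-- additive maps are determined by the functions supported over one point -/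
theorem Lv.ind_over (E : v.famP.sub →+ EE)
    (hE : ∀ (c : C) (f : v.famP.sub), v.Over c (f : Fn A) → E f = 0) (f : v.famP.sub) : E f = 0 := by
  have hkey : ∀ (T : Finset C) (f : v.famP.sub), (∀ y, (f : Fn A) y ≠ 0 → v.π y ∈ T) → E f = 0 := by
    intro T
    induction T using Finset.induction_on with
    | empty =>
      intro f hf
      have : f = 0 := by
        apply Subtype.ext
        refine fn_ext fun y => ?_
        by_contra hcon
        exact absurd (hf y hcon) (Finset.notMem_empty _)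
      rw [this, map_zero]
    | insert c T hc ih =>
      intro f hf
      have h1 : f = v.famP.cutS {y | v.π y = c} f + (f - v.famP.cutS {y | v.π y = c} f) := by abel
      rw [h1, map_add, hE c _ (v.over_cut c f), zero_add]
      apply ih
      intro y hy
      have hy : (f : Fn A) y - cut {y | v.π y = c} (f : Fn A) y ≠ 0 := hy
      by_cases hyc : v.π y = c
      · exact absurd (by rw [cut_of_mem (s := {y | v.π y = c}) (f : Fn A) hyc, sub_self]) hy
      · rw [cut_of_notMem (s := {y | v.π y = c}) (f : Fn A) hyc, sub_zero] at hy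
        rcases Finset.mem_insert.1 (hf y hy) with h | h
        · exact absurd h hyc
        · exact h
  refine hkey f.2.1.1.toFinset f fun y hy => ?_
  rw [Set.Finite.mem_toFinset]
  exact ⟨y, hy, rfl⟩

/-- Every derivation with values in the characters of the functions bounded below is inner. -/
theorem Lv.allDer_famP (hNt : ∀ n ∈ N, t * n * t⁻¹ ∈ N) {d : ℕ} (x : Fin d → G)
    (hx : Subgroup.closure (Set.range x) = N) : AllDer (G := G) (Du w v.famP.sub) := by
  intro δ hδ
  obtain ⟨μ₁, hμ₁⟩ := v.base hNt x hx δ hδ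
  let δ' : G → Du w v.famP.sub := fun g => δ g - (gof g • μ₁ - μ₁)
  have hδ' : ∀ g h, δ' (g * h) = δ' g + gof g • δ' h := der_sub hδ μ₁
  have hvan : ∀ g : G, g • v.b = v.b → v.Van (δ' g) := hμ₁
  let P : C → v.famP.sub →+ v.famP.sub := fun c => v.famP.cutS {y | v.π y = c}
  have hfin : ∀ f : v.famP.sub, (Function.support fun c => (δ' (v.r c)).ev (P c f)).Finite := by
    intro f
    refine f.2.1.1.subset ?_
    intro c hc
    by_contra hcon
    apply hc
    have h1 : P c f = 0 := by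
      apply Subtype.ext
      refine fn_ext fun y => ?_
      by_cases hy : (f : Fn A) y = 0
      · change cut {y | v.π y = c} (f : Fn A) y = 0
        rw [cut_apply, hy, ite_self]
      · refine cut_of_notMem _ fun hyc => hcon ⟨y, hy, hyc⟩
    change (δ' (v.r c)).ev (P c f) = 0
    rw [h1, map_zero]
  let μ₂' : v.famP.sub →+ EE := AddMonoidHom.mk'
    (fun f => -∑ᶠ c, (δ' (v.r c)).ev (P c f)) (by
      intro f f'
      rw [← neg_add, ← finsum_add_distrib (hfin f) (hfin f')]
      congr 1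
      exact finsum_congr fun c => by rw [map_add, map_add])
  let μ₂ : Du w v.famP.sub := μ₂'
  have hμ₂ : ∀ (c : C) (f : v.famP.sub), v.Over c (f : Fn A) → μ₂.ev f = -(δ' (v.r c)).ev f := by
    intro c f hf
    change -∑ᶠ c, (δ' (v.r c)).ev (P c f) = _
    rw [finsum_eq_single _ c]
    · have h1 : P c f = f := Subtype.ext hf.cut_eq
      rw [h1]
    · intro c' hc'
      have h1 : P c' f = 0 := Subtype.ext (hf.cut_ne hc')
      rw [h1, map_zero]
  have hfinal : ∀ g, δ' g = gof g • μ₂ - μ₂ := by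
    intro g
    rw [← sub_eq_zero]
    refine Du.ext fun f => ?_
    rw [Du.ev_zero]
    refine v.ind_over _ (fun c f hf => ?_) f
    have h0 : (δ' g - (gof g • μ₂ - μ₂)).ev f =
      (δ' g).ev f - ((gof g • μ₂).ev f - μ₂.ev f) := rfl
    rw [h0, Du.ev_gof, hμ₂ c f hf]
    have h1 : v.Over (g⁻¹ • c) ((gof g⁻¹ • f : v.famP.sub) : Fn A) := hf.smul g⁻¹
    rw [hμ₂ _ _ h1]
    set r := v.r c with hr
    set r' := v.r (g⁻¹ • c) with hr'
    have h2 : ((w g : ℤˣ) : ℤ) • (δ' r').ev (gof g⁻¹ • f) = (δ' (g * r')).ev f - (δ' g).ev f := by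
      rw [← Du.ev_gof, hδ', Du.ev_add]
      abel
    have h3 : (δ' (g * r')).ev f = (δ' r).ev f := by
      have h4 : g * r' = r * (r⁻¹ * g * r') := by group
      have h5 : (r⁻¹ * g * r') • v.b = v.b := by
        rw [mul_smul, mul_smul, hr', v.hr, smul_inv_smul, hr]
        rw [inv_smul_eq_iff, v.hr]
      rw [h4, hδ', Du.ev_add, Du.ev_gof, hvan _ h5, smul_zero, add_zero]
      have h6 : v.Over (r⁻¹ • c) ((gof r⁻¹ • f : v.famP.sub) : Fn A) := hf.smul r⁻¹
      have h7 : r⁻¹ • c = v.b := by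
        rw [inv_smul_eq_iff, hr, v.hr]
      rw [← h7]
      exact h6
    rw [smul_neg, h2, h3]
    abel
  refine ⟨μ₁ + μ₂, fun g => ?_⟩
  have h1 := hfinal g
  have h2 : δ g = δ' g + (gof g • μ₁ - μ₁) := by
    change _ = (δ g - (gof g • μ₁ - μ₁)) + _
    abel
  rw [h2, h1, smul_add]
  abel

end

end Pool.Agent.J4H59.PD
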